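import Pool.Agent.MP_ed9623_an.H77.AllW

/-! Unique continuation for `G_s = - f α_x`, `G_x = α_s` with `f` of class `C¹`: statements. -/

open MeasureTheory Filter Topology Set
open scoped ContDiff

namespace Pool.Agent.MP_ed9623_an.U81

open H64 H77

/-- Continuously differentiable on the plane. -/
abbrev C1 (u : P → ℝ) : Prop := ContDiff ℝ (1 : ℕ) u

/-- First partial derivative. -/
noncomputable abbrev d0 (u : P → ℝ) : P → ℝ := pd (ee 0) u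

/-- Second partial derivative. -/
noncomputable abbrev d1 (u : P → ℝ) : P → ℝ := pd (ee 1) u

/-- Square integrable on `O`. -/
def ML (O : Set P) (u : P → ℝ) : Prop := M2 (O.indicator u)

/-- `u ∈ H¹(O)` with gradient `d`. -/
def W1 (O : Set P) (u : P → ℝ) (d : Fin 2 → P → ℝ) : Prop :=
  ML O u ∧ ∀ i, ML O (d i) ∧ WD O (ee i) u (d i)

/-- The first order system. -/
structure Sys (O : Set P) (f α G : P → ℝ) : Prop where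
  ca : C1 α
  cg : C1 G
  eq : ∀ p ∈ O, d0 G p = -(f p * d1 α p) ∧ d1 G p = d0 α p

/-- The bounds for the coefficient above a line of parabolic degeneracy of the second kind. -/
structure KB (r c C : ℝ) (g : P → ℝ) : Prop where
  r0 : 0 < r
  r1 : r ≤ 1
  c0 : 0 < c
  cg : C1 g
  bd : ∀ p ∈ Qp 0 r, c * p.2 ≤ g p ∧ g p ≤ C * p.2 ∧ d1 g p ≤ 4 / (3 * p.2) * g p

/-- `|F|² + ε`. -/
def mm (F₁ F₂ ε : ℝ) : ℝ := F₁ ^ 2 + F₂ ^ 2 + ε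

/-- The density `1 / (m (A - log m)²)`. -/
noncomputable def dens (A m : ℝ) : ℝ := 1 / (m * (A - Real.log m) ^ 2)

/-- Jacobian determinant of a pair of functions. -/
noncomputable def Jc (u w : P → ℝ) (p : P) : ℝ := d0 u p * d1 w p - d1 u p * d0 w p

/-- The normal vector. -/
def nv (τ : P) : P := (-τ.2, τ.1)

/-- Data in the plane: `q` is the normal derivative of the stream function. -/
structure Dat (U : Set P) (x τ : P) (q α G f : P → ℝ) : Prop where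
  op : IsOpen U
  mem : x ∈ U
  un : τ.1 ^ 2 + τ.2 ^ 2 = 1
  cq : C1 q
  ca : C1 α
  cg : C1 G
  cf : C1 f
  ne : pd (nv τ) q x ≠ 0
  eq : ∀ y ∈ U, pd (nv τ) q y * pd τ G y - pd τ q y * pd (nv τ) G y = -(f y * pd (nv τ) α y) ∧
    pd (nv τ) G y = pd (nv τ) q y * pd τ α y - pd τ q y * pd (nv τ) α y

/-- Component of a vector field along `v`. -/
def dir (v : P) (d : Fin 2 → P → ℝ) (y : P) : ℝ := v.1 * d 0 y + v.2 * d 1 y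

/-- Jets at a fixed time: `ψ i` is the gradient of the stream function, `f` its Hessian
determinant. -/
structure Jet (U : Set P) (ψ : Fin 2 → P → ℝ) (α G f : P → ℝ) : Prop where
  op : IsOpen U
  cp : ∀ i, C1 (ψ i)
  ca : C1 α
  cg : C1 G
  cf : C1 f
  sy : ∀ y ∈ U, d1 (ψ 0) y = d0 (ψ 1) y
  fe : ∀ y ∈ U, f y = Jc (ψ 0) (ψ 1) y
  eq : ∀ y ∈ U, ∀ i, pd (ee i) G y = -(d0 (ψ i) y * d1 α y) + d1 (ψ i) y * d0 α y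

/-- The Hessian of the stream function on a pair of vectors. -/
noncomputable def hs (ψ : Fin 2 → P → ℝ) (v w y : P) : ℝ :=
  v.1 * pd w (ψ 0) y + v.2 * pd w (ψ 1) y

/-- The derivative of `u` along the level curves of `q`. -/
noncomputable def XX (τ : P) (q u : P → ℝ) (y : P) : ℝ :=
  pd τ u y - pd τ q y / pd (nv τ) q y * pd (nv τ) u y

/-- The same for jets, multiplied by the normal second derivative. -/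
noncomputable def XJ (τ : P) (ψ : Fin 2 → P → ℝ) (u : P → ℝ) (y : P) : ℝ :=
  hs ψ (nv τ) (nv τ) y * pd τ u y - hs ψ (nv τ) τ y * pd (nv τ) u y

/-- The alternatives across an arc transversal to the level curves; `a` is the derivative of `f`
along them. -/
def CaseT (U : Set P) (x τ : P) (ρ f : P → ℝ) (a : ℝ) : Prop :=
  (∀ y ∈ U, 0 < ρ y → 0 < f y) ∨ (f x ≠ 0 ∧ pd (nv τ) ρ x = 0) ∨
    ((∀ y ∈ U, ρ y = 0 → f y = 0) ∧ a ≠ 0)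

/-! ### Generic rows -/

/-- The Jacobian has integral zero. -/
def JacS : Prop := ∀ u w : P → ℝ, C1 u → HasCompactSupport u → C1 w → ∫ p, Jc u w p = 0

/-- Level curves as graphs over the second axis. -/
def ImpS : Prop := ∀ ρ : P → ℝ, C1 ρ → ρ 0 = 0 → 0 < d0 ρ 0 → ∃ (γ : ℝ → ℝ) (r : ℝ), 0 < r ∧
  ContDiff ℝ (1 : ℕ) γ ∧ γ 0 = 0 ∧ deriv γ 0 * d0 ρ 0 = -d1 ρ 0 ∧ ∀ p ∈ Q r,
    (p.1 < γ p.2 → ρ p < 0) ∧ (p.1 = γ p.2 → ρ p = 0) ∧ (γ p.2 < p.1 → 0 < ρ p)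

/-- The partial Legendre chart. -/
def LegS : Prop := ∀ (U : Set P) (x τ : P) (q : P → ℝ), IsOpen U → x ∈ U →
  τ.1 ^ 2 + τ.2 ^ 2 = 1 → C1 q → pd (nv τ) q x ≠ 0 → ∃ (Θ : P → P) (r : ℝ), 0 < r ∧
    ContDiff ℝ (1 : ℕ) Θ ∧ Θ 0 = x ∧ (∀ r', 0 < r' → Θ '' Q r' ∈ 𝓝 x) ∧ ∀ p ∈ Q r, Θ p ∈ U ∧
      q (Θ p) = q x + p.2 ∧ pd (nv τ) q (Θ p) ≠ 0 ∧
      fderiv ℝ Θ p (ee 0) = τ - (pd τ q (Θ p) / pd (nv τ) q (Θ p)) • nv τ ∧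
      fderiv ℝ Θ p (ee 1) = (pd (nv τ) q (Θ p))⁻¹ • nv τ

/-! ### The elliptic cases -/

/-- The logarithmic area inequality. -/
def LidS : Prop := ∀ (O : Set P) (F₁ F₂ χ W : P → ℝ) (A ε : ℝ), IsOpen O → C1 F₁ → C1 F₂ →
  Test O χ → 0 < ε → Integrable W → (∀ p, 0 ≤ W p) → (∀ p ∈ O,
    1 + Real.log (mm (F₁ p) (F₂ p) ε) ≤ A ∧ 0 ≤ Jc F₁ F₂ p ∧
    (d0 χ p * (F₁ p * d1 F₂ p - F₂ p * d1 F₁ p) - d1 χ p * (F₁ p * d0 F₂ p - F₂ p * d0 F₁ p)) ^ 2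
      ≤ W p * mm (F₁ p) (F₂ p) ε * Jc F₁ F₂ p) →
  Integrable (fun p => χ p ^ 2 * (Jc F₁ F₂ p * dens A (mm (F₁ p) (F₂ p) ε))) ∧
    ∫ p, χ p ^ 2 * (Jc F₁ F₂ p * dens A (mm (F₁ p) (F₂ p) ε)) ≤ ∫ p, W p

/-- The double logarithm along a segment. -/
def SegS : Prop := ∀ (a b A ε : ℝ) (F₁ F₂ F₁' F₂' w : ℝ → ℝ), a ≤ b → 0 < ε →
  (∀ t, HasDerivAt F₁ (F₁' t) t ∧ HasDerivAt F₂ (F₂' t) t) → Continuous F₁' → Continuous F₂' →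
  ContinuousOn w (Icc a b) →
  (∀ t ∈ Icc a b, 0 < w t ∧ 1 + Real.log (mm (F₁ t) (F₂ t) ε) ≤ A) →
  ∀ y ∈ Icc a b, ∀ z ∈ Icc a b,
    Real.log (A - Real.log (mm (F₁ y) (F₂ y) ε)) - Real.log (A - Real.log (mm (F₁ z) (F₂ z) ε))
      ≤ (∫ t in a..b, w t * (F₁' t ^ 2 + F₂' t ^ 2) * dens A (mm (F₁ t) (F₂ t) ε))
        + ∫ t in a..b, (w t)⁻¹

/-- Continuation along horizontal segments. -/
def LlS : Prop := ∀ (a a' b' b c d c₀ C s₁ : ℝ) (f α G : P → ℝ), a < a' → b' < b → 0 < c₀ →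
  s₁ ∈ Icc a' b' → Sys (Bx a b c d) f α G → (∀ p ∈ Bx a b c d,
    ((0 ≤ f p ∧ f p ≤ C) ∨ (d0 α p = 0 ∧ d1 α p = 0)) ∧
    ((p.1 ≤ a' ∨ b' ≤ p.1) → c₀ ≤ f p ∨ (d0 α p = 0 ∧ d1 α p = 0))) →
  (∀ x ∈ Ioo c d, α (s₁, x) = 0 ∧ G (s₁, x) = 0) →
  ∀ p : P, p.1 ∈ Icc a' b' → p.2 ∈ Ioo c d → α p = 0 ∧ G p = 0

/-- The Carleman inequality. -/
def K1S : Prop := ∀ (r c C : ℝ) (ν ν' B : ℝ → ℝ) (g v₁ v₂ : P → ℝ) (K : Set P),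
  KB r c C g → C1 v₁ → C1 v₂ → IsCompact K → K ⊆ Qp 0 r →
  (∀ p, p ∉ K → v₁ p = 0 ∧ v₂ p = 0) → ContinuousOn ν' (Ioo 0 r) → ContinuousOn B (Ioo 0 r) →
  (∀ x ∈ Ioo 0 r, HasDerivAt ν (ν' x) x ∧ 0 ≤ ν x ∧
    1 / (9 * x ^ 2) + B x ≤ -ν' x - 2 / (3 * x) * ν x) →
  ∫ p : P, B p.2 * (g p * v₁ p ^ 2 + v₂ p ^ 2)
    ≤ ∫ p : P, (g p * (d1 v₁ p + ν p.2 * v₁ p + d0 v₂ p / g p) ^ 2
      + (d1 v₂ p + ν p.2 * v₂ p - d0 v₁ p) ^ 2)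

/-- The Carleman inequality for a cut-off solution. -/
def K2aS : Prop := ∀ (r c C l a : ℝ) (β χ : ℝ → ℝ) (g α G : P → ℝ), KB r c C g →
  Sys (Qp 0 r) g α G → 0 ≤ l →
  ContDiff ℝ (1 : ℕ) β → HasCompactSupport β → tsupport β ⊆ Ioo 0 r →
  ContDiff ℝ (1 : ℕ) χ → HasCompactSupport χ → tsupport χ ⊆ Ioo (-r) r →
  ∀ W : P → ℝ, Integrable W → (∀ p, 0 ≤ W p) → (∀ p ∈ Qp 0 r,
    2 * (Real.exp (l * (a - 96 * √√p.2)) / p.2 * ((deriv β p.2 * χ p.1) ^ 2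
      + (β p.2 * deriv χ p.1) ^ 2 / (c * p.2)) * (g p * α p ^ 2 + G p ^ 2))
      ≤ l / p.2 * (Real.exp (l * (a - 96 * √√p.2)) / p.2 * (β p.2 * χ p.1) ^ 2
        * (g p * α p ^ 2 + G p ^ 2)) / 2 + W p) →
  ∀ (S : Set P) (m : ℝ), MeasurableSet S → S ⊆ Qp 0 r → 0 ≤ m →
    (∀ p ∈ S, m ≤ l / p.2 * (Real.exp (l * (a - 96 * √√p.2)) / p.2 * (β p.2 * χ p.1) ^ 2)) →
    m * ∫ p in S, (g p * α p ^ 2 + G p ^ 2) ≤ 2 * ∫ p, W p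

/-- Decay in the mean. -/
def K2S : Prop := ∀ (r c C C' : ℝ) (g α G : P → ℝ), KB r c C g → Sys (Qp 0 r) g α G →
  (∀ p ∈ Qp 0 r, |α p| ≤ C' * (p.2 * √p.2) ∧ |G p| ≤ C' * (p.2 * √p.2)) →
  ∃ A κ : ℝ, 0 < κ ∧ ∀ x, 0 < x → x ≤ r / 32 →
    ∫ p in Bx (-(r / 4)) (r / 4) 0 x, (g p * α p ^ 2 + G p ^ 2) ≤ A * Real.exp (-(κ / √√x))

/-- Pointwise decay. -/
def K2pS : Prop := ∀ (r c C' A κ : ℝ) (g α G : P → ℝ), 0 < r → r ≤ 1 → 0 < c → 0 < κ →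
  Continuous g → C1 α → C1 G →
  (∀ p ∈ Qp 0 r, c * p.2 ≤ g p ∧ |α p| ≤ C' * p.2 ∧ |G p| ≤ C' * p.2) →
  (∀ x, 0 < x → x ≤ r / 8 →
    ∫ p in Bx (-r) r 0 x, (g p * α p ^ 2 + G p ^ 2) ≤ A * Real.exp (-(κ / √√x))) →
  ∃ A' κ' : ℝ, 0 < κ' ∧ ∀ p ∈ Qp 0 (r / 8), α p ^ 2 + G p ^ 2 ≤ A' * Real.exp (-(κ' / √√p.2))

/-- One vertical segment of zeros. -/
def K3S : Prop := ∀ (r c C A κ : ℝ) (g α G : P → ℝ), 0 < r → r ≤ 1 → 0 < c → 0 < κ →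
  Continuous g → Sys (Qp 0 r) g α G → (∀ p ∈ Qp 0 r, c * p.2 ≤ g p ∧ g p ≤ C * p.2 ∧
    α p ^ 2 + G p ^ 2 ≤ A * Real.exp (-(κ / √√p.2))) →
  ∃ x₀ s₁ : ℝ, 0 < x₀ ∧ x₀ ≤ r ∧ s₁ ∈ Icc (-(r / 2)) (r / 2) ∧
    ∀ x ∈ Ioo 0 x₀, α (s₁, x) = 0 ∧ G (s₁, x) = 0

/-- The elliptic side of a degeneracy of the second kind. -/
def EkS : Prop := ∀ (r c C C' : ℝ) (g α G : P → ℝ), KB r c C g → Sys (Qp 0 r) g α G →
  (∀ p ∈ Qp 0 r, |α p| ≤ C' * (p.2 * √p.2) ∧ |G p| ≤ C' * (p.2 * √p.2)) →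
  ∃ r₂ : ℝ, 0 < r₂ ∧ ∀ p ∈ Qp 0 r₂, α p = 0

/-! ### The hyperbolic cases -/

/-- The hyperbolic side of a degeneracy of the second kind. -/
def HkS : Prop := ∀ (r c C C' : ℝ) (g α G : P → ℝ), KB r c C g →
  Sys (Qp 0 r) (fun p => -g p) α G →
  (∀ p ∈ Qp 0 r, |α p| ≤ C' * (p.2 * √p.2) ∧ |G p| ≤ C' * (p.2 * √p.2)) →
  ∃ r₂ : ℝ, 0 < r₂ ∧ ∀ p ∈ Qp 0 r₂, α p = 0

/-- The Cauchy problem across a transversal arc, flattened. -/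
def HtS : Prop := ∀ (r c k : ℝ) (b : ℝ → ℝ) (g α G : P → ℝ), 0 < r → 0 < c → 0 ≤ k → C1 α →
  C1 G → C1 g → Continuous b → (∀ p ∈ Qp 0 r, c * p.2 ≤ g p ∧ b p.1 ^ 2 * g p ≤ 1 / 4 ∧
    -(k * g p) ≤ d1 g p ∧ d1 G p = g p * (d0 α p - b p.1 * d1 α p) ∧
    d1 α p = d0 G p - b p.1 * d1 G p) →
  (∀ y ∈ Ioo (-r) r, α (y, 0) = 0 ∧ G (y, 0) = 0) →
  ∃ r₂ : ℝ, 0 < r₂ ∧ ∀ p ∈ Qp 0 r₂, α p = 0

/-! ### In the chart -/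

/-- Across a transversal arc. -/
def CtS : Prop := ∀ (r : ℝ) (γ : ℝ → ℝ) (f α G : P → ℝ), 0 < r → Sys (Q r) f α G → C1 f →
  ContDiff ℝ (1 : ℕ) γ → γ 0 = 0 → (∀ p ∈ Q r, p.1 < γ p.2 → α p = 0 ∧ G p = 0) →
  ((∀ p ∈ Q r, γ p.2 < p.1 → 0 < f p) ∨ (f 0 ≠ 0 ∧ deriv γ 0 = 0) ∨
    ((∀ p ∈ Q r, p.1 = γ p.2 → f p = 0) ∧ d0 f 0 ≠ 0)) →
  ∀ᶠ p in 𝓝 (0 : P), α p = 0

/-- Across a line on which `f` vanishes to first order. -/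
def CkS : Prop := ∀ (r C : ℝ) (f α G : P → ℝ), 0 < r → Sys (Q r) f α G → C1 f →
  (∀ p ∈ Q r, p.2 ≤ 0 → α p = 0 ∧ G p = 0) →
  (∀ p ∈ Qp 0 r, |d0 α p| ≤ C * √p.2 ∧ |d1 α p| ≤ C * √p.2) →
  (∀ y ∈ Ioo (-r) r, f (y, 0) = 0) → d1 f 0 ≠ 0 → ∀ᶠ p in 𝓝 (0 : P), α p = 0

/-! ### In the plane -/

/-- Continuation across an arc `ρ = 0` transversal to the level curves of `q`. -/
def UtS : Prop := ∀ (U : Set P) (x τ : P) (q α G f ρ : P → ℝ), Dat U x τ q α G f → C1 ρ →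
  ρ x = 0 → 0 < XX τ q ρ x → (∀ y ∈ U, ρ y < 0 → fderiv ℝ α y = 0) →
  CaseT U x τ ρ f (XX τ q f x) → ∀ᶠ y in 𝓝 x, fderiv ℝ α y = 0

/-- Continuation across a level curve of `q` on which `f` vanishes. -/
def UkS : Prop := ∀ (U : Set P) (x τ : P) (q α G f ρ : P → ℝ) (C : ℝ), Dat U x τ q α G f →
  (∀ y ∈ U, ∀ z ∈ U, ∀ i, |pd (ee i) α y - pd (ee i) α z| ≤ C * √(dist y z)) → C1 ρ → ρ x = 0 →
  0 < pd (nv τ) ρ x / pd (nv τ) q x → (∀ y ∈ U, ρ y < 0 → fderiv ℝ α y = 0) →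
  (∀ y ∈ U, ρ y = 0 → q y = q x ∧ f y = 0) → pd (nv τ) f x ≠ 0 →
  ∀ᶠ y in 𝓝 x, fderiv ℝ α y = 0

/-- The transversal case for jets. -/
def VtS : Prop := ∀ (U : Set P) (x τ : P) (ψ : Fin 2 → P → ℝ) (α G f ρ : P → ℝ),
  Jet U ψ α G f → x ∈ U → τ.1 ^ 2 + τ.2 ^ 2 = 1 → hs ψ (nv τ) (nv τ) x ≠ 0 → C1 ρ → ρ x = 0 →
  XJ τ ψ ρ x ≠ 0 → (∀ y ∈ U, ρ y < 0 → fderiv ℝ α y = 0) → CaseT U x τ ρ f (XJ τ ψ f x) →
  ∀ᶠ y in 𝓝 x, fderiv ℝ α y = 0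

/-- The wall-like case for jets. -/
def VkS : Prop := ∀ (U : Set P) (x τ : P) (ψ : Fin 2 → P → ℝ) (α G f ρ : P → ℝ) (C : ℝ),
  Jet U ψ α G f → x ∈ U → τ.1 ^ 2 + τ.2 ^ 2 = 1 → hs ψ (nv τ) (nv τ) x ≠ 0 →
  (∀ y ∈ U, ∀ z ∈ U, ∀ i, |pd (ee i) α y - pd (ee i) α z| ≤ C * √(dist y z)) → C1 ρ → ρ x = 0 →
  pd (nv τ) ρ x ≠ 0 → (∀ y ∈ U, ρ y < 0 → fderiv ℝ α y = 0) →
  (∀ y ∈ U, ρ y = 0 → dir (nv τ) ψ y = dir (nv τ) ψ x ∧ f y = 0) → pd (nv τ) f x ≠ 0 →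
  ∀ᶠ y in 𝓝 x, fderiv ℝ α y = 0

def OfJac : Prop := JacS
def OfImp : Prop := ImpS
def OfLeg : Prop := LegS
def OfLid : Prop := JacS → LidS
def OfSeg : Prop := SegS
def OfLl : Prop := LidS → SegS → LlS
def OfK1 : Prop := JacS → K1S
def OfK2a : Prop := K1S → K2aS
def OfK2 : Prop := K2aS → K2S
def OfK2p : Prop := K2pS
def OfK3 : Prop := LidS → SegS → K3S
def OfEk : Prop := LlS → K2S → K2pS → K3S → EkS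
def OfHk : Prop := HkS
def OfHt : Prop := HtS
def OfCt : Prop := LlS → HtS → CtS
def OfCk : Prop := EkS → HkS → CkS
def OfUt : Prop := ImpS → LegS → CtS → UtS
def OfUk : Prop := LegS → CkS → UkS
def OfVt : Prop := UtS → VtS
def OfVk : Prop := UkS → VkS

end Pool.Agent.MP_ed9623_an.U81
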