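import Pool.Agent.MP_ed9623_an.U81.Ct

/-! The continuation theorems in the plane. -/

open MeasureTheory Filter Topology Set
open scoped ContDiff

namespace Pool.Agent.MP_ed9623_an.U81

open H64 H77

theorem eq_of_zero {F F' : ℝ → ℝ} {a b : ℝ} (h : ∀ t, HasDerivAt F (F' t) t)
    (h0 : ∀ t, min a b < t → t < max a b → F' t = 0) : F a = F b := by
  have c : Continuous F := continuous_iff_continuousAt.2 fun t => (h t).continuousAt
  have key : ∀ {a b : ℝ}, a < b → (∀ t, a < t → t < b → F' t = 0) → F a = F b := fun hab z => by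
    obtain ⟨ξ, m, e⟩ := exists_hasDerivAt_eq_slope F F' hab c.continuousOn fun t _ => h t
    rw [z ξ m.1 m.2, eq_comm, div_eq_zero_iff] at e
    exact (sub_eq_zero.1 (e.resolve_right (sub_pos.2 hab).ne')).symm
  rcases lt_trichotomy a b with e | e | e
  · exact key e (by simpa [min_eq_left e.le, max_eq_right e.le] using h0)
  · rw [e]
  · exact (key e (by simpa [min_eq_right e.le, max_eq_left e.le] using h0)).symm

theorem zero_left {r : ℝ} {γ : ℝ → ℝ} (r0 : 0 < r) (hγ : Continuous γ) (γ0 : γ 0 = 0) :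
    ∃ r', 0 < r' ∧ r' ≤ r ∧ ∀ u : P → ℝ, C1 u → u 0 = 0 →
      (∀ p ∈ Q r, p.1 < γ p.2 → d0 u p = 0 ∧ d1 u p = 0) → ∀ p ∈ Q r', p.1 < γ p.2 → u p = 0 := by
  obtain ⟨η, η0, hη⟩ := Metric.eventually_nhds_iff.1 ((hγ.continuousAt (x := 0)
    ).eventually_const_lt (show -(r / 2) < γ 0 by rw [γ0]; linarith))
  refine ⟨min η (r / 2), by positivity, (min_le_right _ _).trans (by linarith),
    fun u hu u0 h p hp hl => ?_⟩
  obtain ⟨a, b⟩ := mem_Q.1 hp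
  have a' := abs_lt.1 (a.trans_le (min_le_right _ _))
  have b1 := abs_lt.1 (b.trans_le (min_le_right _ _))
  have b2 := abs_lt.1 (b.trans_le (min_le_left _ _))
  have e1 := eq_of_zero (a := p.1) (b := -(r / 2)) (fun t => hu.s0 t p.2) fun t t1 t2 => by
    rw [min_eq_right a'.1.le] at t1
    rw [max_eq_left a'.1.le] at t2
    exact (h (t, p.2) ⟨⟨by linarith, by linarith⟩, by linarith, by linarith⟩ (t2.trans hl)).1
  have e2 := eq_of_zero (a := p.2) (b := 0) (fun t => hu.s1 (-(r / 2)) t) fun t t1 t2 => by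
    have c1 := (lt_min b1.1 (neg_lt_zero.2 (half_pos r0))).trans t1
    have c2 := t2.trans (max_lt b1.2 (half_pos r0))
    refine (h (-(r / 2), t) ⟨⟨by linarith, by linarith⟩, by linarith, by linarith⟩ (hη ?_)).2
    rw [Real.dist_eq, sub_zero, abs_lt]
    exact ⟨(lt_min b2.1 (neg_lt_zero.2 η0)).trans t1, t2.trans (max_lt b2.2 η0)⟩
  have e3 := eq_of_zero (a := -(r / 2)) (b := 0) (fun t => hu.s0 t 0) fun t t1 t2 => by
    rw [min_eq_left (by linarith)] at t1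
    rw [max_eq_right (by linarith)] at t2
    exact (h (t, 0) ⟨⟨by linarith, by linarith⟩, by linarith, r0⟩ (t2.trans_eq γ0.symm)).1
  exact (e1.trans (e2.trans e3)).trans u0

/-- The data read in the partial Legendre chart. -/
theorem to_chart (hL : LegS) {U : Set P} {x τ : P} {q α G f : P → ℝ} (h : Dat U x τ q α G f) :
    ∃ (Θ : P → P) (r : ℝ), 0 < r ∧ ContDiff ℝ (1 : ℕ) Θ ∧ Θ 0 = x ∧
      (∀ p ∈ Q r, Θ p ∈ U ∧ q (Θ p) = q x + p.2 ∧ ∀ u, C1 u →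
        d0 (fun p => u (Θ p)) p = XX τ q u (Θ p) ∧
        d1 (fun p => u (Θ p)) p = pd (nv τ) u (Θ p) / pd (nv τ) q (Θ p)) ∧
      Sys (Q r) (fun p => f (Θ p)) (fun p => α (Θ p) - α x) (fun p => G (Θ p) - G x) ∧
      (∀ e p, pd e (fun p => α (Θ p) - α x) p = fderiv ℝ α (Θ p) (fderiv ℝ Θ p e)) ∧
      ((∀ᶠ p in 𝓝 (0 : P), α (Θ p) - α x = 0) → ∀ᶠ y in 𝓝 x, fderiv ℝ α y = 0) := by
  obtain ⟨Θ, r, r0, cd, e0, nh, hΘ⟩ := hL U x τ q h.op h.mem h.un h.cq h.ne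
  have d : ∀ p ∈ Q r, ∀ u, C1 u → d0 (fun p => u (Θ p)) p = XX τ q u (Θ p) ∧
      d1 (fun p => u (Θ p)) p = pd (nv τ) u (Θ p) / pd (nv τ) q (Θ p) := fun p hp u hu => by
    obtain ⟨-, -, -, a, b⟩ := hΘ p hp
    rw [d0, d1, pd_comp hu cd, pd_comp hu cd, a, b, pd_smul_dir, sub_eq_add_neg, ← neg_smul,
      pd_add_dir, pd_smul_dir, XX]
    exact ⟨by ring, by ring⟩
  have sub : ∀ {u : P → ℝ}, C1 u → ∀ e p, pd e (fun p => u (Θ p) - u x) p
      = pd e (fun p => u (Θ p)) p := fun {u} hu e p => by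
    rw [pd_sub (f := fun p => u (Θ p)) e (C1.da (hu.comp cd) p) (differentiableAt_const _), pd_const, sub_zero]
  refine ⟨Θ, r, r0, cd, e0, fun p hp => ⟨(hΘ p hp).1, (hΘ p hp).2.1, d p hp⟩,
    ⟨(h.ca.comp cd).sub contDiff_const, (h.cg.comp cd).sub contDiff_const, fun p hp => ?_⟩,
    fun e p => (sub h.ca e p).trans (pd_comp h.ca cd e p), fun hz => ?_⟩
  · obtain ⟨a, -, n0, -⟩ := hΘ p hp
    obtain ⟨a1, a2⟩ := d p hp α h.ca
    obtain ⟨g1, g2⟩ := d p hp G h.cg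
    obtain ⟨e1, e2⟩ := h.eq _ a
    simp only [d0, d1] at a1 a2 g1 g2 ⊢
    rw [sub h.ca, sub h.ca, sub h.cg, sub h.cg, a1, a2, g1, g2, XX, XX]
    constructor <;> field_simp
    · linear_combination e1
    · linear_combination e2
  · obtain ⟨R, R0, hR⟩ := ev_Q hz
    have : α =ᶠ[𝓝 x] fun _ => α x := mem_of_superset (nh R R0) fun y ⟨p, hp, e⟩ =>
      e ▸ sub_eq_zero.1 (hR p hp)
    filter_upwards [this.eventuallyEq_nhds] with y hy
    rw [hy.fderiv_eq, fderiv_fun_const, Pi.zero_apply]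

theorem Sys.grad {O : Set P} {f α G : P → ℝ} (h : Sys O f α G) {p : P} (hp : p ∈ O)
    (hz : ∀ e, pd e α p = 0) : d0 G p = 0 ∧ d1 G p = 0 := by
  rw [(h.eq p hp).1, (h.eq p hp).2, d1, d0, hz, hz]
  simp

theorem rowUt : OfUt := by
  intro hI hL hC U x τ q α G f ρ h hρ ρ0 hX hz hc
  obtain ⟨Θ, r, r0, cd, e0, hΘ, hy, da, back⟩ := to_chart hL h
  have z0 : (0 : P) ∈ Q r := mem_of_mem_nhds (Q_nhds r0)
  have d := (hΘ 0 z0).2.2
  obtain ⟨γ, R, R0, cγ, γ0, dγ, hγ⟩ := hI (fun p => ρ (Θ p)) (hρ.comp cd) (by rw [e0, ρ0])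
    (by rw [(d ρ hρ).1, e0]; exact hX)
  obtain ⟨r', a, b, c⟩ := zero_left (lt_min r0 R0) cγ.continuous γ0
  have s1 : Q (min r R) ⊆ Q r := Q_mono (min_le_left _ _)
  have s2 : Q (min r R) ⊆ Q R := Q_mono (min_le_right _ _)
  have s3 := Q_mono b
  have gz : ∀ p ∈ Q (min r R), p.1 < γ p.2 → ∀ e, pd e (fun p => α (Θ p) - α x) p = 0 :=
    fun p hp hl e => by rw [da, hz _ (hΘ p (s1 hp)).1 ((hγ p (s2 hp)).1 hl)]; rfl
  refine back (hC r' γ _ _ _ a (hy.mono (s3.trans s1)) (h.cf.comp cd) cγ γ0 (fun p hp hl =>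
    ⟨c _ hy.ca (by rw [e0, sub_self]) (fun p hp hl => ⟨gz p hp hl _, gz p hp hl _⟩) p hp hl,
      c _ hy.cg (by rw [e0, sub_self]) (fun p hp hl => hy.grad (s1 hp) (gz p hp hl)) p hp hl⟩) ?_)
  rcases hc with e | ⟨e, e'⟩ | ⟨e, e'⟩
  · exact Or.inl fun p hp hl => e _ (hΘ p (s1 (s3 hp))).1 ((hγ p (s2 (s3 hp))).2.2 hl)
  · refine Or.inr (Or.inl ⟨by rwa [e0], ?_⟩)
    rw [(d ρ hρ).1, (d ρ hρ).2, e0, e', zero_div, neg_zero] at dγ
    exact (mul_eq_zero.1 dγ).resolve_right hX.ne'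
  · exact Or.inr (Or.inr ⟨fun p hp hl => e _ (hΘ p (s1 (s3 hp))).1 ((hγ p (s2 (s3 hp))).2.1 hl),
      by rwa [(d f h.cf).1, e0]⟩)

theorem rowUk : OfUk := by
  intro hL hC U x τ q α G f ρ C h hH hρ ρ0 hn hz ha hf
  obtain ⟨Θ, r, r0, cd, e0, hΘ, hy, da, back⟩ := to_chart hL h
  have d := (hΘ 0 (mem_of_mem_nhds (Q_nhds r0))).2.2
  have cρ : C1 fun p => ρ (Θ p) := hρ.comp cd
  obtain ⟨R, R0, hR⟩ := ev_Q (((cρ.cp (ee 1)).continuousAt.eventually_const_lt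
    (show 0 < d1 (fun p => ρ (Θ p)) 0 by rw [(d ρ hρ).2, e0]; exact hn)).and (Q_nhds r0))
  have mo := fun a b s => mono1 (a := a) (b := b) (s := s) cρ fun p hp => (hR p hp).1
  have m : ∀ {s t : ℝ}, |s| < R → |t| < R → ((s, t) : P) ∈ Q R := fun a b => mem_Q.2 ⟨a, b⟩
  have n0 : |(0 : ℝ)| < R := by simpa using R0
  have n1 : |R / 2| < R := by rw [abs_of_pos (half_pos R0)]; exact half_lt_self R0
  have n2 : |-(R / 2)| < R := by rwa [abs_neg]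
  have z0 : ρ (Θ (0, 0)) = 0 := (congrArg ρ e0).trans ρ0
  have ct : ∀ t : ℝ, ContinuousAt (fun p : P => ρ (Θ (p.1, t))) 0 := fun t =>
    (cρ.continuous.comp (by fun_prop : Continuous fun p : P => ((p.1, t) : P))).continuousAt
  obtain ⟨R', R1, hR'⟩ := ev_Q ((((ct _).eventually_lt_const
    ((mo _ _ 0 (m n0 n2) (m n0 n0) (by linarith)).trans_eq z0)).and ((ct _).eventually_const_lt
      (z0.symm.trans_lt (mo _ _ 0 (m n0 n0) (m n0 n1) (half_pos R0))))).and (Q_nhds R0))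
  have s1 : Q R' ⊆ Q R := fun p hp => (hR' p hp).2
  have s2 : Q R ⊆ Q r := fun p hp => (hR p hp).2
  have foot : ∀ p ∈ Q R', ((p.1, 0) : P) ∈ Q R' := fun p hp =>
    mem_Q.2 ⟨(mem_Q.1 hp).1, by simpa using R1⟩
  have arc : ∀ p ∈ Q R', ρ (Θ (p.1, 0)) = 0 := fun p hp => by
    obtain ⟨ξ, a, b⟩ := intermediate_value_Icc (show -(R / 2) ≤ R / 2 by linarith)
      (f := fun t => ρ (Θ (p.1, t)))
      (cρ.continuous.comp (by fun_prop : Continuous fun t : ℝ => ((p.1, t) : P))).continuousOn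
      ⟨(hR' p hp).1.1.le, (hR' p hp).1.2.le⟩
    have c := hΘ _ (s2 (m (mem_Q.1 (s1 hp)).1 ((abs_le.2 a).trans_lt (half_lt_self R0))))
    have e : ξ = 0 := by linear_combination (ha _ c.1 b).1 - c.2.1
    rwa [e] at b
  have gz : ∀ p ∈ Q R', p.2 ≤ 0 → ∀ e, pd e α (Θ p) = 0 := fun p hp hl e => by
    refine eq_zero_of_closure (f := fun p => pd e α (Θ p)) (U := univ ×ˢ Iio 0)
      ((h.ca.cp e).comp cd.continuous).continuousAt
      (by rw [closure_prod_eq, closure_Iio]; exact ⟨subset_closure trivial, hl⟩) ?_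
    filter_upwards [(isOpen_Q R').mem_nhds hp] with y hy' hl'
    rw [pd, hz _ (hΘ y (s2 (s1 hy'))).1 ((mo _ _ _ (s1 hy') (s1 (foot y hy')) hl'.2).trans_eq
      (arc y hy'))]
    rfl
  have gz' : ∀ p ∈ Q R', p.2 ≤ 0 → ∀ e, pd e (fun p => α (Θ p) - α x) p = 0 := fun p hp hl e =>
    (da e p).trans (gz p hp hl _)
  have low : ∀ u : P → ℝ, C1 u → u 0 = 0 → (∀ p ∈ Q R', p.2 ≤ 0 → d0 u p = 0 ∧ d1 u p = 0) →
      ∀ p ∈ Q R', p.2 ≤ 0 → u p = 0 := fun u hu u0 z p hp hl => by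
    have e1 := eq_of_zero (a := p.2) (b := 0) (fun t => hu.s1 p.1 t) fun t t1 t2 => by
      rw [min_eq_left hl] at t1
      rw [max_eq_right hl] at t2
      exact (z (p.1, t) ⟨hp.1, hp.2.1.trans t1, t2.trans R1⟩ t2.le).2
    have e2 := eq_of_zero (a := p.1) (b := 0) (fun t => hu.s0 t 0) fun t t1 t2 =>
      (z (t, 0) ⟨⟨(lt_min hp.1.1 (neg_lt_zero.2 R1)).trans t1, t2.trans (max_lt hp.1.2 R1)⟩,
        neg_lt_zero.2 R1, R1⟩ le_rfl).1
    exact (e1.trans e2).trans u0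
  obtain ⟨L, L0, hL'⟩ := lip_Q cd R'
  obtain ⟨M, M0, hM⟩ := bd_on (bdd_Q R') (cd.continuous_fderiv (by simp)).norm
  have hol : ∀ p ∈ Qp 0 R', ∀ i, |pd (ee i) α (Θ p)| ≤ |C| * √L * √p.2 := fun p hp i => by
    have q := Qp_sub _ _ hp
    have a := hH _ (hΘ p (s2 (s1 q))).1 _ (hΘ _ (s2 (s1 (foot p q)))).1 i
    have b := hL' p q _ (foot p q)
    rw [Prod.dist_eq, dist_self, Real.dist_eq, sub_zero, abs_of_pos hp.2, max_eq_right hp.2.le,
      ← dist_eq_norm] at b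
    rw [gz _ (foot p q) le_rfl, sub_zero] at a
    rw [mul_assoc, ← Real.sqrt_mul L0.le]
    exact a.trans (mul_le_mul (le_abs_self C) (Real.sqrt_le_sqrt b) (Real.sqrt_nonneg _)
      (abs_nonneg C))
  have hol' : ∀ p ∈ Qp 0 R', ∀ i, |pd (ee i) (fun p => α (Θ p) - α x) p|
      ≤ 2 * M * (|C| * √L) * √p.2 := fun p hp i => by
    have a : ‖fderiv ℝ Θ p (ee i)‖ ≤ M := by
      refine ((fderiv ℝ Θ p).le_opNorm _).trans ?_
      rw [show ‖ee i‖ = 1 by fin_cases i <;> simp [ee], mul_one]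
      exact (le_abs_self _).trans (hM p (Qp_sub _ _ hp))
    have b1 := mul_le_mul ((norm_fst_le _).trans a) (hol p hp 0) (abs_nonneg _) M0
    have b2 := mul_le_mul ((norm_snd_le _).trans a) (hol p hp 1) (abs_nonneg _) M0
    rw [da, show fderiv ℝ α (Θ p) _ = pd _ α (Θ p) from rfl, pd_frame]
    refine (abs_add_le _ _).trans ?_
    rw [abs_mul, abs_mul]
    simp only [Real.norm_eq_abs] at b1 b2
    linarith
  refine back (hC R' _ _ _ _ R1 (hy.mono (s1.trans s2)) (h.cf.comp cd) (fun p hp hl =>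
    ⟨low _ hy.ca (by rw [e0, sub_self]) (fun p hp hl => ⟨gz' p hp hl _, gz' p hp hl _⟩) p hp hl,
      low _ hy.cg (by rw [e0, sub_self]) (fun p hp hl => hy.grad (s2 (s1 hp)) (gz' p hp hl))
        p hp hl⟩) (fun p hp => ⟨hol' p hp 0, hol' p hp 1⟩) (fun y hy' => ?_) ?_)
  · have q : ((y, 0) : P) ∈ Q R' := ⟨hy', neg_lt_zero.2 R1, R1⟩
    exact (ha _ (hΘ _ (s2 (s1 q))).1 (arc _ q)).2
  · rw [(d f h.cf).2, e0]
    exact div_ne_zero hf h.ne

section jets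

variable {U : Set P} {x τ : P} {ψ : Fin 2 → P → ℝ} {α G f : P → ℝ}

theorem Jet.pd_dir (h : Jet U ψ α G f) (v w y : P) : pd w (dir v ψ) y = hs ψ v w y :=
  ((((h.cp 0).hd w y).cmul v.1).add (((h.cp 1).hd w y).cmul v.2)).pd_eq
    (C1.da ((contDiff_const.mul (h.cp 0)).add (contDiff_const.mul (h.cp 1))) y)

theorem Jet.dat (h : Jet U ψ α G f) (hx : x ∈ U) (hτ : τ.1 ^ 2 + τ.2 ^ 2 = 1)
    (hn : hs ψ (nv τ) (nv τ) x ≠ 0) : Dat U x τ (dir (nv τ) ψ) α G f := by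
  refine ⟨h.op, hx, hτ, (contDiff_const.mul (h.cp 0)).add (contDiff_const.mul (h.cp 1)), h.ca, h.cg,
    h.cf, by rwa [h.pd_dir], fun y hy => ?_⟩
  have a := h.eq y hy 0
  have b := h.eq y hy 1
  have c := h.sy y hy
  rw [h.pd_dir, h.pd_dir, h.fe y hy, hs, hs, Jc, pd_frame G y τ, pd_frame G y (nv τ),
    pd_frame α y τ, pd_frame α y (nv τ), pd_frame (ψ 0) y τ, pd_frame (ψ 0) y (nv τ),
    pd_frame (ψ 1) y τ, pd_frame (ψ 1) y (nv τ), show d0 G y = _ from a, show d1 G y = _ from b, c]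
  simp only [nv]
  constructor
  · linear_combination (-(d0 (ψ 0) y * d1 (ψ 1) y - d0 (ψ 1) y * d0 (ψ 1) y)
      * (-τ.2 * d0 α y + τ.1 * d1 α y)) * hτ
  · linear_combination (τ.2 * (-(d0 (ψ 0) y * d1 α y) + d0 (ψ 1) y * d0 α y)
      - τ.1 * (-(d0 (ψ 1) y * d1 α y) + d1 (ψ 1) y * d0 α y)) * hτ

theorem Jet.XX_eq (h : Jet U ψ α G f) (hn : hs ψ (nv τ) (nv τ) x ≠ 0) (u : P → ℝ) :
    XX τ (dir (nv τ) ψ) u x = XJ τ ψ u x / hs ψ (nv τ) (nv τ) x := by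
  rw [XX, XJ, h.pd_dir, h.pd_dir]
  field_simp

theorem nv_neg (τ : P) : nv (-τ) = -nv τ := by simp [nv]

theorem pd_neg_dir (u : P → ℝ) (v y : P) : pd (-v) u y = -pd v u y := by simp [pd]

theorem hs_neg (v w y : P) : hs ψ (-v) (-w) y = hs ψ v w y := by simp [hs, pd_neg_dir]

theorem XJ_neg (u : P → ℝ) (y : P) : XJ (-τ) ψ u y = -XJ τ ψ u y := by
  simp only [XJ, nv_neg, hs_neg, pd_neg_dir]; ring

theorem dir_neg (v y : P) : dir (-v) ψ y = -dir v ψ y := by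
  simp only [dir, Prod.fst_neg, Prod.snd_neg]; ring

end jets

theorem rowVt : OfVt := by
  intro hU U x τ ψ α G f ρ h hx hτ hn hρ ρ0 hX hz hc
  have key : ∀ τ : P, τ.1 ^ 2 + τ.2 ^ 2 = 1 → hs ψ (nv τ) (nv τ) x ≠ 0 →
      0 < XJ τ ψ ρ x / hs ψ (nv τ) (nv τ) x → CaseT U x τ ρ f (XJ τ ψ f x) →
      ∀ᶠ y in 𝓝 x, fderiv ℝ α y = 0 := fun τ hτ hn hX hc =>
    hU U x τ _ α G f ρ (h.dat hx hτ hn) hρ ρ0 (by rwa [h.XX_eq hn]) hz
      (hc.imp_right (Or.imp_right fun a => ⟨a.1, by rw [h.XX_eq hn]; exact div_ne_zero a.2 hn⟩))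
  rcases (div_ne_zero hX hn).lt_or_gt with e | e
  · refine key (-τ) (by simpa using hτ) (by rwa [nv_neg, hs_neg])
      (by rw [nv_neg, hs_neg, XJ_neg, neg_div]; exact neg_pos.2 e) (hc.imp_right (Or.imp
        (fun a => ⟨a.1, by rw [nv_neg, pd_neg_dir, a.2, neg_zero]⟩)
        fun a => ⟨a.1, by rw [XJ_neg]; exact neg_ne_zero.2 a.2⟩))
  · exact key τ hτ hn e hc

theorem rowVk : OfVk := by
  intro hU U x τ ψ α G f ρ C h hx hτ hn hH hρ ρ0 hX hz ha hf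
  rcases (div_ne_zero hX hn).lt_or_gt with e | e
  · refine hU U x (-τ) _ α G f ρ C (h.dat hx (by simpa using hτ) (by rwa [nv_neg, hs_neg])) hH hρ ρ0
      (by rw [h.pd_dir, nv_neg, hs_neg, pd_neg_dir, neg_div]; exact neg_pos.2 e) hz
      (fun y hy a => ⟨by rw [nv_neg, dir_neg, dir_neg, (ha y hy a).1], (ha y hy a).2⟩) ?_
    rw [nv_neg, pd_neg_dir]
    exact neg_ne_zero.2 hf
  · exact hU U x τ _ α G f ρ C (h.dat hx hτ hn) hH hρ ρ0 (by rwa [h.pd_dir]) hz ha hf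

theorem wLid : LidS := rowLid rowJac
theorem wLl : LlS := rowLl wLid rowSeg
theorem wEk : EkS := rowEk wLl (rowK2 (rowK2a (rowK1 rowJac))) rowK2p (rowK3 wLid rowSeg)
theorem wVt : VtS := rowVt (rowUt rowImp rowLeg (rowCt wLl rowHt))
theorem wVk : VkS := rowVk (rowUk rowLeg (rowCk wEk rowHk))

end Pool.Agent.MP_ed9623_an.U81
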