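import Pool.Agent.MP_ed9623_an.U81.Spec

/-! Small tools. -/

open MeasureTheory Filter Topology Set
open scoped ContDiff

namespace Pool.Agent.MP_ed9623_an.U81

open H64 H77

variable {O O' K : Set P} {u w u' w' m φ g g' : P → ℝ} {e : P} {d d' : Fin 2 → P → ℝ}

theorem ind_on (O : Set P) (u : P → ℝ) : ∀ᵐ p, p ∈ O → u p = O.indicator u p :=
  Eventually.of_forall fun _ hp => (indicator_of_mem hp u).symm

theorem ind_on' (O : Set P) (u : P → ℝ) : ∀ᵐ p, p ∈ O → O.indicator u p = u p :=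
  Eventually.of_forall fun _ hp => indicator_of_mem hp u

theorem ML.of_m2 (h : M2 u) (hO : MeasurableSet O) : ML O u := h.ind hO

theorem ML.congr (h : ML O u) (hw : ∀ᵐ p, p ∈ O → u p = w p) : ML O w :=
  M2.congr h (hw.mono fun p hp => by
    by_cases a : p ∈ O
    · simp [a, hp a]
    · simp [a])

theorem ML.mono (h : ML O u) (hO : MeasurableSet O') (hs : O' ⊆ O) : ML O' u :=
  (ML.of_m2 h hO).congr (Eventually.of_forall fun _ hp => indicator_of_mem (hs hp) u)

theorem ML.add (h : ML O u) (h' : ML O w) : ML O fun p => u p + w p :=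
  (M2.add h h').congr (Eventually.of_forall fun p => by by_cases a : p ∈ O <;> simp [a])

theorem ML.sub (h : ML O u) (h' : ML O w) : ML O fun p => u p - w p :=
  (M2.sub h h').congr (Eventually.of_forall fun p => by by_cases a : p ∈ O <;> simp [a])

theorem ML.neg (h : ML O u) : ML O fun p => -u p :=
  (M2.neg h).congr (Eventually.of_forall fun p => by by_cases a : p ∈ O <;> simp [a])

theorem ML.cmul (h : ML O u) (c : ℝ) : ML O fun p => c * u p :=
  (M2.cmul h c).congr (Eventually.of_forall fun p => by by_cases a : p ∈ O <;> simp [a])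

theorem meas_ind (hO : MeasurableSet O) (hm : ContinuousOn m O) :
    AEStronglyMeasurable (O.indicator m) volume :=
  (aestronglyMeasurable_indicator_iff hO).2 (hm.aestronglyMeasurable hO)

/-- Multiplication by a bounded continuous function. -/
theorem ML.bmul (h : ML O u) (hO : MeasurableSet O) (hm : ContinuousOn m O) {C : ℝ}
    (hC : ∀ p ∈ O, |m p| ≤ C) : ML O fun p => m p * u p := by
  refine (M2.bmul h (meas_ind hO hm) (C := |C|) (Eventually.of_forall fun p => ?_)).congr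
    (Eventually.of_forall fun p => by by_cases a : p ∈ O <;> simp [a])
  by_cases a : p ∈ O
  · rw [indicator_of_mem a]; exact (hC p a).trans (le_abs_self C)
  · simp [a]

theorem ML.one (hO : MeasurableSet O) (hb : Bornology.IsBounded O) : ML O fun _ => 1 :=
  memLp_indicator_const 2 hO 1 (Or.inr hb.measure_lt_top.ne)

/-- Bounded continuous functions on bounded sets. -/
theorem ML.of_bd (hO : MeasurableSet O) (hb : Bornology.IsBounded O) (hm : ContinuousOn m O)
    {C : ℝ} (hC : ∀ p ∈ O, |m p| ≤ C) : ML O m := by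
  simpa using (ML.one hO hb).bmul hO hm hC

theorem bd_on (hb : Bornology.IsBounded O) (hm : Continuous m) :
    ∃ C, 0 ≤ C ∧ ∀ p ∈ O, |m p| ≤ C := by
  obtain ⟨C, hC⟩ := hb.isCompact_closure.exists_bound_of_continuousOn hm.continuousOn
  exact ⟨|C|, abs_nonneg C, fun p hp => (hC p (subset_closure hp)).trans (le_abs_self C)⟩

theorem ML.of_ct (hO : MeasurableSet O) (hb : Bornology.IsBounded O) (hm : Continuous m) :
    ML O m := by
  obtain ⟨C, -, hC⟩ := bd_on hb hm
  exact ML.of_bd hO hb hm.continuousOn hC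

theorem ML.ctmul (h : ML O u) (hO : MeasurableSet O) (hb : Bornology.IsBounded O)
    (hm : Continuous m) : ML O fun p => m p * u p := by
  obtain ⟨C, -, hC⟩ := bd_on hb hm
  exact h.bmul hO hm.continuousOn hC

theorem bdd_Bx (a b c d : ℝ) : Bornology.IsBounded (Bx a b c d) :=
  (Metric.isBounded_Ioo a b).prod (Metric.isBounded_Ioo c d)

theorem bdd_Q (r : ℝ) : Bornology.IsBounded (Q r) := bdd_Bx _ _ _ _

theorem bdd_Qp (σ r : ℝ) : Bornology.IsBounded (Qp σ r) := (bdd_Q r).subset (Qp_sub σ r)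

theorem mem_Qp {r : ℝ} {p : P} : p ∈ Qp 0 r ↔ |p.1| < r ∧ 0 < p.2 ∧ p.2 < r := by
  constructor
  · rintro ⟨h, h'⟩
    exact ⟨(mem_Q.1 h).1, h', (mem_Bx.1 h).2.2⟩
  · rintro ⟨a, b, c⟩
    exact ⟨mem_Q.2 ⟨a, by rwa [abs_of_pos b]⟩, b⟩

theorem Qp_x {r : ℝ} {p : P} (h : p ∈ Qp 0 r) : p.2 ∈ Ioo 0 r := (mem_Qp.1 h).2

theorem WD.ind (h : WD O e u u') : WD O e (O.indicator u) (O.indicator u') :=
  h.congr (ind_on O u) (ind_on O u')

theorem WD.of_ind (h : WD O e (O.indicator u) (O.indicator u')) : WD O e u u' :=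
  h.congr (ind_on' O u) (ind_on' O u')

theorem WD.addL (h : WD O e u u') (h' : WD O e w w') (hu : ML O u) (hu' : ML O u') (hw : ML O w)
    (hw' : ML O w') : WD O e (fun p => u p + w p) fun p => u' p + w' p :=
  ((WD.ind h).add (WD.ind h') hu hu' hw hw').congr
    (Eventually.of_forall fun p hp => by simp [hp]) (Eventually.of_forall fun p hp => by simp [hp])

theorem WD.mulL (hO : IsOpen O) (h : WD O e u u') (h' : WD O e w w') (hu : ML O u) (hu' : ML O u')
    (hw : ML O w) (hw' : ML O w') :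
    WD O e (fun p => u p * w p) fun p => u' p * w p + u p * w' p :=
  (wPrd.1 O e _ _ _ _ hO hu hu' hw hw' (WD.ind h) (WD.ind h')).congr
    (Eventually.of_forall fun p hp => by simp [hp]) (Eventually.of_forall fun p hp => by simp [hp])

theorem W1.mono (h : W1 O u d) (hO : MeasurableSet O') (hs : O' ⊆ O) : W1 O' u d :=
  ⟨h.1.mono hO hs, fun i => ⟨(h.2 i).1.mono hO hs, (h.2 i).2.mono hs⟩⟩

theorem W1.congr (h : W1 O u d) (hw : ∀ᵐ p, p ∈ O → u p = w p)
    (hd : ∀ i, ∀ᵐ p, p ∈ O → d i p = d' i p) : W1 O w d' :=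
  ⟨h.1.congr hw, fun i => ⟨(h.2 i).1.congr (hd i), (h.2 i).2.congr hw (hd i)⟩⟩

theorem W1.add (h : W1 O u d) (h' : W1 O w d') :
    W1 O (fun p => u p + w p) fun i p => d i p + d' i p :=
  ⟨h.1.add h'.1, fun i => ⟨(h.2 i).1.add (h'.2 i).1,
    WD.addL (h.2 i).2 (h'.2 i).2 h.1 (h.2 i).1 h'.1 (h'.2 i).1⟩⟩

theorem W1.cmul (h : W1 O u d) (c : ℝ) : W1 O (fun p => c * u p) fun i p => c * d i p :=
  ⟨h.1.cmul c, fun i => ⟨(h.2 i).1.cmul c, (h.2 i).2.cmul c⟩⟩

theorem W1.neg (h : W1 O u d) : W1 O (fun p => -u p) fun i p => -d i p := by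
  simpa using h.cmul (-1)

theorem W1.sub (h : W1 O u d) (h' : W1 O w d') :
    W1 O (fun p => u p - w p) fun i p => d i p - d' i p := by
  simpa only [sub_eq_add_neg] using h.add h'.neg

/-! ### Functions of class `C¹` -/

theorem C1.da (h : C1 u) (p : P) : DifferentiableAt ℝ u p := cdg_diff h le_rfl p

theorem C1.hd (h : C1 u) (e p : P) : HD e p u (pd e u p) := HD.of_diff (h.da p)

theorem C1.cp (h : C1 u) (e : P) : Continuous (pd e u) := (contDiff_pd (n := 0) e h).continuous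

theorem Test.c1 (h : Test O φ) : C1 φ := contDiff_infty.1 h.1 1

theorem ee0 : ee 0 = ((1, 0) : P) := rfl

theorem ee1 : ee 1 = ((0, 1) : P) := rfl

theorem hasDeriv0 {p : P} (h : DifferentiableAt ℝ u p) :
    HasDerivAt (fun t => u (t, p.2)) (d0 u p) p.1 := by
  have a : HasDerivAt (fun t : ℝ => ((t, p.2) : P)) (ee 0) p.1 :=
    (hasDerivAt_id p.1).prodMk (hasDerivAt_const p.1 p.2)
  exact h.hasFDerivAt.comp_hasDerivAt p.1 a

theorem hasDeriv1 {p : P} (h : DifferentiableAt ℝ u p) :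
    HasDerivAt (fun t => u (p.1, t)) (d1 u p) p.2 := by
  have a : HasDerivAt (fun t : ℝ => ((p.1, t) : P)) (ee 1) p.2 :=
    (hasDerivAt_const p.2 p.1).prodMk (hasDerivAt_id p.2)
  exact h.hasFDerivAt.comp_hasDerivAt p.2 a

theorem C1.s0 (h : C1 u) (s x : ℝ) : HasDerivAt (fun t => u (t, x)) (d0 u (s, x)) s :=
  hasDeriv0 (h.da (s, x))

theorem C1.s1 (h : C1 u) (s x : ℝ) : HasDerivAt (fun t => u (s, t)) (d1 u (s, x)) x :=
  hasDeriv1 (h.da (s, x))

theorem HD_x0 (v : ℝ → ℝ) (p : P) : HD (ee 0) p (fun p => v p.2) 0 := by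
  simpa [HD, ee] using hasDerivAt_const (0 : ℝ) (v p.2)

theorem HD_x1 {v : ℝ → ℝ} {v' : ℝ} {p : P} (h : HasDerivAt v v' p.2) :
    HD (ee 1) p (fun p => v p.2) v' := by
  have h' : HasDerivAt v v' (p.2 + 0) := by rwa [add_zero]
  simpa [HD, ee, Function.comp_def] using
    h'.comp (0 : ℝ) ((hasDerivAt_id (0 : ℝ)).const_add p.2)

theorem HD_s1 (v : ℝ → ℝ) (p : P) : HD (ee 1) p (fun p => v p.1) 0 := by
  simpa [HD, ee] using hasDerivAt_const (0 : ℝ) (v p.1)

theorem HD_s0 {v : ℝ → ℝ} {v' : ℝ} {p : P} (h : HasDerivAt v v' p.1) :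
    HD (ee 0) p (fun p => v p.1) v' := by
  have h' : HasDerivAt v v' (p.1 + 0) := by rwa [add_zero]
  simpa [HD, ee, Function.comp_def] using
    h'.comp (0 : ℝ) ((hasDerivAt_id (0 : ℝ)).const_add p.1)

theorem HD.comp {p : P} {a b : ℝ} {F : ℝ → ℝ} (hF : HasDerivAt F a (u p)) (h : HD e p u b) :
    HD e p (fun y => F (u y)) (a * b) := by
  have hF' : HasDerivAt F a ((fun s : ℝ => u (p + s • e)) 0) := by simpa using hF
  exact HasDerivAt.comp (0 : ℝ) hF' h

theorem off_nhds (hK : IsClosed K) (h : ∀ p, p ∉ K → u p = 0) {p : P} (hp : p ∉ K) :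
    u =ᶠ[𝓝 p] fun _ => 0 :=
  mem_of_superset (hK.isOpen_compl.mem_nhds hp) fun y hy => h y hy

theorem pd_off (hK : IsClosed K) (h : ∀ p, p ∉ K → u p = 0) (e : P) {p : P} (hp : p ∉ K) :
    pd e u p = 0 := by
  rw [pd_congr_pt e (off_nhds hK h hp), pd_const]

theorem cs_of_off (hK : IsCompact K) (h : ∀ p, p ∉ K → u p = 0) : HasCompactSupport u :=
  HasCompactSupport.intro hK h

theorem ts_of_off (hK : IsClosed K) (h : ∀ p, p ∉ K → u p = 0) : tsupport u ⊆ K :=
  closure_minimal (fun p hp => by by_contra a; exact hp (h p a)) hK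

theorem c1_of_on (hK : IsClosed K) (h : ∀ p ∈ K, ContDiffAt ℝ (1 : ℕ) u p)
    (h0 : ∀ p, p ∉ K → u p = 0) : C1 u :=
  contDiff_iff_contDiffAt.2 fun p => by
    by_cases a : p ∈ K
    · exact h p a
    · exact contDiffAt_const.congr_of_eventuallyEq (off_nhds hK h0 a)

theorem ct_of_on (hK : IsClosed K) (h : ∀ p ∈ K, ContinuousAt u p)
    (h0 : ∀ p, p ∉ K → u p = 0) : Continuous u :=
  continuous_iff_continuousAt.2 fun p => by
    by_cases a : p ∈ K
    · exact h p a
    · exact continuousAt_const.congr (off_nhds hK h0 a).symm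

theorem int_of_on (hK : IsCompact K) (h : ContinuousOn u K) (h0 : ∀ p, p ∉ K → u p = 0) :
    Integrable u :=
  (h.integrableOn_compact hK).integrable_of_forall_notMem_eq_zero h0

theorem m2_of_on (hK : IsCompact K) (h : ContinuousOn u K) (h0 : ∀ p, p ∉ K → u p = 0) : M2 u := by
  obtain ⟨C, hC⟩ := hK.exists_bound_of_continuousOn h
  refine M2.congr (ML.of_bd hK.measurableSet hK.isBounded h hC) (Eventually.of_forall fun p => ?_)
  by_cases a : p ∈ K
  · simp [a]
  · simp [a, h0 p a]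

/-- The product of a function in `L²(O)` and a continuous function with compact support. -/
theorem ML.int_on (hu : ML O u) (hK : IsCompact K) (hs : K ⊆ O) (h : ContinuousOn m K)
    (h0 : ∀ p, p ∉ K → m p = 0) : Integrable fun p => u p * m p := by
  refine (M2.int_mul hu (m2_of_on hK h h0)).congr (Eventually.of_forall fun p => ?_)
  by_cases a : p ∈ K
  · simp [hs a]
  · simp [h0 p a]

/-- Test functions of class `C¹`. -/
theorem tst (hO : IsOpen O) (hg : ML O g) (hg' : ML O g') (h : WD O e g g') (hφ : C1 φ)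
    (hK : IsCompact K) (hs : K ⊆ O) (h0 : ∀ p, p ∉ K → φ p = 0) :
    ∫ p, g p * pd e φ p = -∫ p, g' p * φ p := by
  obtain ⟨χ, hχ, -, h1⟩ := exists_cut hK hO hs
  have hd := fun p hp => pd_off hK.isClosed h0 e (p := p) hp
  have a := WD.mulL hO h (WD.of_cd hφ O e) hg hg'
    (ML.of_m2 (m2_of_on hK hφ.continuous.continuousOn h0) hO.measurableSet)
    (ML.of_m2 (m2_of_on hK (hφ.cp e).continuousOn hd) hO.measurableSet) χ hχ
  have e1 : (fun p => g p * φ p * pd e χ p) = fun _ => 0 := funext fun p => by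
    by_cases hp : p ∈ K
    · rw [pd_congr_pt e (h1.filter_mono (nhds_le_nhdsSet hp)), pd_const, mul_zero]
    · rw [h0 p hp, mul_zero, zero_mul]
  have e2 : (fun p => (g' p * φ p + g p * pd e φ p) * χ p)
      = fun p => g' p * φ p + g p * pd e φ p := funext fun p => by
    by_cases hp : p ∈ K
    · rw [(h1.filter_mono (nhds_le_nhdsSet hp)).self_of_nhds, mul_one]
    · rw [h0 p hp, hd p hp]; ring
  rw [e1, e2, integral_add (hg'.int_on hK hs hφ.continuous.continuousOn h0)
    (hg.int_on hK hs (hφ.cp e).continuousOn hd), integral_zero] at a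
  linarith

/-- Product with a function of class `C¹` on `O`. -/
theorem WD.mulOn (hO : IsOpen O) (hg : ML O g) (hg' : ML O g') (h : WD O e g g')
    (hu : ∀ p ∈ O, ContDiffAt ℝ (1 : ℕ) u p) :
    WD O e (fun p => u p * g p) fun p => u p * g' p + pd e u p * g p := fun φ hφ => by
  have hK : IsCompact (tsupport φ) := hφ.2.1
  have z : ∀ p, p ∉ tsupport φ → φ p = 0 := fun p hp => image_eq_zero_of_notMem_tsupport hp
  have zd := fun p hp => pd_off hK.isClosed z e (p := p) hp
  have z1 : ∀ p, p ∉ tsupport φ → u p * φ p = 0 := fun p hp => by rw [z p hp, mul_zero]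
  have cu : ContinuousOn u (tsupport φ) := fun p hp =>
    (hu p (hφ.2.2 hp)).continuousAt.continuousWithinAt
  have cd : ContinuousOn (pd e u) (tsupport φ) := fun p hp =>
    (contDiffAt_pd (n := 0) e (hu p (hφ.2.2 hp))).continuousAt.continuousWithinAt
  have a := tst hO hg hg' h (φ := fun p => u p * φ p) (c1_of_on hK.isClosed
    (fun p hp => (hu p (hφ.2.2 hp)).mul (Test.c1 hφ).contDiffAt) z1) hK hφ.2.2 z1
  have e1 : (fun p => g p * pd e (fun p => u p * φ p) p)
      = fun p => g p * (pd e u p * φ p) + g p * (u p * pd e φ p) := funext fun p => by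
    by_cases hp : p ∈ tsupport φ
    · rw [pd_mul e (cd_diff (hu p (hφ.2.2 hp)) le_rfl) (sm_diff hφ.1 p)]; ring
    · rw [pd_off hK.isClosed z1 e hp, z p hp, zd p hp]; ring
  have i1 := hg.int_on hK hφ.2.2 (cd.mul hφ.ct.continuousOn) (m := fun p => pd e u p * φ p)
    fun p hp => by rw [z p hp, mul_zero]
  have i2 := hg.int_on hK hφ.2.2 (cu.mul (hφ.pd e).ct.continuousOn)
    (m := fun p => u p * pd e φ p) fun p hp => by rw [zd p hp, mul_zero]
  have i3 := hg'.int_on hK hφ.2.2 (cu.mul hφ.ct.continuousOn) (m := fun p => u p * φ p) z1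
  have e2 : (fun p => (u p * g' p + pd e u p * g p) * φ p)
      = fun p => g' p * (u p * φ p) + g p * (pd e u p * φ p) := funext fun p => by ring
  have e3 : (fun p => u p * g p * pd e φ p) = fun p => g p * (u p * pd e φ p) :=
    funext fun p => by ring
  rw [e1, integral_add i1 i2] at a
  rw [e2, e3, integral_add i3 i1]
  linarith

/-- A continuous function with a continuous line derivative. -/
theorem WD.of_HD (hu : ContinuousOn u O) (hu' : ContinuousOn u' O)
    (h : ∀ p ∈ O, HD e p u (u' p)) : WD O e u u' := fun φ hφ => by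
  have hK : IsCompact (tsupport φ) := hφ.2.1
  have z : ∀ p, p ∉ tsupport φ → φ p = 0 := fun p hp => image_eq_zero_of_notMem_tsupport hp
  have zd := fun p hp => pd_off hK.isClosed z e (p := p) hp
  have z1 : ∀ p, p ∉ tsupport φ → u p * φ p = 0 := fun p hp => by rw [z p hp, mul_zero]
  have i1 := int_of_on hK ((hu'.mono hφ.2.2).mul hφ.ct.continuousOn) (u := fun p => u' p * φ p)
    fun p hp => by rw [z p hp, mul_zero]
  have i2 := int_of_on hK ((hu.mono hφ.2.2).mul (hφ.pd e).ct.continuousOn)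
    (u := fun p => u p * pd e φ p) fun p hp => by rw [zd p hp, mul_zero]
  have a := integral_HD_eq_zero volume e (F := fun p => u p * φ p)
    (int_of_on hK ((hu.mono hφ.2.2).mul hφ.ct.continuousOn) z1) (i1.add i2) fun p => by
      by_cases hp : p ∈ tsupport φ
      · exact (h p (hφ.2.2 hp)).mul (HD.of_diff (sm_diff hφ.1 p))
      · have b : HD e p (fun p => u p * φ p) (pd e (fun p => u p * φ p) p) :=
          HD.of_diff ((differentiableAt_const 0).congr_of_eventuallyEq (off_nhds hK.isClosed z1 hp))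
        refine b.congr ?_
        rw [pd_off hK.isClosed z1 e hp]
        simp [z p hp, zd p hp]
  rw [integral_add' i1 i2] at a
  linarith

/-- A line derivative of a compactly supported function has integral zero. -/
theorem int_HD_on (hK : IsCompact K) (hu : ContinuousOn u K) (hu' : ContinuousOn u' K)
    (h : ∀ p ∈ K, HD e p u (u' p)) (h0 : ∀ p, p ∉ K → u p = 0 ∧ u' p = 0) : ∫ p, u' p = 0 :=
  integral_HD_eq_zero volume e (int_of_on hK hu fun p hp => (h0 p hp).1)
    (int_of_on hK hu' fun p hp => (h0 p hp).2) fun p => by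
      by_cases hp : p ∈ K
      · exact h p hp
      · have z := fun p hp => (h0 p hp).1
        refine (HD.of_diff (e := e) ((differentiableAt_const 0).congr_of_eventuallyEq
          (off_nhds hK.isClosed z hp))).congr ?_
        rw [pd_off hK.isClosed z e hp, (h0 p hp).2]

/-! ### Cut-off functions of one variable -/

theorem exists_bump {a a' b' b : ℝ} (h : a < a') (h' : b' < b) : ∃ (β : ℝ → ℝ) (M : ℝ),
    ContDiff ℝ ∞ β ∧ HasCompactSupport β ∧ tsupport β ⊆ Ioo a b ∧ (∀ t, 0 ≤ β t ∧ β t ≤ 1) ∧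
    (∀ t ∈ Icc a' b', β t = 1) ∧ (∀ t ∈ Icc a' b', deriv β t = 0) ∧ 0 ≤ M ∧
    ∀ t, |deriv β t| ≤ M := by
  obtain ⟨K', hK', h1, h2⟩ := exists_compact_between (isCompact_Icc (a := a') (b := b'))
    isOpen_Ioo (Icc_subset_Ioo h h')
  obtain ⟨K'', hK'', h3, h4⟩ := exists_compact_between hK' isOpen_Ioo h2
  obtain ⟨f, f0, f1, f2⟩ := exists_contMDiffMap_zero_one_of_isClosed (n := ⊤)
    (modelWithCornersSelf ℝ ℝ) (isOpen_interior (s := K'')).isClosed_compl hK'.isClosed
    (disjoint_compl_left_iff_subset.2 h3)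
  have hs : tsupport f ⊆ K'' := closure_minimal (fun x hx => by
    by_contra h5
    exact hx (f0 fun h6 => h5 (interior_subset h6))) hK''.isClosed
  have sm : ContDiff ℝ ∞ f := f.contMDiff.contDiff
  have cs : HasCompactSupport f := hK''.of_isClosed_subset (isClosed_tsupport _) hs
  obtain ⟨M, M0, hM⟩ := (Gam.deriv ⟨sm, cs⟩).bd
  refine ⟨f, M, sm, cs, hs.trans h4, fun x => f2 x, fun t ht => f1 (interior_subset (h1 ht)),
    fun t ht => ?_, M0, hM⟩
  have : (f : ℝ → ℝ) =ᶠ[𝓝 t] fun _ => 1 :=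
    mem_of_superset (isOpen_interior.mem_nhds (h1 ht)) fun x hx => f1 (interior_subset hx)
  rw [this.deriv_eq, deriv_const]

/-- A cut-off function with a lower transition at every small scale. -/
theorem exists_scaled : ∃ M : ℝ, 0 ≤ M ∧ ∀ ε : ℝ, 0 < ε → ∃ η : ℝ → ℝ, ContDiff ℝ ∞ η ∧
    (∀ t, 0 ≤ η t ∧ η t ≤ 1) ∧ (∀ t, t ≤ ε → η t = 0) ∧ (∀ t, 2 * ε ≤ t → η t = 1) ∧
    (∀ t, 2 * ε < t → deriv η t = 0) ∧ ∀ t, |deriv η t| ≤ M / ε := by
  have sm : ContDiff ℝ ∞ Real.smoothTransition := Real.smoothTransition.contDiff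
  have dz : ∀ t, t ∉ Icc (0 : ℝ) 1 → deriv Real.smoothTransition t = 0 := fun t ht => by
    rcases not_and_or.1 ht with a | a
    · have : Real.smoothTransition =ᶠ[𝓝 t] fun _ => 0 :=
        mem_of_superset (Iio_mem_nhds (not_le.1 a)) fun x hx =>
          Real.smoothTransition.zero_of_nonpos (le_of_lt hx)
      rw [this.deriv_eq, deriv_const]
    · have : Real.smoothTransition =ᶠ[𝓝 t] fun _ => 1 :=
        mem_of_superset (Ioi_mem_nhds (not_le.1 a)) fun x hx =>
          Real.smoothTransition.one_of_one_le (le_of_lt hx)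
      rw [this.deriv_eq, deriv_const]
  obtain ⟨M, hM⟩ := (contDiff_infty_iff_deriv.1 sm).2.continuous.bounded_above_of_compact_support
    (HasCompactSupport.intro isCompact_Icc dz)
  refine ⟨M, (norm_nonneg _).trans (hM 0), fun ε hε => ?_⟩
  have hd : ∀ t, deriv (fun t => Real.smoothTransition (t / ε - 1)) t
      = deriv Real.smoothTransition (t / ε - 1) * (1 / ε) := fun t =>
    (((sm.differentiable (by simp) _).hasDerivAt).comp t
      (((hasDerivAt_id t).div_const ε).sub_const 1)).deriv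
  refine ⟨fun t => Real.smoothTransition (t / ε - 1), sm.comp (by fun_prop),
    fun t => ⟨Real.smoothTransition.nonneg _, Real.smoothTransition.le_one _⟩, fun t ht =>
      Real.smoothTransition.zero_of_nonpos (by rw [sub_nonpos, div_le_one hε]; exact ht),
    fun t ht => Real.smoothTransition.one_of_one_le (by
      rw [le_sub_iff_add_le, le_div_iff₀ hε]; linarith), fun t ht => ?_, fun t => ?_⟩
  · rw [hd, dz, zero_mul]
    intro a
    have := a.2
    rw [sub_le_iff_le_add, div_le_iff₀ hε] at this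
    linarith
  · rw [hd, abs_mul, abs_of_pos (one_div_pos.2 hε), mul_one_div]
    exact div_le_div_of_nonneg_right (hM _) hε.le

theorem test_prod {a b c d : ℝ} {β χ : ℝ → ℝ} (h1 : ContDiff ℝ ∞ χ) (h2 : HasCompactSupport χ)
    (h3 : tsupport χ ⊆ Ioo a b) (k1 : ContDiff ℝ ∞ β) (k2 : HasCompactSupport β)
    (k3 : tsupport β ⊆ Ioo c d) : Test (Bx a b c d) fun p => χ p.1 * β p.2 := by
  have hK : IsCompact (tsupport χ ×ˢ tsupport β) := IsCompact.prod h2 k2
  have z : ∀ p : P, p ∉ tsupport χ ×ˢ tsupport β → χ p.1 * β p.2 = 0 := fun p hp => by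
    rcases not_and_or.1 hp with a | a
    · rw [image_eq_zero_of_notMem_tsupport a, zero_mul]
    · rw [image_eq_zero_of_notMem_tsupport a, mul_zero]
  exact ⟨(h1.comp contDiff_fst).mul (k1.comp contDiff_snd), cs_of_off hK z,
    (ts_of_off hK.isClosed z).trans (prod_mono h3 k3)⟩

theorem d0_prod {β χ : ℝ → ℝ} {p : P} (h : DifferentiableAt ℝ χ p.1) (k : DifferentiableAt ℝ β p.2) :
    d0 (fun p => χ p.1 * β p.2) p = deriv χ p.1 * β p.2 :=
  (((HD_s0 h.hasDerivAt).mul (HD_x0 β p)).congr (by ring)).pd_eq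
    ((h.comp p differentiableAt_fst).mul (k.comp p differentiableAt_snd))

theorem d1_prod {β χ : ℝ → ℝ} {p : P} (h : DifferentiableAt ℝ χ p.1) (k : DifferentiableAt ℝ β p.2) :
    d1 (fun p => χ p.1 * β p.2) p = χ p.1 * deriv β p.2 :=
  (((HD_s1 χ p).mul (HD_x1 k.hasDerivAt)).congr (by ring)).pd_eq
    ((h.comp p differentiableAt_fst).mul (k.comp p differentiableAt_snd))

/-! ### Approximation by smooth functions -/

theorem mol_near {ε δ c : ℝ} {k f : P → ℝ} {x : P} (hk : Ker ε k) (hf : M2 f)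
    (h : ∀ z, dist z x < ε → |f z - c| ≤ δ) : |mol k f x - c| ≤ δ := by
  have t := (hk.test.refl x).top
  have i0 : Integrable fun z => k (x - z) := t.ct.integrable_of_hasCompactSupport t.2.1
  have i1 : ∫ z, k (x - z) = 1 := by rw [integral_sub_left_eq_self k volume x, hk.2.2]
  have e1 : mol k f x - c = ∫ z, (f z - c) * k (x - z) := by
    simp only [sub_mul]
    rw [integral_sub (hf.int_mul t.m2) (i0.const_mul c), integral_const_mul, i1, mul_one, mol]
  have e2 : δ = ∫ z, δ * k (x - z) := by rw [integral_const_mul, i1, mul_one]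
  rw [e1, e2, ← Real.norm_eq_abs]
  refine norm_integral_le_of_norm_le (i0.const_mul δ) (Eventually.of_forall fun z => ?_)
  rw [Real.norm_eq_abs, abs_mul, abs_of_nonneg (hk.2.1 _)]
  by_cases a : dist z x < ε
  · exact mul_le_mul_of_nonneg_right (h z a) (hk.2.1 _)
  · rw [hk.1.off (x := x - z) (by rwa [mem_ball_zero_iff, ← dist_eq_norm, dist_comm])]
    simp

theorem ev_ball (hO : IsOpen O) (hK : IsCompact K) (hs : K ⊆ O) :
    ∀ᶠ ε in 𝓝[>] (0 : ℝ), ∀ x ∈ K, ∀ z, dist z x < ε → z ∈ O := by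
  obtain ⟨ε, h0, h⟩ := hK.exists_thickening_subset_open hO hs
  filter_upwards [Ioo_mem_nhdsGT h0] with η hη x hx z hz
  exact h (Metric.mem_thickening_iff.2 ⟨x, hx, hz.trans hη.2⟩)

theorem ev_unif (hO : IsOpen O) (hK : IsCompact K) (hs : K ⊆ O) (f : P → ℝ) {δ : ℝ} (hδ : 0 < δ) :
    ∀ᶠ ε in 𝓝[>] (0 : ℝ), ContinuousOn f O → ∀ x ∈ K, ∀ z, dist z x < ε → |f z - f x| ≤ δ := by
  by_cases hf : ContinuousOn f O
  · obtain ⟨ε, h0, h⟩ := hK.exists_cthickening_subset_open hO hs
    obtain ⟨η, η0, hη⟩ := Metric.uniformContinuousOn_iff.1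
      ((hK.cthickening (r := ε)).uniformContinuousOn_of_continuous (hf.mono h)) δ hδ
    filter_upwards [Ioo_mem_nhdsGT h0, Ioo_mem_nhdsGT η0] with t h1 h2 _ x hx z hz
    exact (hη z (Metric.mem_cthickening_of_dist_le z x ε K hx (hz.trans h1.2).le) x
      (Metric.self_subset_cthickening K hx) (hz.trans h2.2)).le
  · exact Eventually.of_forall fun _ a => absurd a hf

theorem ev_L2 {f : P → ℝ} (hf : M2 f) {δ : ℝ} (hδ : 0 < δ) :
    ∀ᶠ ε in 𝓝[>] (0 : ℝ), ∀ k, Ker ε k → nm (fun p => mol k f p - f p) ≤ δ := by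
  obtain ⟨ε, h0, h⟩ := rowMol2.2.2.2 f hf δ hδ
  filter_upwards [Ioo_mem_nhdsGT h0] with t ht k hk using h t k ht.2.le hk

/-- `v` is close to `u` on `K`, in the mean and, for continuous `u`, uniformly. -/
def Cl (O K : Set P) (δ : ℝ) (v u : P → ℝ) : Prop :=
  ML K (fun p => v p - u p) ∧ nm (K.indicator fun p => v p - u p) ≤ δ ∧
    (ContinuousOn u O → ∀ p ∈ K, |v p - u p| ≤ δ)

theorem ev_Cl (hO : IsOpen O) (hK : IsCompact K) (hs : K ⊆ O) (hu : ML O u) {δ : ℝ} (hδ : 0 < δ) :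
    ∀ᶠ ε in 𝓝[>] (0 : ℝ), ∀ k, Ker ε k → ∀ v : P → ℝ,
      (∀ p ∈ K, v p = mol k (O.indicator u) p) → Cl O K δ v u := by
  filter_upwards [ev_ball hO hK hs, ev_unif hO hK hs u hδ, ev_L2 hu hδ] with ε h1 h2 h3 k hk v hv
  have m := M2.sub (rowMol2.2.1 ε k _ hk hu).1 hu
  have e1 : (K.indicator fun p => v p - u p)
      = K.indicator fun p => mol k (O.indicator u) p - O.indicator u p :=
    indicator_congr fun p hp => by rw [hv p hp, indicator_of_mem (hs hp)]
  refine ⟨by rw [ML, e1]; exact m.ind hK.measurableSet,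
    by rw [e1]; exact (nm_ind_le m K).trans (h3 k hk), fun hc p hp => ?_⟩
  rw [hv p hp]
  exact mol_near hk hu fun z hz => by
    rw [indicator_of_mem (h1 p hp z hz)]; exact h2 hc p hp z hz

theorem approx (hO : IsOpen O) (hK : IsCompact K) (hs : K ⊆ O) (hu : ML O u) {e : Fin 2 → P}
    (hd : ∀ i, ML O (d i) ∧ WD O (e i) u (d i)) {δ : ℝ} (hδ : 0 < δ) :
    ∃ v, ContDiff ℝ ∞ v ∧ Cl O K δ v u ∧ ∀ i, Cl O K δ (pd (e i) v) (d i) := by
  obtain ⟨ε, ⟨⟨h1, h2⟩, h3⟩, h0⟩ := ((((ev_ball hO hK hs).and (ev_Cl hO hK hs hu hδ)).and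
    (eventually_all.2 fun i => ev_Cl hO hK hs (hd i).1 hδ)).and self_mem_nhdsWithin).exists
  obtain ⟨k, hk, -⟩ := rowMol2.1 ε _ Metric.isOpen_ball (Metric.nonempty_ball.2 h0) subset_rfl
  obtain ⟨a, b⟩ := (rowMol1 k hk.test).1 _ hu
  refine ⟨_, a, h2 k hk _ fun _ _ => rfl, fun i => h3 i k hk _ fun p hp => ?_⟩
  rw [b]
  refine mol_wd hk.test (WD.ind (hd i).2) fun z hz => h1 p hp z ?_
  have := hk.1.2.2 hz
  rwa [mem_ball_zero_iff, ← dist_eq_norm, dist_comm] at this

/-- Pairing of a close pair with a function supported in `K`. -/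
theorem Cl.pair {δ : ℝ} {v : P → ℝ} (h : Cl O K δ v u) (hm : M2 m) (h0 : ∀ p, p ∉ K → m p = 0) :
    |∫ p, (v p - u p) * m p| ≤ δ * nm m := by
  have e1 : (fun p => (v p - u p) * m p) = fun p => K.indicator (fun p => v p - u p) p * m p :=
    funext fun p => by
      by_cases a : p ∈ K
      · rw [indicator_of_mem a]
      · rw [h0 p a, mul_zero, mul_zero]
  rw [e1]
  exact (abs_int_le h.1 hm).trans (mul_le_mul_of_nonneg_right h.2.1 (nm_nonneg _))

theorem eq_zero_of_small {a C : ℝ} (h : ∀ δ : ℝ, 0 < δ → δ ≤ 1 → |a| ≤ δ * C) : a = 0 := by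
  have t : Tendsto (fun δ : ℝ => δ * C) (𝓝[>] 0) (𝓝 0) := by
    have : Tendsto (fun δ : ℝ => δ * C) (𝓝 0) (𝓝 (0 * C)) := (continuous_id.mul continuous_const).tendsto 0
    rw [zero_mul] at this
    exact this.mono_left nhdsWithin_le_nhds
  refine abs_nonpos_iff.1 (ge_of_tendsto t ?_)
  filter_upwards [Ioo_mem_nhdsGT zero_lt_one] with δ hδ using h δ hδ.1 hδ.2.le

end Pool.Agent.MP_ed9623_an.U81
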