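import Pool.Agent.MP_ed9623_an.U81.Base

/-! Local inverses: level curves as graphs, and the partial Legendre chart. -/

open MeasureTheory Filter Topology Set
open scoped ContDiff

namespace Pool.Agent.MP_ed9623_an.U81

open H64 H77

theorem Q_nhds {r : ℝ} (h : 0 < r) : Q r ∈ 𝓝 (0 : P) := Q_eq_ball r ▸ Metric.ball_mem_nhds 0 h

theorem ev_Q {S : P → Prop} (h : ∀ᶠ p in 𝓝 (0 : P), S p) : ∃ r, 0 < r ∧ ∀ p ∈ Q r, S p := by
  obtain ⟨r, a, b⟩ := Metric.mem_nhds_iff.1 h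
  exact ⟨r, a, fun p hp => b (Q_eq_ball r ▸ hp)⟩

theorem pd_frame (u : P → ℝ) (p v : P) : pd v u p = v.1 * d0 u p + v.2 * d1 u p := by
  have : v = v.1 • ee 0 + v.2 • ee 1 := by ext <;> simp [ee]
  conv_lhs => rw [this]
  rw [pd_add_dir, pd_smul_dir, pd_smul_dir]

/-- A local inverse which is of class `C¹` on the whole plane. -/
theorem loc_inv {Ψ : P → P} {x : P} {U : Set P} (h : ContDiff ℝ (1 : ℕ) Ψ) (h0 : Ψ x = 0)
    (hi : ∀ v, fderiv ℝ Ψ x v = 0 → v = 0) (hU : U ∈ 𝓝 x) : ∃ (Θ : P → P) (r : ℝ), 0 < r ∧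
    ContDiff ℝ (1 : ℕ) Θ ∧ Θ 0 = x ∧ (∀ r', 0 < r' → Θ '' Q r' ∈ 𝓝 x) ∧ ∀ p ∈ Q r, Θ p ∈ U ∧
      Ψ (Θ p) = p ∧ ∀ v, fderiv ℝ Ψ (Θ p) (fderiv ℝ Θ p v) = v := by
  let D : P ≃L[ℝ] P := (LinearEquiv.ofInjectiveEndo (fderiv ℝ Ψ x : P →ₗ[ℝ] P)
    ((injective_iff_map_eq_zero _).2 hi)).toContinuousLinearEquiv
  have hD : HasFDerivAt Ψ (D : P →L[ℝ] P) x := (h.differentiable (by simp) x).hasFDerivAt
  have hc : ContDiffAt ℝ (1 : ℕ) Ψ x := h.contDiffAt
  have n0 : ((1 : ℕ) : WithTop ℕ∞) ≠ 0 := by simp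
  have hs := hc.hasStrictFDerivAt' hD n0
  have a1 := hc.to_localInverse hD n0
  have a2 := hc.localInverse_apply_image hD n0
  have a3 : ∀ᶠ y in 𝓝 (Ψ x), Ψ (hc.localInverse hD n0 y) = y := hs.eventually_right_inverse
  have a4 : ∀ᶠ y in 𝓝 x, hc.localInverse hD n0 (Ψ y) = y := hs.eventually_left_inverse
  generalize hc.localInverse hD n0 = T at a1 a2 a3 a4
  rw [h0] at a1 a2 a3
  obtain ⟨R, R0, hR⟩ := ev_Q (((a1.eventually (by simp)).and a3).and
    (a1.continuousAt.eventually_mem (a2.symm ▸ hU)))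
  have sub : Metric.closedBall (0 : P) (R / 2) ⊆ Q R :=
    Q_eq_ball R ▸ Metric.closedBall_subset_ball (half_lt_self R0)
  obtain ⟨χ, hχ, -, h1⟩ := exists_cut (isCompact_closedBall (0 : P) (R / 2)) (isOpen_Q R) sub
  have sq : Q (R / 2) ⊆ Metric.closedBall (0 : P) (R / 2) :=
    Q_eq_ball (R / 2) ▸ Metric.ball_subset_closedBall
  have e : ∀ p ∈ Q (R / 2), χ p • T p = T p := fun p hp => by
    rw [h1.self_of_nhdsSet p (sq hp), one_smul]
  have cd : ContDiff ℝ (1 : ℕ) fun p => χ p • T p := contDiff_iff_contDiffAt.2 fun p => by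
    by_cases a : p ∈ tsupport χ
    · exact (Test.c1 hχ).contDiffAt.smul (hR p (hχ.2.2 a)).1.1
    · refine contDiffAt_const (c := (0 : P)).congr_of_eventuallyEq ?_
      filter_upwards [notMem_tsupport_iff_eventuallyEq.1 a] with y hy
      rw [hy, Pi.zero_apply, zero_smul]
  have z : (0 : P) ∈ Q (R / 2) := mem_of_mem_nhds (Q_nhds (half_pos R0))
  refine ⟨fun p => χ p • T p, R / 2, half_pos R0, cd, (e 0 z).trans a2, fun r' r0 => ?_,
    fun p hp => ⟨(congrArg (· ∈ U) (e p hp)).mpr (hR p (sub (sq hp))).2, (congrArg Ψ (e p hp)).trans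
      (hR p (sub (sq hp))).1.2, fun v => ?_⟩⟩
  · filter_upwards [a4, h.continuous.continuousAt.eventually_mem
      (h0.symm ▸ inter_mem (Q_nhds r0) (Q_nhds (half_pos R0)))] with y h1 h2
    exact ⟨Ψ y, h2.1, (e _ h2.2).trans h1⟩
  · have b : (Ψ ∘ fun p => χ p • T p) =ᶠ[𝓝 p] id :=
      mem_of_superset ((isOpen_Q _).mem_nhds hp) fun y hy =>
        (congrArg Ψ (e y hy)).trans (hR y (sub (sq hy))).1.2
    have c := b.fderiv_eq (𝕜 := ℝ)
    rw [fderiv_comp p (h.differentiable (by simp) _) (cd.differentiable (by simp) p), fderiv_id] at c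
    exact DFunLike.congr_fun c v

theorem fderiv_pair {u w : P → ℝ} (hu : C1 u) (hw : C1 w) (p v : P) :
    fderiv ℝ (fun y => ((u y, w y) : P)) p v = (pd v u p, pd v w p) := by
  rw [DifferentiableAt.fderiv_prodMk (hu.da p) (hw.da p)]; rfl

theorem pd_fst (p v : P) : pd v (fun y : P => y.1) p = v.1 := by
  simp [pd, fderiv_fst]

theorem pd_snd' (p v : P) : pd v (fun y : P => y.2) p = v.2 := by
  simp [pd, fderiv_snd]

theorem mono0 {u : P → ℝ} {r a b x : ℝ} (hu : C1 u) (h : ∀ p ∈ Q r, 0 < d0 u p)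
    (ha : (a, x) ∈ Q r) (hb : (b, x) ∈ Q r) (hab : a < b) : u (a, x) < u (b, x) :=
  strictMonoOn_of_deriv_pos (convex_Ioo (-r) r) (f := fun t => u (t, x))
    (hu.continuous.comp (by fun_prop)).continuousOn
    (fun t ht => by
      rw [(hu.s0 t x).deriv]; exact h _ ⟨interior_subset ht, ha.2⟩) ha.1 hb.1 hab

theorem mono1 {u : P → ℝ} {r a b s : ℝ} (hu : C1 u) (h : ∀ p ∈ Q r, 0 < d1 u p)
    (ha : (s, a) ∈ Q r) (hb : (s, b) ∈ Q r) (hab : a < b) : u (s, a) < u (s, b) :=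
  strictMonoOn_of_deriv_pos (convex_Ioo (-r) r) (f := fun t => u (s, t))
    (hu.continuous.comp (by fun_prop)).continuousOn
    (fun t ht => by
      rw [(hu.s1 s t).deriv]; exact h _ ⟨ha.1, interior_subset ht⟩) ha.2 hb.2 hab

theorem rowImp : OfImp := by
  intro ρ hρ h0 hp
  obtain ⟨Θ, r, r0, cd, e0, -, h⟩ := loc_inv (Ψ := fun y => (ρ y, y.2)) (x := 0) (U := univ)
    (hρ.prodMk contDiff_snd) (by simp [h0]) (fun v hv => by
      rw [fderiv_pair hρ contDiff_snd, pd_snd', pd_frame, Prod.mk_eq_zero] at hv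
      obtain ⟨a, b⟩ := hv
      rw [b, zero_mul, add_zero] at a
      exact Prod.ext ((mul_eq_zero.1 a).resolve_right hp.ne') b) univ_mem
  have cγ : ContDiff ℝ (1 : ℕ) fun x : ℝ => (Θ (0, x)).1 :=
    contDiff_fst.comp (cd.comp (contDiff_const.prodMk contDiff_id))
  have γ0 : (Θ (0, 0)).1 = 0 := congrArg Prod.fst e0
  obtain ⟨r₁, r1, h1⟩ := ev_Q ((hρ.cp (ee 0)).continuousAt.eventually_const_lt hp)
  obtain ⟨r₂, r2, h2⟩ := ev_Q (S := fun p => |(Θ (0, p.2)).1| < r₁)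
    ((cγ.continuous.comp continuous_snd).abs.continuousAt.eventually_lt_const (by simpa [γ0]))
  have z : ∀ x, |x| < r → ρ ((Θ (0, x)).1, x) = 0 := fun x hx => by
    have a := (h (0, x) (mem_Q.2 ⟨by simpa using r0, hx⟩)).2.1
    rw [Prod.mk.injEq] at a
    exact (congrArg ρ (Prod.ext rfl a.2.symm : ((Θ (0, x)).1, x) = Θ (0, x))).trans a.1
  refine ⟨_, min r (min r₁ r₂), by positivity, cγ, γ0, ?_, fun p hp => ?_⟩
  · have a := (h 0 (mem_of_mem_nhds (Q_nhds r0))).2.2 (ee 1)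
    rw [fderiv_pair hρ contDiff_snd, pd_snd', pd_frame, e0, ee1, Prod.mk.injEq] at a
    have b : HasDerivAt (fun x : ℝ => (Θ (0, x)).1) (fderiv ℝ Θ 0 (0, 1)).1 0 := by
      have c : HasDerivAt (fun x : ℝ => ((0, x) : P)) (0, 1) 0 :=
        (hasDerivAt_const _ _).prodMk (hasDerivAt_id _)
      exact ((cd.differentiable (by simp) (0, 0)).hasFDerivAt.comp_hasDerivAt 0 c).fst
    rw [b.deriv]
    linear_combination a.1 - d1 ρ 0 * a.2
  · have q1 : p ∈ Q r₁ := Q_mono ((min_le_right _ _).trans (min_le_left _ _)) hp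
    have q2 : ((Θ (0, p.2)).1, p.2) ∈ Q r₁ := mem_Q.2
      ⟨h2 p (Q_mono ((min_le_right _ _).trans (min_le_right _ _)) hp), (mem_Q.1 q1).2⟩
    have z' := z p.2 (mem_Q.1 (Q_mono (min_le_left _ _) hp)).2
    refine ⟨fun a => z' ▸ mono0 hρ h1 q1 q2 a, fun a => ?_, fun a => z' ▸ mono0 hρ h1 q2 q1 a⟩
    rw [← z']
    congr 1
    exact Prod.ext a rfl

theorem frame {τ : P} (h : τ.1 ^ 2 + τ.2 ^ 2 = 1) (v : P) :
    v = (τ.1 * v.1 + τ.2 * v.2) • τ + (τ.1 * v.2 - τ.2 * v.1) • nv τ :=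
  Prod.ext (by simp only [nv, Prod.fst_add, Prod.smul_fst, smul_eq_mul]; linear_combination -v.1 * h)
    (by simp only [nv, Prod.snd_add, Prod.smul_snd, smul_eq_mul]; linear_combination -v.2 * h)

theorem rowLeg : OfLeg := by
  intro U x τ q hU hx hτ hq hn
  have cl : C1 fun y => τ.1 * (y.1 - x.1) + τ.2 * (y.2 - x.2) :=
    (contDiff_const.mul (contDiff_fst.sub contDiff_const)).add
      (contDiff_const.mul (contDiff_snd.sub contDiff_const))
  have cq : C1 fun y => q y - q x := hq.sub contDiff_const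
  have dl : ∀ p v : P, pd v (fun y : P => τ.1 * (y.1 - x.1) + τ.2 * (y.2 - x.2)) p
      = τ.1 * v.1 + τ.2 * v.2 := fun p v => by
    have a := C1.hd (u := fun y : P => y.1) contDiff_fst v p
    have b := C1.hd (u := fun y : P => y.2) contDiff_snd v p
    rw [pd_fst] at a
    rw [pd_snd'] at b
    exact ((((a.sub (HD.const v p x.1)).cmul τ.1).add
      ((b.sub (HD.const v p x.2)).cmul τ.2)).congr (by ring)).pd_eq (cl.da p)
  have dq : ∀ p v : P, pd v (fun y => q y - q x) p = (τ.1 * v.1 + τ.2 * v.2) * pd τ q p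
      + (τ.1 * v.2 - τ.2 * v.1) * pd (nv τ) q p := fun p v => by
    rw [pd_sub v (hq.da p) (differentiableAt_const _), pd_const, sub_zero, ← pd_smul_dir,
      ← pd_smul_dir, ← pd_add_dir, ← frame hτ]
  obtain ⟨Θ, r, r0, cd, e0, nh, h⟩ := loc_inv (x := x) (U := U ∩ {y | pd (nv τ) q y ≠ 0})
    (cl.prodMk cq) (by simp) (fun v hv => by
      rw [fderiv_pair cl cq, dl, dq, Prod.mk_eq_zero] at hv
      obtain ⟨a, b⟩ := hv
      rw [a, zero_mul, zero_add] at b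
      rw [frame hτ v, a, (mul_eq_zero.1 b).resolve_right hn, zero_smul, zero_smul, add_zero])
    (inter_mem (hU.mem_nhds hx) ((hq.cp _).continuousAt.eventually_ne hn))
  refine ⟨Θ, r, r0, cd, e0, nh, fun p hp => ?_⟩
  obtain ⟨⟨a, b⟩, c, d⟩ := h p hp
  have n0 : pd (nv τ) q (Θ p) ≠ 0 := b
  have k0 := d (ee 0)
  have k1 := d (ee 1)
  rw [fderiv_pair cl cq, dl, dq, Prod.ext_iff] at k0 k1
  simp only [ee0, ee1] at k0 k1 ⊢
  refine ⟨a, by linear_combination congrArg Prod.snd c, n0, ?_, ?_⟩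
  · rw [frame hτ (fderiv ℝ Θ p (1, 0)), k0.1, one_smul, sub_eq_add_neg τ, ← neg_smul]
    congr 2
    field_simp
    linear_combination k0.2 - pd τ q (Θ p) * k0.1
  · rw [frame hτ (fderiv ℝ Θ p (0, 1)), k1.1, zero_smul, zero_add]
    congr 1
    field_simp
    linear_combination k1.2 - pd τ q (Θ p) * k1.1

end Pool.Agent.MP_ed9623_an.U81
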