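import Pool.Agent.MP_ed9623_an.U81.Hyp
import Pool.Agent.MP_ed9623_an.U81.Chart

/-! The continuation theorems in the chart. -/

open MeasureTheory Filter Topology Set
open scoped ContDiff

namespace Pool.Agent.MP_ed9623_an.U81

open H64 H77

theorem pd_comp {u : P → ℝ} {Θ : P → P} (hu : C1 u) (hΘ : ContDiff ℝ (1 : ℕ) Θ) (e p : P) :
    pd e (fun y => u (Θ y)) p = pd (fderiv ℝ Θ p e) u (Θ p) := by
  unfold pd
  rw [fderiv_fun_comp p (hu.da _) (hΘ.differentiable (by simp) p)]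
  rfl

theorem mvt1 {u : P → ℝ} {p : P} (hu : C1 u) (hp : 0 < p.2) (h0 : u (p.1, 0) = 0) :
    ∃ ξ ∈ Ioo 0 p.2, u p = d1 u (p.1, ξ) * p.2 := by
  obtain ⟨ξ, a, b⟩ := exists_hasDerivAt_eq_slope (fun t => u (p.1, t)) (fun t => d1 u (p.1, t)) hp
    (hu.continuous.comp (by fun_prop)).continuousOn fun t _ => hu.s1 p.1 t
  refine ⟨ξ, a, ?_⟩
  rw [b, h0, sub_zero, sub_zero, div_mul_cancel₀ _ hp.ne']

theorem left_zero {r : ℝ} {γ : ℝ → ℝ} {u : P → ℝ} (hu : C1 u) (hγ : Continuous γ)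
    (h : ∀ p ∈ Q r, p.1 < γ p.2 → u p = 0) {p : P} (hp : p ∈ Q r) (hl : p.1 ≤ γ p.2) :
    u p = 0 ∧ ∀ e, pd e u p = 0 := by
  have o : IsOpen {p : P | p.1 < γ p.2} := isOpen_lt continuous_fst (hγ.comp continuous_snd)
  have t : Tendsto (fun t : ℝ => ((p.1 - t, p.2) : P)) (𝓝[>] 0) (𝓝 p) := by
    have : Tendsto (fun t : ℝ => ((p.1 - t, p.2) : P)) (𝓝 0) (𝓝 (p.1 - 0, p.2)) :=
      (by fun_prop : Continuous fun t : ℝ => ((p.1 - t, p.2) : P)).tendsto 0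
    rw [sub_zero] at this
    exact this.mono_left nhdsWithin_le_nhds
  have c : p ∈ closure {p : P | p.1 < γ p.2} := mem_closure_of_tendsto t
    (mem_of_superset self_mem_nhdsWithin fun t ht => (sub_lt_self p.1 ht).trans_le hl)
  have ev : ∀ᶠ y in 𝓝 p, y ∈ {p : P | p.1 < γ p.2} → u y = 0 :=
    mem_of_superset ((isOpen_Q r).mem_nhds hp) fun y hy => h y hy
  exact ⟨eq_zero_of_closure hu.continuous.continuousAt c ev,
    fun e => pd_eq_zero_of_closure o e hu.contDiffAt c ev⟩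

theorem ct_ell (hL : LlS) {r : ℝ} {γ : ℝ → ℝ} {f α G : P → ℝ} (r0 : 0 < r) (hy : Sys (Q r) f α G)
    (hf : Continuous f) (hγ : Continuous γ) (γ0 : γ 0 = 0)
    (h0 : ∀ p ∈ Q r, p.1 < γ p.2 → α p = 0 ∧ G p = 0)
    (h : ∀ᶠ p in 𝓝 (0 : P), γ p.2 < p.1 → 0 < f p) : ∀ᶠ p in 𝓝 (0 : P), α p = 0 := by
  obtain ⟨R, R0, hR⟩ := ev_Q (h.and (Q_nhds r0))
  obtain ⟨η, η0, hη⟩ := Metric.eventually_nhds_iff.1 ((hγ.abs.continuousAt (x := 0)
    ).eventually_lt_const (show |γ 0| < R / 8 by rw [γ0, abs_zero]; positivity))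
  obtain ⟨ε, ε0, ε1, ε2⟩ : ∃ ε, 0 < ε ∧ ε < η ∧ ε < R :=
    ⟨min η R / 2, by positivity, by linarith [min_le_left η R], by linarith [min_le_right η R]⟩
  have gb : ∀ x ∈ Icc (-ε) ε, -(R / 8) < γ x ∧ γ x < R / 8 := fun x hx =>
    abs_lt.1 (hη (by rw [Real.dist_eq, sub_zero]; exact (abs_le.2 hx).trans_lt ε1))
  have sT : Icc (-(R / 2)) (R / 2) ×ˢ Icc (-ε) ε ⊆ Q R := fun p hp =>
    mem_Q.2 ⟨(abs_le.2 hp.1).trans_lt (half_lt_self R0), (abs_le.2 hp.2).trans_lt ε2⟩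
  have sB : Bx (-(R / 2)) (R / 2) (-ε) ε ⊆ Q R :=
    (Set.prod_mono Ioo_subset_Icc_self Ioo_subset_Icc_self).trans sT
  obtain ⟨c₀, c0, hc⟩ := (isCompact_Icc.prod isCompact_Icc :
      IsCompact (Icc (R / 4) (R / 2) ×ˢ Icc (-ε) ε)).exists_forall_le' (a := 0) hf.continuousOn
    fun p hp => (hR p (sT ⟨⟨by linarith [hp.1.1], hp.1.2⟩, hp.2⟩)).1
      (by linarith [(gb _ hp.2).2, hp.1.1])
  obtain ⟨C, -, hC⟩ := bd_on (bdd_Q r) hf
  have z := fun p hp hl => (left_zero hy.ca hγ (fun p a b => (h0 p a b).1) (p := p) hp hl).2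
  have key := hL (-(R / 2)) (-(R / 4)) (R / 4) (R / 2) (-ε) ε c₀ C (-(R / 4)) f α G (by linarith)
    (by linarith) c0 ⟨le_rfl, by linarith⟩ (hy.mono fun p hp => (hR p (sB hp)).2)
    (fun p hp => by
      have q := hR p (sB hp)
      have b := gb _ (Ioo_subset_Icc_self hp.2)
      rcases le_or_gt p.1 (γ p.2) with e | e
      · exact ⟨Or.inr ⟨z p q.2 e _, z p q.2 e _⟩, fun _ => Or.inr ⟨z p q.2 e _, z p q.2 e _⟩⟩
      · refine ⟨Or.inl ⟨(q.1 e).le, (le_abs_self _).trans (hC p q.2)⟩, fun a => Or.inl ?_⟩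
        exact hc p ⟨⟨a.resolve_left (by linarith [b.1]), hp.1.2.le⟩, Ioo_subset_Icc_self hp.2⟩)
    fun x hx => h0 _ (hR _ (sB ⟨⟨by linarith, by linarith⟩, hx⟩)).2
      (by linarith [(gb _ (Ioo_subset_Icc_self hx)).1])
  filter_upwards [Q_nhds (show 0 < R / 4 by positivity), Q_nhds ε0] with p h1 h2
  exact (key p (Ioo_subset_Icc_self h1.1) h2.2).1

theorem rowCt : OfCt := by
  intro hL hH r γ f α G r0 hy hf hγ γ0 h0 hc
  have cγ := hγ.continuous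
  have cb : Continuous (deriv γ) := hγ.continuous_deriv le_rfl
  have cu : C1 fun p : P => p.2 + γ p.1 := contDiff_snd.add (hγ.comp contDiff_fst)
  have cS : ContDiff ℝ (1 : ℕ) fun p : P => ((p.2 + γ p.1, p.1) : P) := cu.prodMk contDiff_fst
  have dγ := fun y => (hγ.differentiable (by simp) y).hasDerivAt
  have s0 : ∀ {u : P → ℝ}, C1 u → ∀ p : P, d0 (fun p : P => u (p.2 + γ p.1, p.1)) p
      = deriv γ p.1 * d0 u (p.2 + γ p.1, p.1) + d1 u (p.2 + γ p.1, p.1) := fun hu p => by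
    rw [d0, pd_comp hu cS, fderiv_pair cu contDiff_fst, pd_frame, pd_fst,
      ((HD_x0 (fun x => x) p).add (HD_s0 (dγ p.1))).pd_eq (cu.da p)]
    simp [ee]
  have s1 : ∀ {u : P → ℝ}, C1 u → ∀ p : P, d1 (fun p : P => u (p.2 + γ p.1, p.1)) p
      = d0 u (p.2 + γ p.1, p.1) := fun hu p => by
    rw [d1, pd_comp hu cS, fderiv_pair cu contDiff_fst, pd_frame, pd_fst,
      ((HD_x1 (hasDerivAt_id' p.2)).add (HD_s1 γ p)).pd_eq (cu.da p)]
    simp [ee]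
  have S0 : (((0 : P).2 + γ (0 : P).1, (0 : P).1) : P) = 0 := by simp [γ0]
  have tS : Tendsto (fun p : P => ((p.2 + γ p.1, p.1) : P)) (𝓝 0) (𝓝 0) := by
    simpa only [S0] using cS.continuous.tendsto 0
  have cg : C1 fun p : P => -f (p.2 + γ p.1, p.1) := (hf.comp cS).neg
  have dg : ∀ p, d1 (fun p : P => -f (p.2 + γ p.1, p.1)) p = -d0 f (p.2 + γ p.1, p.1) := fun p => by
    rw [d1, pd_neg, ← s1 hf]
  have hyp : ∀ c k : ℝ, 0 < c → 0 ≤ k → deriv γ 0 ^ 2 * -f 0 < 1 / 4 → (∀ᶠ p : P in 𝓝 0, 0 < p.2 →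
      c * p.2 ≤ -f (p.2 + γ p.1, p.1) ∧ -(k * -f (p.2 + γ p.1, p.1)) ≤ -d0 f (p.2 + γ p.1, p.1)) →
      ∀ᶠ p in 𝓝 (0 : P), α p = 0 := fun c k c0 k0 hb h => by
    obtain ⟨R, R0, hR⟩ := ev_Q ((h.and (tS.eventually (Q_nhds r0))).and
      ((((cb.comp continuous_fst).pow 2).mul cg.continuous).continuousAt.eventually_lt_const
        (show deriv γ (0 : P).1 ^ 2 * -f ((0 : P).2 + γ (0 : P).1, (0 : P).1) < 1 / 4 by
          rw [S0]; exact hb)))
    obtain ⟨r₂, a, b⟩ := hH R c k (deriv γ) _ _ _ R0 c0 k0 (hy.ca.comp cS) (hy.cg.comp cS) cg cb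
      (fun p hp => by
        obtain ⟨⟨u1, u2⟩, u3⟩ := hR p (Qp_sub _ _ hp)
        have e := hy.eq _ u2
        simp only [Function.comp_def]
        rw [dg, s0 hy.ca, s0 hy.cg, s1 hy.ca, s1 hy.cg, e.1, e.2]
        exact ⟨(u1 hp.2).1, u3.le, (u1 hp.2).2, by ring, by ring⟩)
      fun y hy' => by
        have q := (hR (y, 0) (mem_Q.2 ⟨abs_lt.2 hy', by simpa using R0⟩)).1.2
        exact ⟨(left_zero hy.ca cγ (fun p a b => (h0 p a b).1) q (by simp)).1,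
          (left_zero hy.cg cγ (fun p a b => (h0 p a b).2) q (by simp)).1⟩
    have t : Tendsto (fun p : P => ((p.2, p.1 - γ p.2) : P)) (𝓝 0) (𝓝 0) :=
      (by fun_prop : Continuous fun p : P => ((p.2, p.1 - γ p.2) : P)).tendsto' 0 0 (by simp [γ0])
    filter_upwards [t.eventually (Q_nhds a), Q_nhds r0] with p h1 h2
    rcases le_or_gt p.1 (γ p.2) with e | e
    · exact (left_zero hy.ca cγ (fun p a b => (h0 p a b).1) h2 e).1
    · simpa using b _ ⟨h1, sub_pos.2 e⟩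
  have ell := ct_ell hL r0 hy hf.continuous cγ γ0 h0
  rcases hc with h | ⟨h, h'⟩ | ⟨h, h'⟩
  · exact ell (mem_of_superset (Q_nhds r0) h)
  · rcases h.lt_or_gt with e | e
    · obtain ⟨K, K0, hK⟩ := bd_on (bdd_Q r) (hf.cp (ee 0))
      have m0 : 0 < -f 0 / 2 := by linarith
      refine hyp (-f 0 / 2) (K / (-f 0 / 2)) m0 (by positivity) (by rw [h']; norm_num) ?_
      filter_upwards [tS.eventually (hf.continuous.continuousAt.eventually_lt_const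
        (show f 0 < f 0 / 2 by linarith)), tS.eventually (Q_nhds r0), Q_nhds one_pos]
        with p h1 h2 h3 _
      have a := mul_le_mul_of_nonneg_left (show -f 0 / 2 ≤ -f (p.2 + γ p.1, p.1) by linarith)
        (show 0 ≤ K / (-f 0 / 2) by positivity)
      rw [div_mul_cancel₀ _ m0.ne'] at a
      exact ⟨by nlinarith [h3.2.2], by linarith [(abs_le.1 (hK _ h2)).2]⟩
    · exact ell ((hf.continuous.continuousAt.eventually_const_lt e).mono fun p a _ => a)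
  · have f0 : f 0 = 0 := h 0 (mem_of_mem_nhds (Q_nhds r0)) γ0.symm
    rcases h'.lt_or_gt with e | e
    · refine hyp (-d0 f 0 / 2) 0 (by linarith) le_rfl (by rw [f0]; norm_num) ?_
      obtain ⟨R, R0, hR⟩ := ev_Q ((tS.eventually ((hf.cp (ee 0)).continuousAt.eventually_lt_const
        (show d0 f 0 < d0 f 0 / 2 by linarith))).and (tS.eventually (Q_nhds r0)))
      filter_upwards [Q_nhds R0] with p hp p0
      obtain ⟨ξ, a, b⟩ := mvt1 cg p0 (neg_eq_zero.2 (h _ (hR (p.1, 0)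
        (mem_Q.2 ⟨(mem_Q.1 hp).1, by simpa using R0⟩)).2 (by simp)))
      have u := (hR (p.1, ξ) ⟨hp.1, by linarith [a.1], a.2.trans hp.2.2⟩).1
      rw [dg] at b
      simp only [d0] at u b e ⊢
      exact ⟨by nlinarith, by linarith [(hR p hp).1]⟩
    · obtain ⟨R, R0, hR⟩ := ev_Q (((hf.cp (ee 0)).continuousAt.eventually_const_lt e).and
        (Q_nhds r0))
      have t : Tendsto (fun p : P => ((γ p.2, p.2) : P)) (𝓝 0) (𝓝 0) :=
        (by fun_prop : Continuous fun p : P => ((γ p.2, p.2) : P)).tendsto' 0 0 (by simp [γ0])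
      refine ell ?_
      filter_upwards [t.eventually (Q_nhds R0), Q_nhds R0] with p h1 h2 a
      exact (h _ (hR _ h1).2 rfl).symm.trans_lt (mono0 hf (fun p hp => (hR p hp).1) h1 h2 a)

theorem kb_of {r : ℝ} {g : P → ℝ} (r0 : 0 < r) (hg : C1 g) (h0 : ∀ y ∈ Ioo (-r) r, g (y, 0) = 0)
    (h : 0 < d1 g 0) : ∃ r₁ c C, r₁ ≤ r ∧ KB r₁ c C g := by
  have ct := (hg.cp (ee 1)).continuousAt (x := 0)
  obtain ⟨R, R0, hR⟩ := ev_Q ((ct.eventually_const_lt (show 7 / 8 * d1 g 0 < d1 g 0 by linarith)).and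
    (ct.eventually_lt_const (show d1 g 0 < 9 / 8 * d1 g 0 by linarith)))
  refine ⟨min (min R r) 1, 7 / 8 * d1 g 0, 9 / 8 * d1 g 0, (min_le_left _ _).trans (min_le_right _ _),
    by positivity, min_le_right _ _, by positivity, hg, fun p hp => ?_⟩
  have q := Q_mono ((min_le_left _ _).trans (min_le_left _ _)) (Qp_sub _ _ hp)
  have p0 := (Qp_x hp).1
  obtain ⟨ξ, a, b⟩ := mvt1 hg p0
    (h0 _ (Q_mono ((min_le_left _ _).trans (min_le_right _ _)) (Qp_sub _ _ hp)).1)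
  have u := hR (p.1, ξ) ⟨q.1, by linarith [a.1], a.2.trans q.2.2⟩
  have v := (hR p q).2
  simp only [d1] at *
  refine ⟨by nlinarith [u.1], by nlinarith [u.2], ?_⟩
  rw [div_mul_eq_mul_div, le_div_iff₀ (by positivity)]
  nlinarith [u.1]

theorem rowCk : OfCk := by
  intro hE hH r C f α G r0 hy hf h0 hd f0 hn
  have dec : ∀ {u w : P → ℝ}, C1 u → (∀ p ∈ Q r, p.2 ≤ 0 → u p = 0) → (∀ p ∈ Qp 0 r, d1 u p = w p) →
      (∀ p ∈ Qp 0 r, |w p| ≤ C * √p.2) → ∀ p ∈ Qp 0 r, |u p| ≤ |C| * (p.2 * √p.2) :=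
    fun hu z e h p hp => by
      obtain ⟨a1, a2, a3⟩ := mem_Qp.1 hp
      obtain ⟨ξ, a, b⟩ := mvt1 hu a2 (z _ (mem_Q.2 ⟨a1, by simpa using r0⟩) le_rfl)
      have q : ((p.1, ξ) : P) ∈ Qp 0 r := mem_Qp.2 ⟨a1, a.1, a.2.trans a3⟩
      rw [b, e _ q, abs_mul, abs_of_pos a2, mul_comm p.2, ← mul_assoc]
      exact mul_le_mul_of_nonneg_right ((h _ q).trans (mul_le_mul (le_abs_self C)
        (Real.sqrt_le_sqrt a.2.le) (Real.sqrt_nonneg _) (abs_nonneg C))) a2.le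
  have dα := dec hy.ca (fun p a b => (h0 p a b).1) (fun _ _ => rfl) fun p hp => (hd p hp).2
  have dG := dec hy.cg (fun p a b => (h0 p a b).2) (fun p hp => (hy.eq p (Qp_sub _ _ hp)).2)
    fun p hp => (hd p hp).1
  obtain ⟨r₂, a, b⟩ : ∃ r₂ : ℝ, 0 < r₂ ∧ ∀ p ∈ Qp 0 r₂, α p = 0 := by
    rcases hn.lt_or_gt with e | e
    · obtain ⟨r₁, c, C', a, b⟩ := kb_of (g := fun p => -f p) r0 hf.neg
        (fun y hy => neg_eq_zero.2 (f0 y hy)) (by rw [d1, pd_neg]; exact neg_pos.2 e)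
      exact hH r₁ c C' |C| _ α G b (by
        simpa only [neg_neg] using hy.mono ((Qp_sub _ _).trans (Q_mono a)))
        fun p hp => ⟨dα p (Qp_mono a hp), dG p (Qp_mono a hp)⟩
    · obtain ⟨r₁, c, C', a, b⟩ := kb_of r0 hf f0 e
      exact hE r₁ c C' |C| _ α G b (hy.mono ((Qp_sub _ _).trans (Q_mono a)))
        fun p hp => ⟨dα p (Qp_mono a hp), dG p (Qp_mono a hp)⟩
  filter_upwards [Q_nhds a, Q_nhds r0] with p h1 h2
  rcases le_or_gt p.2 0 with e | e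
  exacts [(h0 p h2 e).1, b p ⟨h1, e⟩]

end Pool.Agent.MP_ed9623_an.U81
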