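import Pool.Agent.MP_ed9623_an.U81.K2

/-! Pointwise decay, and the elliptic side of a degeneracy of the second kind. -/

open MeasureTheory Filter Topology Set
open scoped ContDiff

namespace Pool.Agent.MP_ed9623_an.U81

open H64 H77

theorem convex_Q (r : ℝ) : Convex ℝ (Q r) := Q_eq_ball r ▸ convex_ball 0 r

theorem lip_Q {E : Type*} [NormedAddCommGroup E] [NormedSpace ℝ E] {u : P → E}
    (h : ContDiff ℝ (1 : ℕ) u) (r : ℝ) :
    ∃ L, 0 < L ∧ ∀ p ∈ Q r, ∀ q ∈ Q r, ‖u p - u q‖ ≤ L * dist p q := by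
  obtain ⟨L, L0, hL⟩ := bd_on (bdd_Q r) (h.continuous_fderiv (by simp)).norm
  refine ⟨L + 1, by linarith, fun p hp q hq => ?_⟩
  rw [dist_eq_norm]
  exact (convex_Q r).norm_image_sub_le_of_norm_fderiv_le (𝕜 := ℝ)
    (fun x _ => h.differentiable (by simp) x)
    (fun x hx => (le_abs_self _).trans ((hL x hx).trans (by linarith))) hq hp

theorem pt_dec {r c C A κ : ℝ} {u N : P → ℝ} (c0 : 0 < c) (κ0 : 0 < κ) (hu : C1 u)
    (cN : Continuous N) (h : ∀ p ∈ Qp 0 r, |u p| ≤ C * p.2 ∧ c * p.2 * u p ^ 2 ≤ N p)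
    (hI : ∀ x, 0 < x → x ≤ r / 8 → ∫ p in Bx (-r) r 0 x, N p ≤ A * Real.exp (-(κ / √√x))) :
    ∃ A', ∀ p ∈ Qp 0 (r / 8), u p ^ 2 ≤ A' * Real.exp (-(κ / 4 / √√p.2)) := by
  obtain ⟨L₀, L0, hL⟩ := lip_Q hu r
  obtain ⟨L, hL'⟩ : ∃ L, L = L₀ + |C| := ⟨_, rfl⟩
  have L1 : 0 < L := by rw [hL']; positivity
  refine ⟨128 * L ^ 2 * |A| * 384 / (c * κ ^ 4) + 1, fun p hp => ?_⟩
  obtain ⟨s1, p0, p1⟩ := mem_Qp.1 hp
  have hp' : p ∈ Qp 0 r := Qp_mono (by linarith) hp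
  rcases (abs_nonneg (u p)).eq_or_lt with e | η0
  · rw [← sq_abs, ← e]
    simp only [ne_eq, OfNat.ofNat_ne_zero, not_false_eq_true, zero_pow]
    positivity
  obtain ⟨k, hk⟩ : ∃ k, k = |u p| / (4 * L) := ⟨_, rfl⟩
  have k0 : 0 < k := by rw [hk]; positivity
  have k1 : 4 * L * k = |u p| := by rw [hk]; field_simp
  have k2 : k ≤ p.2 / 4 := by
    have a := (h p hp').1.trans (mul_le_mul_of_nonneg_right
      (show C ≤ L by linarith [le_abs_self C]) p0.le)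
    nlinarith
  have s2 := abs_lt.1 s1
  have sB : Bx (-r) r 0 p.2 ⊆ Qp 0 r := fun q hq =>
    mem_Qp.2 ⟨abs_lt.2 hq.1, hq.2.1, by linarith [hq.2.2]⟩
  have key := integral_mono (int_box p.1 (p.1 + k) (p.2 - k) p.2 (c * p.2 * |u p| ^ 2 / 8))
    ((integrable_indicator_iff (isOpen_Bx _ _ _ _).measurableSet).2
      (int_bdd (bdd_Bx (-r) r 0 p.2) cN)) fun q => by
    by_cases hq : q ∈ Bx p.1 (p.1 + k) (p.2 - k) p.2
    · obtain ⟨⟨q1, q2⟩, q3, q4⟩ := mem_Bx.1 hq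
      have hq' : q ∈ Bx (-r) r 0 p.2 := ⟨⟨by linarith, by linarith⟩, by linarith, q4⟩
      rw [indicator_of_mem hq, indicator_of_mem hq']
      refine le_trans ?_ (h q (sB hq')).2
      have d : dist p q ≤ k := by
        rw [Prod.dist_eq, max_le_iff, Real.dist_eq, Real.dist_eq, abs_le, abs_le]
        refine ⟨⟨?_, ?_⟩, ?_, ?_⟩ <;> linarith
      have a := (hL p (Qp_sub _ _ hp') q (Qp_sub _ _ (sB hq'))).trans (mul_le_mul
        (show L₀ ≤ L by linarith [abs_nonneg C]) d dist_nonneg L1.le)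
      have b : |u p| / 2 ≤ |u q| := by
        have := abs_sub_abs_le_abs_sub (u p) (u q)
        rw [Real.norm_eq_abs] at a
        linarith
      have b2 := pow_le_pow_left₀ (by positivity) b 2
      rw [sq_abs (u q)] at b2
      have := mul_le_mul (show c * (p.2 / 2) ≤ c * q.2 from
        mul_le_mul_of_nonneg_left (by linarith) c0.le) b2 (by positivity) (mul_pos c0 hq'.2.1).le
      linarith
    · rw [indicator_of_notMem hq]
      refine indicator_nonneg (fun q hq => le_trans ?_ (h q (sB hq)).2) q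
      have := hq.2.1
      positivity
  rw [int_box_val _ (by linarith) (by linarith),
    integral_indicator (isOpen_Bx _ _ _ _).measurableSet] at key
  have key2 := (key.trans (hI p.2 p0 p1.le)).trans
    (mul_le_mul_of_nonneg_right (le_abs_self A) (Real.exp_pos _).le)
  have t0 := ss_pos p0
  have t4 := ss_pow p0.le
  generalize √√p.2 = t at *
  set E := Real.exp (-(κ / 4 / t)) with hE
  have E0 : 0 < E := Real.exp_pos _
  have e1 : Real.exp (-(κ / t)) = E ^ 2 * E ^ 2 := by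
    rw [hE, sq, ← Real.exp_add, ← Real.exp_add]; congr 1; ring
  have e2 : E ^ 2 ≤ 384 * t ^ 4 / κ ^ 4 := by
    have a := Real.pow_div_factorial_le_exp (κ / 2 / t) (by positivity) 4
    have b : E ^ 2 * Real.exp (κ / 2 / t) = 1 := by
      rw [hE, sq, ← Real.exp_add, ← Real.exp_add, ← Real.exp_zero]; congr 1; ring
    have c : (κ / 2 / t) ^ 4 / (Nat.factorial 4 : ℝ) = κ ^ 4 / (384 * t ^ 4) := by
      norm_num [Nat.factorial]; field_simp; norm_num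
    have d := mul_le_mul_of_nonneg_left a (sq_nonneg E)
    rw [b, c, ← mul_div_assoc, div_le_one (by positivity)] at d
    rwa [le_div_iff₀ (by positivity)]
  obtain ⟨B, hB⟩ : ∃ B, B = 128 * L ^ 2 * |A| * 384 / (c * κ ^ 4) := ⟨_, rfl⟩
  have B0 : 0 ≤ B := by rw [hB]; positivity
  have f : (|u p| ^ 2) ^ 2 ≤ B * E ^ 2 := by
    have a := key2.trans (mul_le_mul_of_nonneg_left
      (e1.trans_le (mul_le_mul_of_nonneg_right e2 (sq_nonneg E))) (abs_nonneg A))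
    rw [hk, ← t4] at a
    have b := mul_le_mul_of_nonneg_left a (show 0 ≤ 128 * L ^ 2 / (c * t ^ 4) by positivity)
    refine le_trans (le_of_eq ?_) (b.trans_eq ?_)
    · field_simp; ring
    · rw [hB]; field_simp
  rw [← hB, ← sq_abs]
  refine le_of_sq_le_sq ?_ (by positivity)
  nlinarith [mul_nonneg (mul_nonneg B0 B0) (sq_nonneg E), mul_nonneg B0 (sq_nonneg E), sq_nonneg E]

theorem rowK2p : OfK2p := by
  intro r c C' A κ g α G _ r1 c0 κ0 cg ca cG h hI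
  have cN : Continuous fun p => g p * α p ^ 2 + G p ^ 2 :=
    (cg.mul (ca.continuous.pow 2)).add (cG.continuous.pow 2)
  obtain ⟨A₁, h1⟩ := pt_dec c0 κ0 ca cN (fun p hp => ⟨(h p hp).2.1, le_add_of_le_of_nonneg
    (mul_le_mul_of_nonneg_right (h p hp).1 (sq_nonneg _)) (sq_nonneg _)⟩) hI
  obtain ⟨A₂, h2⟩ := pt_dec one_pos κ0 cG cN (fun p hp => ⟨(h p hp).2.2, le_add_of_nonneg_of_le
    (mul_nonneg ((mul_pos c0 (Qp_x hp).1).le.trans (h p hp).1) (sq_nonneg _))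
    (mul_le_of_le_one_left (sq_nonneg _) (by linarith [(Qp_x hp).2]))⟩) hI
  exact ⟨A₁ + A₂, κ / 4, by positivity, fun p hp => by linarith [h1 p hp, h2 p hp]⟩

theorem Sys.mono {O O' : Set P} {f α G : P → ℝ} (h : Sys O f α G) (hs : O' ⊆ O) : Sys O' f α G :=
  ⟨h.ca, h.cg, fun p hp => h.eq p (hs hp)⟩

theorem le_lin {u C x : ℝ} (x0 : 0 < x) (x1 : x ≤ 1) (h : |u| ≤ C * (x * √x)) : |u| ≤ |C| * x :=
  h.trans (mul_le_mul (le_abs_self C) (mul_le_of_le_one_right x0.le (Real.sqrt_le_one.2 x1))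
    (by positivity) (abs_nonneg C))

theorem rowEk : OfEk := by
  intro hL h2 hp h3 r c C C' g α G hk hy hd
  have r0 := hk.r0
  have r1 := hk.r1
  obtain ⟨A, κ, κ0, hA⟩ := h2 r c C C' g α G hk hy hd
  have s1 : Qp 0 (r / 4) ⊆ Qp 0 r := Qp_mono (by linarith)
  have s2 : Qp 0 (r / 4 / 8) ⊆ Qp 0 r := Qp_mono (by linarith)
  obtain ⟨A', κ', κ1, hA'⟩ := hp (r / 4) c |C'| A κ g α G (by linarith) (by linarith) hk.c0 κ0
    hk.cg.continuous hy.ca hy.cg (fun p hp =>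
      have x := Qp_x (s1 hp)
      ⟨(hk.bd p (s1 hp)).1, le_lin x.1 (x.2.le.trans r1) (hd p (s1 hp)).1,
        le_lin x.1 (x.2.le.trans r1) (hd p (s1 hp)).2⟩) fun x x0 x1 => hA x x0 (by linarith)
  obtain ⟨x₀, s₁, x0, x1, hs, hz⟩ := h3 (r / 4 / 8) c C A' κ' g α G (by linarith) (by linarith)
    hk.c0 κ1 hk.cg.continuous (hy.mono s2) fun p hp =>
      ⟨(hk.bd p (s2 hp)).1, (hk.bd p (s2 hp)).2.1, hA' p hp⟩
  refine ⟨min x₀ (r / 4 / 8 / 2), by positivity, fun p hp => ?_⟩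
  obtain ⟨a, b, d⟩ := mem_Qp.1 hp
  have s3 : Bx (-(r / 4 / 8)) (r / 4 / 8) (p.2 / 2) x₀ ⊆ Qp 0 r := fun q hq =>
    s2 (mem_Qp.2 ⟨abs_lt.2 hq.1, (half_pos b).trans hq.2.1, hq.2.2.trans_le x1⟩)
  exact (hL _ _ _ _ (p.2 / 2) x₀ (c * (p.2 / 2)) C s₁ g α G (by linarith) (by linarith)
    (mul_pos hk.c0 (half_pos b)) hs (hy.mono s3) (fun q hq => ⟨Or.inl ⟨(hk.pos (s3 hq)).le,
      (hk.bd q (s3 hq)).2.1.trans (mul_le_of_le_one_right hk.C0.le ((Qp_x (s3 hq)).2.le.trans r1))⟩,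
      fun _ => Or.inl ((mul_le_mul_of_nonneg_left hq.2.1.le hk.c0.le).trans (hk.bd q (s3 hq)).1)⟩)
    (fun x hx => hz x ⟨(half_pos b).trans hx.1, hx.2⟩) p
    (abs_le.1 (a.le.trans (min_le_right _ _))) ⟨half_lt_self b, d.trans_le (min_le_left _ _)⟩).1

end Pool.Agent.MP_ed9623_an.U81
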