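import Pool.Agent.MP_ed9623_an.U81.Ek

/-! The two hyperbolic cases. -/

open MeasureTheory Filter Topology Set
open scoped ContDiff

namespace Pool.Agent.MP_ed9623_an.U81

open H64 H77

/-- Bounded and continuous on `O`. -/
def BC (O : Set P) (u : P → ℝ) : Prop := ContinuousOn u O ∧ ∃ C, ∀ p ∈ O, |u p| ≤ C

section BC

variable {O : Set P} {u w : P → ℝ} {r : ℝ}

theorem BC.add (h : BC O u) (h' : BC O w) : BC O fun p => u p + w p := by
  obtain ⟨a, C, b⟩ := h
  obtain ⟨a', C', b'⟩ := h'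
  exact ⟨a.add a', C + C', fun p hp => (abs_add_le _ _).trans (add_le_add (b p hp) (b' p hp))⟩

theorem BC.mul (h : BC O u) (h' : BC O w) : BC O fun p => u p * w p := by
  obtain ⟨a, C, b⟩ := h
  obtain ⟨a', C', b'⟩ := h'
  exact ⟨a.mul a', C * C', fun p hp => (abs_mul _ _).trans_le
    (mul_le_mul (b p hp) (b' p hp) (abs_nonneg _) ((abs_nonneg _).trans (b p hp)))⟩

theorem BC.const (O : Set P) (c : ℝ) : BC O fun _ => c := ⟨continuousOn_const, |c|, fun _ _ => le_rfl⟩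

theorem BC.sub (h : BC O u) (h' : BC O w) : BC O fun p => u p - w p := by
  simpa [sub_eq_add_neg] using h.add ((BC.const O (-1)).mul h')

theorem BC.of_ct (h : Continuous u) (r : ℝ) : BC (Qp 0 r) u :=
  ⟨h.continuousOn, (bd_on (bdd_Qp 0 r) h).imp fun _ a => a.2⟩

theorem BC.ml (h : BC (Qp 0 r) u) : ML (Qp 0 r) u := by
  obtain ⟨a, C, b⟩ := h
  exact ML.of_bd (isOpen_Qp 0 r).measurableSet (bdd_Qp 0 r) a b

end BC

/-- The cone argument for classical densities. -/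
theorem en_cl {r k K₁ K₂ : ℝ} {e es Φ Φy : P → ℝ} (r0 : 0 < r) (k0 : 0 ≤ k) (h1 : 0 ≤ K₁)
    (h2 : 0 ≤ K₂) (b1 : BC (Qp 0 r) e) (b2 : BC (Qp 0 r) es) (b3 : BC (Qp 0 r) Φ)
    (b4 : BC (Qp 0 r) Φy) (h : ∀ p ∈ Qp 0 r, HD (ee 1) p e (es p) ∧ HD (ee 0) p Φ (Φy p) ∧
      0 ≤ e p ∧ es p - Φy p ≤ k * e p ∧ |Φ p| ≤ K₂ / √p.2 * e p ∧ e p ≤ K₁ * p.2) :
    ∃ r₂ : ℝ, 0 < r₂ ∧ r₂ ≤ r ∧ ∀ p ∈ Qp 0 r₂, e p = 0 := by
  obtain ⟨r₂, a, b⟩ := rowEn2 rowG1 r (K₂ + 2 * r * K₁) (fun _ => k) _ _ _ _ r0 (by positivity)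
    b1.ml b2.ml b3.ml b4.ml (WD.ind (WD.of_HD b1.1 b2.1 fun p hp => (h p hp).1))
    (WD.ind (WD.of_HD b3.1 b4.1 fun p hp => (h p hp).2.1)) (integrableOn_const (by simp))
    (fun _ => k0) (Eventually.of_forall fun p hp => by
      simp only [indicator_of_mem hp]
      obtain ⟨-, -, c1, c2, c3, -⟩ := h p hp
      exact ⟨c1, c2, c3.trans (mul_le_mul_of_nonneg_right (div_le_div_of_nonneg_right
        (le_add_of_nonneg_right (by positivity)) (Real.sqrt_nonneg _)) c1)⟩)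
    (Eventually.of_forall fun s hs => by
      have m : ∀ y ∈ Ioo (-r) r, ((y, s) : P) ∈ Qp 0 r := fun y hy => mem_Qp.2 ⟨abs_lt.2 hy, hs⟩
      have := norm_setIntegral_le_of_norm_le_const (μ := volume) (s := Ioo (-r) r) (C := K₁ * s)
        (f := fun y => (Qp 0 r).indicator e (y, s)) (by simp) fun y hy => by
          rw [indicator_of_mem (m y hy), Real.norm_eq_abs, abs_of_nonneg (h _ (m y hy)).2.2.1]
          exact (h _ (m y hy)).2.2.2.2.2
      rw [Real.volume_real_Ioo_of_le (by linarith)] at this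
      refine ((le_abs_self _).trans this).trans ?_
      nlinarith [mul_nonneg h2 hs.1.le])
  have s1 : Qp 0 (min r₂ r) ⊆ Qp 0 r := Qp_mono (min_le_right _ _)
  refine ⟨min r₂ r, lt_min a r0, min_le_right _ _, Measure.eqOn_open_of_ae_eq (μ := volume)
    (g := fun _ => 0) ((ae_restrict_iff' (isOpen_Qp _ _).measurableSet).2 (Eventually.mono b fun p hp hq => ?_))
    (isOpen_Qp _ _) (b1.1.mono s1) continuousOn_const⟩
  rw [← indicator_of_mem (s1 hq) e]
  exact hp (Qp_mono (min_le_left _ _) hq)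

theorem two_mul_le {a b s : ℝ} : |2 * a * b| * s ≤ b ^ 2 + s ^ 2 * a ^ 2 := by
  rw [abs_mul, abs_mul, abs_two, ← sq_abs a, ← sq_abs b]
  nlinarith [sq_nonneg (|b| - s * |a|)]

theorem rowHk : OfHk := by
  intro r c C C' g α G hk hy hd
  have c0 := hk.c0
  have C0 := hk.C0
  have bd : ∀ {u : P → ℝ}, C1 u → (∀ p ∈ Qp 0 r, |u p| ≤ C' * (p.2 * √p.2)) →
      (∀ p ∈ Qp 0 r, |u p * (p.2 * √p.2)⁻¹| ≤ |C'|) ∧ (∀ p ∈ Qp 0 r, |u p| ≤ |C'| * p.2) ∧
      BC (Qp 0 r) (fun p => u p * (p.2 * √p.2)⁻¹) ∧ BC (Qp 0 r) fun p => u p * p.2⁻¹ :=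
    fun {u} hu h => by
      have a : ∀ p ∈ Qp 0 r, |u p * (p.2 * √p.2)⁻¹| ≤ |C'| := fun p hp => by
        have := (Qp_x hp).1
        rw [abs_mul, abs_of_pos (a := (p.2 * √p.2)⁻¹) (by positivity), mul_inv_le_iff₀ (by positivity)]
        exact (h p hp).trans (mul_le_mul_of_nonneg_right (le_abs_self _) (by positivity))
      have b : ∀ p ∈ Qp 0 r, |u p| ≤ |C'| * p.2 := fun p hp =>
        le_lin (Qp_x hp).1 ((Qp_x hp).2.le.trans hk.r1) (h p hp)
      refine ⟨a, b, ⟨hu.continuous.continuousOn.mul (ContinuousOn.inv₀ (by fun_prop) fun p hp => by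
        have := (Qp_x hp).1
        positivity), _, a⟩, hu.continuous.continuousOn.mul (continuous_snd.continuousOn.inv₀
          fun p hp => (Qp_x hp).1.ne'), |C'|, fun p hp => ?_⟩
      rw [abs_mul, abs_of_pos (inv_pos.2 (Qp_x hp).1), mul_inv_le_iff₀ (Qp_x hp).1]
      exact b p hp
  obtain ⟨a1, a2, a3, a4⟩ := bd hy.ca fun p hp => (hd p hp).1
  obtain ⟨g1, g2, g3, g4⟩ := bd hy.cg fun p hp => (hd p hp).2
  have cα := BC.of_ct hy.ca.continuous r
  have cG := BC.of_ct hy.cg.continuous r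
  have cg := BC.of_ct hk.cg.continuous r
  have Φy := (((BC.const _ 2).mul (BC.of_ct (hy.ca.cp (ee 0)) r)).mul g3).add
    (((BC.const _ 2).mul (BC.of_ct (hy.cg.cp (ee 0)) r)).mul a3)
  obtain ⟨r₂, r0, r1, h⟩ := en_cl (k := 0) (K₁ := (1 + C) * C' ^ 2) (K₂ := 1 / √c) hk.r0 le_rfl
    (by positivity) (by positivity) ((cG.mul g3).add (cg.mul (cα.mul a3)))
    ((Φy.add ((BC.of_ct (hk.cg.cp (ee 1)) r).mul (cα.mul a3))).sub ((BC.const _ (3 / 2)).mul
      ((g4.mul g3).add (cg.mul (a4.mul a3))))) (((BC.const _ 2).mul cα).mul g3) Φy fun p hp => by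
      have x0 := (Qp_x hp).1
      have s0 := Real.sqrt_pos.2 x0
      have g0 := hk.pos hp
      have v0 : 0 < (p.2 * √p.2)⁻¹ := by positivity
      have dv : HasDerivAt (fun x => (x * √x)⁻¹) (-(3 / 2 * (p.2⁻¹ * (p.2 * √p.2)⁻¹))) p.2 := by
        refine (((hasDerivAt_id' p.2).fun_mul (Real.hasDerivAt_sqrt x0.ne')).fun_inv
          (by positivity)).congr_deriv ?_
        have e : √p.2 ^ 2 = p.2 := Real.sq_sqrt x0.le
        generalize √p.2 = s at *
        rw [← e]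
        field_simp
        ring
      have e1 := (hy.eq p hp).1
      have e2 := (hy.eq p hp).2
      simp only [d0, d1] at e1 e2
      refine ⟨(((hy.cg.hd _ p).mul ((hy.cg.hd _ p).mul (HD_x1 dv))).add ((hk.cg.hd _ p).mul
        ((hy.ca.hd _ p).mul ((hy.ca.hd _ p).mul (HD_x1 dv))))).congr (by rw [e1, e2]; ring),
        (((hy.ca.hd _ p).cmul 2).mul ((hy.cg.hd _ p).mul
          (HD_x0 (fun x => (x * √x)⁻¹) p))).congr (by ring), ?_, ?_, ?_, ?_⟩
      · have : 0 ≤ (G p ^ 2 + g p * α p ^ 2) * (p.2 * √p.2)⁻¹ := by positivity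
        linarith
      · have u := mul_le_mul_of_nonneg_right (hk.bd p hp).2.2 (mul_nonneg (sq_nonneg (α p)) v0.le)
        have u1 : 0 ≤ p.2⁻¹ * (G p ^ 2 * (p.2 * √p.2)⁻¹) := by positivity
        have u2 : 0 ≤ p.2⁻¹ * (g p * α p ^ 2 * (p.2 * √p.2)⁻¹) := by positivity
        generalize (p.2 * √p.2)⁻¹ = v at *
        simp only [div_eq_mul_inv, mul_inv, d1] at u ⊢
        linarith
      · have sc := Real.sqrt_pos.2 c0
        have u := two_mul_le (a := α p) (b := G p) (s := √c * √p.2)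
        rw [mul_pow, Real.sq_sqrt c0.le, Real.sq_sqrt x0.le] at u
        have u1 := mul_le_mul_of_nonneg_right (u.trans (add_le_add le_rfl
          (mul_le_mul_of_nonneg_right (hk.bd p hp).1 (sq_nonneg _)))) v0.le
        rw [← mul_assoc, abs_mul, abs_of_pos v0, div_div, one_div, le_inv_mul_iff₀ (by positivity)]
        linarith
      · have u1 := (le_abs_self _).trans ((abs_mul _ _).trans_le
          (mul_le_mul (g2 p hp) (g1 p hp) (abs_nonneg _) (by positivity)))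
        have u2 := (le_abs_self _).trans ((abs_mul _ _).trans_le
          (mul_le_mul (a2 p hp) (a1 p hp) (abs_nonneg _) (by positivity)))
        have u3 := (mul_le_mul_of_nonneg_left u2 g0.le).trans (mul_le_mul_of_nonneg_right
          ((hk.bd p hp).2.1.trans (mul_le_of_le_one_right C0.le ((Qp_x hp).2.le.trans hk.r1)))
          (by positivity))
        rw [← sq_abs C']
        linarith
  refine ⟨r₂, r0, fun p hp => ?_⟩
  have q := Qp_mono r1 hp
  have x0 := (Qp_x q).1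
  have g0 := hk.pos q
  have v0 : 0 < (p.2 * √p.2)⁻¹ := by positivity
  have := h p hp
  by_contra ne
  have u : 0 < (G p ^ 2 + g p * α p ^ 2) * (p.2 * √p.2)⁻¹ := by positivity
  linarith

theorem lin_of_zero {u : P → ℝ} {r : ℝ} (hu : C1 u) (h : ∀ y ∈ Ioo (-r) r, u (y, 0) = 0) :
    ∃ L, 0 < L ∧ ∀ p ∈ Qp 0 r, |u p| ≤ L * p.2 := by
  obtain ⟨L, L0, hL⟩ := lip_Q hu r
  refine ⟨L, L0, fun p hp => ?_⟩
  obtain ⟨a, b, c⟩ := mem_Qp.1 hp
  have := hL p (Qp_sub _ _ hp) (p.1, 0) (mem_Q.2 ⟨a, by simpa using b.trans c⟩)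
  rwa [h _ (abs_lt.1 a), sub_zero, Real.norm_eq_abs, Prod.dist_eq, dist_self, Real.dist_eq,
    sub_zero, abs_of_pos b, max_eq_right b.le] at this

theorem rowHt : OfHt := by
  intro r c k b g α G r0 c0 k0 ca cG cg cb h h0
  obtain ⟨L₁, l1, hα⟩ := lin_of_zero ca fun y hy => (h0 y hy).1
  obtain ⟨L₂, l2, hG⟩ := lin_of_zero cG fun y hy => (h0 y hy).2
  obtain ⟨M, M0, hM⟩ := bd_on (bdd_Qp 0 r) cg.continuous
  have g0 : ∀ p ∈ Qp 0 r, 0 < g p := fun p hp => (mul_pos c0 (Qp_x hp).1).trans_le (h p hp).1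
  have hH : ∀ p ∈ Qp 0 r, |G p * (g p)⁻¹| ≤ L₂ / c := fun p hp => by
    rw [abs_mul, abs_of_pos (inv_pos.2 (g0 p hp)), mul_inv_le_iff₀ (g0 p hp), div_mul_eq_mul_div,
      le_div_iff₀ c0]
    nlinarith [mul_le_mul_of_nonneg_left (h p hp).1 l2.le, mul_le_mul_of_nonneg_left (hG p hp) c0.le]
  have bH : BC (Qp 0 r) fun p => G p * (g p)⁻¹ := ⟨cG.continuous.continuousOn.mul
    (cg.continuous.continuousOn.inv₀ fun p hp => (g0 p hp).ne'), _, hH⟩
  have bα := BC.of_ct ca.continuous r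
  have bG := BC.of_ct cG.continuous r
  have bb := BC.of_ct (cb.comp continuous_fst) r
  have Φy := (((BC.const _ 2).mul (BC.of_ct (ca.cp (ee 0)) r)).mul bG).add
    (((BC.const _ 2).mul bα).mul (BC.of_ct (cG.cp (ee 0)) r))
  have low : ∀ p ∈ Qp 0 r, ∃ H, G p = g p * H ∧ G p * (g p)⁻¹ = H ∧
      |2 * (b p.1 * α p * G p)| ≤ (α p ^ 2 + g p * H ^ 2) / 2 := fun p hp => by
    have := g0 p hp
    refine ⟨G p * (g p)⁻¹, by field_simp, rfl, ?_⟩
    refine abs_le_of_sq_le_sq ?_ (by positivity)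
    have e : G p = g p * (G p * (g p)⁻¹) := by field_simp
    generalize G p * (g p)⁻¹ = H at *
    rw [e]
    nlinarith [mul_le_mul_of_nonneg_right (h p hp).2.1 (show 0 ≤ α p ^ 2 * (g p * H ^ 2) by
      positivity), sq_nonneg (α p ^ 2 - g p * H ^ 2)]
  obtain ⟨r₂, a0, a1, a⟩ := en_cl (k := 2 * k) (K₁ := 2 * (L₁ ^ 2 * r + L₂ * (L₂ / c)))
    (K₂ := 2 * (1 + M) * √r) r0 (by positivity) (by positivity) (by positivity)
    (((bα.mul bα).add (bG.mul bH)).add ((BC.const _ 2).mul ((bb.mul bα).mul bG)))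
    (Φy.sub ((bH.mul bH).mul (BC.of_ct (cg.cp (ee 1)) r))) (((BC.const _ 2).mul bα).mul bG) Φy
    fun p hp => by
      obtain ⟨x0, x1⟩ := Qp_x hp
      have g1 := g0 p hp
      obtain ⟨H, e1, e2, e3⟩ := low p hp
      obtain ⟨u1, u2, u3, u4, u5⟩ := h p hp
      have e4 := abs_le.1 e3
      have n1 := sq_nonneg (α p)
      have n2 := mul_nonneg g1.le (sq_nonneg H)
      have eG : G p * H = g p * H ^ 2 := by rw [e1]; ring
      simp only [Function.comp_apply, e2, eG]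
      refine ⟨((((ca.hd _ p).mul (ca.hd _ p)).add ((cG.hd _ p).mul ((cG.hd _ p).mul
        (HD.comp (hasDerivAt_inv g1.ne') (cg.hd _ p))))).add ((((HD_s1 b p).mul
          (ca.hd _ p)).mul (cG.hd _ p)).cmul 2)).congr ?_,
        (((ca.hd _ p).cmul 2).mul (cG.hd _ p)).congr (by ring), by linarith, ?_, ?_, ?_⟩
      · simp only [d0, d1] at u4 u5
        have i : g p * (g p)⁻¹ = 1 := mul_inv_cancel₀ g1.ne'
        rw [e2, ← inv_pow]
        linear_combination 2 * α p * u5 + 2 * H * u4 + pd (ee 1) G p * e2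
          - pd (ee 1) g p * (G p * (g p)⁻¹ + H) * e2
          - 2 * (pd (ee 0) α p - b p.1 * pd (ee 1) α p) * e1
      · have := mul_le_mul_of_nonneg_left u3 (sq_nonneg H)
        have := mul_le_mul_of_nonneg_left e4.1 k0
        simp only [d1] at *
        nlinarith [mul_nonneg k0 n1]
      · have s0 := Real.sqrt_pos.2 x0
        have s1 : 2 * (1 + M) ≤ 2 * (1 + M) * √r / √p.2 := by
          rw [le_div_iff₀ s0]
          exact mul_le_mul_of_nonneg_left (Real.sqrt_le_sqrt x1.le) (by positivity)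
        refine le_trans ?_ (mul_le_mul_of_nonneg_right s1 (by linarith))
        have v := two_mul_le (a := α p) (b := G p) (s := 1)
        have w := mul_le_mul_of_nonneg_right ((le_abs_self _).trans (hM p hp)) n2
        have y := mul_le_mul_of_nonneg_left e4.1 M0
        have z : G p ^ 2 = g p * (g p * H ^ 2) := by rw [e1]; ring
        nlinarith [mul_nonneg M0 n1]
      · have v1 := pow_le_pow_left₀ (abs_nonneg _) (hα p hp) 2
        have v2 := (le_abs_self _).trans ((abs_mul _ _).trans_le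
          (mul_le_mul (hG p hp) (hH p hp) (abs_nonneg _) (by positivity)))
        rw [sq_abs] at v1
        rw [e2, eG] at v2
        nlinarith [mul_le_mul_of_nonneg_left x1.le (mul_nonneg (sq_nonneg L₁) x0.le)]
  refine ⟨r₂, a0, fun p hp => ?_⟩
  have q := Qp_mono a1 hp
  obtain ⟨H, e1, e2, e3⟩ := low p q
  have z := a p hp
  have eG : G p * H = g p * H ^ 2 := by rw [e1]; ring
  simp only [Function.comp_apply, e2, eG] at z
  have n2 := mul_nonneg (g0 p q).le (sq_nonneg H)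
  nlinarith [(abs_le.1 e3).1, sq_nonneg (α p)]

end Pool.Agent.MP_ed9623_an.U81
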