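import Pool.Agent.MP_ed9623_an.U81.Base

/-! The Jacobian has integral zero; the double logarithm along a segment. -/

open MeasureTheory Filter Topology Set
open scoped ContDiff

namespace Pool.Agent.MP_ed9623_an.U81

open H64 H77

theorem jac_sm {u v : P → ℝ} (hu : C1 u) (hc : HasCompactSupport u) (hv : ContDiff ℝ ∞ v) :
    ∫ p, d0 u p * d1 v p = ∫ p, d1 u p * d0 v p := by
  have key : ∀ e e' : P, ∫ p, pd e u p * pd e' v p = -∫ p, u p * pd e (pd e' v) p := fun e e' => by
    have s := sm_pd hv e'
    have a := integral_pd_eq_zero volume e (hu.mul (contDiff_infty.1 s 1)) hc.mul_right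
    simp only [pd_mul e (hu.da _) (sm_diff s _)] at a
    rw [integral_add (f := fun z => pd e u z * pd e' v z) (g := fun z => u z * pd e (pd e' v) z)
      (((hu.cp e).mul s.continuous).integrable_of_hasCompactSupport
      (hc.fderiv_apply ℝ e).mul_right) ((hu.continuous.mul (sm_pd s e).continuous
        ).integrable_of_hasCompactSupport hc.mul_right)] at a
    linarith
  rw [key, key, pd_comm_sm hv]

theorem rowJac : OfJac := by
  intro u w hu hc hw
  have hK : IsCompact (tsupport u) := hc
  obtain ⟨R, hR⟩ := hK.isBounded.subset_ball (0 : P)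
  have z : ∀ e p, p ∉ tsupport u → pd e u p = 0 := fun e p hp =>
    pd_off hK.isClosed (fun _ h => image_eq_zero_of_notMem_tsupport h) e hp
  have m : ∀ e, M2 (pd e u) := fun e => m2_of_on hK (hu.cp e).continuousOn (z e)
  have ml : ∀ {f : P → ℝ}, Continuous f → ML (Metric.ball (0 : P) R) f := fun hf =>
    ML.of_ct Metric.isOpen_ball.measurableSet Metric.isBounded_ball hf
  have it : ∀ {f : P → ℝ} (e : P), Continuous f → Integrable fun p => f p * pd e u p :=
    fun e hf => int_of_on hK (hf.mul (hu.cp e)).continuousOn fun p hp => by rw [z e p hp, mul_zero]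
  refine eq_zero_of_small (C := nm (d0 u) + nm (d1 u)) fun δ hδ _ => ?_
  obtain ⟨v, hv, -, h⟩ := approx (e := ee) (d := fun i => pd (ee i) w) Metric.isOpen_ball hK hR
    (ml hw.continuous) (fun i => ⟨ml (hw.cp _), WD.of_cd hw _ _⟩) hδ
  have a := (h 1).pair (m (ee 0)) (z _)
  have b := (h 0).pair (m (ee 1)) (z _)
  have c := jac_sm hu hc hv
  have cv := fun e => (sm_pd hv e).continuous
  simp only [sub_mul] at a b
  rw [integral_sub (it _ (cv _)) (it _ (hw.cp _))] at a b
  have e1 : ∫ p, Jc u w p = (∫ p, d1 w p * d0 u p) - ∫ p, d0 w p * d1 u p := by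
    rw [← integral_sub (it _ (hw.cp _)) (it _ (hw.cp _))]
    exact integral_congr_ae (Eventually.of_forall fun p => by simp only [Jc]; ring)
  simp only [mul_comm (d0 u _), mul_comm (d1 u _)] at c
  rw [e1, abs_le]
  rw [abs_le] at a b
  constructor <;> nlinarith [a.1, a.2, b.1, b.2]

theorem mm_pos (a b : ℝ) {ε : ℝ} (h : 0 < ε) : 0 < mm a b ε := by unfold mm; positivity

theorem dens_pos {A m : ℝ} (hm : 0 < m) (h : 1 + Real.log m ≤ A) : 0 < dens A m := by
  have : 0 < A - Real.log m := by linarith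
  unfold dens; positivity

theorem rowSeg : OfSeg := by
  intro a b A ε F₁ F₂ F₁' F₂' w hab hε hF c1 c2 hw h y hy z hz
  have k1 : Continuous F₁ := continuous_iff_continuousAt.2 fun t => (hF t).1.continuousAt
  have k2 : Continuous F₂ := continuous_iff_continuousAt.2 fun t => (hF t).2.continuousAt
  set m : ℝ → ℝ := fun t => mm (F₁ t) (F₂ t) ε with hm
  have m0 : ∀ t, 0 < m t := fun t => mm_pos _ _ hε
  have cm : Continuous m := by simp only [hm, mm]; fun_prop
  have cl : Continuous fun t => A - Real.log (m t) :=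
    continuous_const.sub (cm.log fun t => (m0 t).ne')
  have l1 : ∀ t ∈ Icc a b, 1 ≤ A - Real.log (m t) := fun t ht => by linarith [(h t ht).2]
  set u' : ℝ → ℝ := fun t => -((2 * F₁ t * F₁' t + 2 * F₂ t * F₂' t) / m t) / (A - Real.log (m t))
  set B : ℝ → ℝ := fun t => w t * (F₁' t ^ 2 + F₂' t ^ 2) * dens A (m t) with hB
  have hd : ∀ t ∈ Icc a b, HasDerivAt (fun t => Real.log (A - Real.log (m t))) (u' t) t :=
    fun t ht => by
      have d : HasDerivAt m (2 * F₁ t * F₁' t + 2 * F₂ t * F₂' t) t := by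
        have := (((hF t).1.pow 2).add ((hF t).2.pow 2)).add_const ε
        simpa [hm, mm, Pi.add_def, Pi.pow_def] using this
      exact ((d.log (m0 t).ne').const_sub A).log (by linarith [l1 t ht])
  have cu : ContinuousOn u' (Icc a b) :=
    ((by fun_prop : Continuous fun t => 2 * F₁ t * F₁' t + 2 * F₂ t * F₂' t).div cm
      fun t => (m0 t).ne').neg.continuousOn.div cl.continuousOn fun t ht => by linarith [l1 t ht]
  have cB : ContinuousOn B (Icc a b) :=
    (hw.mul (by fun_prop : Continuous fun t => F₁' t ^ 2 + F₂' t ^ 2).continuousOn).mul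
      (continuousOn_const.div (cm.mul (cl.pow 2)).continuousOn fun t ht =>
        (mul_pos (m0 t) (pow_pos (by linarith [l1 t ht]) 2)).ne')
  have cw : ContinuousOn (fun t => (w t)⁻¹) (Icc a b) := hw.inv₀ fun t ht => (h t ht).1.ne'
  have pt : ∀ t ∈ Icc a b, |u' t| ≤ B t + (w t)⁻¹ := fun t ht => by
    have l0 : 0 < A - Real.log (m t) := by linarith [l1 t ht]
    have w0 := (h t ht).1
    have s : u' t ^ 2 ≤ 4 * ((F₁' t ^ 2 + F₂' t ^ 2) * dens A (m t)) := by
      have e : u' t ^ 2 = 4 * ((F₁ t * F₁' t + F₂ t * F₂' t) ^ 2 / m t * dens A (m t)) := by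
        simp only [u', dens]
        have := (m0 t).ne'
        field_simp
        ring
      rw [e]
      refine mul_le_mul_of_nonneg_left (mul_le_mul_of_nonneg_right ?_
        (dens_pos (m0 t) (h t ht).2).le) (by norm_num)
      rw [div_le_iff₀ (m0 t)]
      simp only [hm, mm]
      nlinarith [sq_nonneg (F₁ t * F₂' t - F₂ t * F₁' t), mul_nonneg hε.le (sq_nonneg (F₁' t)),
        mul_nonneg hε.le (sq_nonneg (F₂' t))]
    have e2 : B t = w t * ((F₁' t ^ 2 + F₂' t ^ 2) * dens A (m t)) := by simp only [hB]; ring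
    have i : w t * (w t)⁻¹ = 1 := mul_inv_cancel₀ w0.ne'
    rw [e2]
    refine le_of_mul_le_mul_left ?_ w0
    rw [← sq_abs] at s
    nlinarith [sq_nonneg (w t * |u' t| - 2), mul_le_mul_of_nonneg_left s (sq_nonneg (w t))]
  have su : uIcc z y ⊆ Icc a b := uIcc_subset_Icc hz hy
  have ftc := intervalIntegral.integral_eq_sub_of_hasDerivAt (fun t ht => hd t (su ht))
    (cu.mono su).intervalIntegrable
  have iB := (cB.intervalIntegrable_of_Icc (μ := volume) hab)
  have iw := (cw.intervalIntegrable_of_Icc (μ := volume) hab)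
  have iu := (cu.abs.intervalIntegrable_of_Icc (μ := volume) hab)
  rw [← ftc, ← intervalIntegral.integral_add iB iw]
  refine (le_abs_self _).trans (le_trans ?_ (intervalIntegral.integral_mono_on hab iu (iB.add iw) pt))
  rw [← Real.norm_eq_abs]
  refine intervalIntegral.norm_integral_le_integral_norm_uIoc.trans ?_
  rw [intervalIntegral.integral_of_le hab]
  refine setIntegral_mono_set iu.1 (Eventually.of_forall fun t => abs_nonneg _)
    (LE.le.eventuallyLE fun t ht => ?_)
  exact ⟨lt_of_le_of_lt (le_min hz.1 hy.1) ht.1, ht.2.trans (max_le hz.2 hy.2)⟩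

end Pool.Agent.MP_ed9623_an.U81
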