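import Pool.Agent.MP_ed9623_an.U81.Base

/-! The Carleman inequality. -/

open MeasureTheory Filter Topology Set
open scoped ContDiff

namespace Pool.Agent.MP_ed9623_an.U81

open H64 H77

theorem k1_alg {g gx v₁ v₂ a₁ a₂ b₁ w μ ν' B y : ℝ} (hg : 0 ≤ g) (hμ : 0 ≤ μ) (hx : gx ≤ 4 * y * g)
    (hB : y ^ 2 + B ≤ -ν' - 2 * y * μ) :
    B * (g * v₁ ^ 2 + v₂ ^ 2) + ((ν' * (g * (v₁ * v₁) + v₂ * v₂)
      + μ * (gx * (v₁ * v₁) + g * (a₁ * v₁ + v₁ * a₁) + (a₂ * v₂ + v₂ * a₂)))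
      + -2 * (b₁ * a₂ - a₁ * (g * w)) + 2 * y * (b₁ * v₂ + v₁ * (g * w)))
      ≤ g * (a₁ + μ * v₁ + w) ^ 2 + (a₂ + μ * v₂ - b₁) ^ 2 := by
  have h1 := mul_nonneg hg (sq_nonneg a₁)
  have h2 := mul_nonneg hg (sq_nonneg (μ * v₁ + w - y * v₁))
  have h3 := mul_nonneg (sub_nonneg.2 hB) (add_nonneg (mul_nonneg hg (sq_nonneg v₁)) (sq_nonneg v₂))
  have h4 := mul_nonneg (mul_nonneg hμ (sub_nonneg.2 hx)) (sq_nonneg v₁)
  nlinarith [sq_nonneg a₂, sq_nonneg (μ * v₂ - b₁ + y * v₂)]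

theorem KB.pos {r c C : ℝ} {g : P → ℝ} (h : KB r c C g) {p : P} (hp : p ∈ Qp 0 r) : 0 < g p :=
  (mul_pos h.c0 (Qp_x hp).1).trans_le (h.bd p hp).1

theorem on_snd {r : ℝ} {K : Set P} {ν : ℝ → ℝ} (hs : K ⊆ Qp 0 r) (h : ContinuousOn ν (Ioo 0 r)) :
    ContinuousOn (fun p : P => ν p.2) K :=
  h.comp continuous_snd.continuousOn fun _ hp => Qp_x (hs hp)

theorem rowK1 : OfK1 := by
  intro hJ r c C ν ν' B g v₁ v₂ K hk h1 h2 hK hs h0 cn cB h
  have z1 := fun p hp => (h0 p hp).1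
  have z2 := fun p hp => (h0 p hp).2
  have y1 := fun e p hp => pd_off hK.isClosed z1 e (p := p) hp
  have y2 := fun e p hp => pd_off hK.isClosed z2 e (p := p) hp
  have cν : ContinuousOn (fun p : P => ν p.2) K :=
    on_snd hs fun x hx => (h x hx).1.continuousAt.continuousWithinAt
  have cν' := on_snd hs cn
  have cB' := on_snd hs cB
  have cy : ContinuousOn (fun p : P => 1 / (3 * p.2)) K :=
    continuousOn_const.div (continuous_const.mul continuous_snd).continuousOn fun p hp =>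
      (mul_pos three_pos (Qp_x (hs hp)).1).ne'
  have cg := hk.cg.continuous.continuousOn (s := K)
  have cgx := (hk.cg.cp (ee 1)).continuousOn (s := K)
  have c1 := h1.continuous.continuousOn (s := K)
  have c2 := h2.continuous.continuousOn (s := K)
  have e1 := fun e => (h1.cp e).continuousOn (s := K)
  have e2 := fun e => (h2.cp e).continuousOn (s := K)
  have cw := (e2 (ee 0)).div cg fun p hp => (hk.pos (hs hp)).ne'
  set T₁ : P → ℝ := fun p => ν' p.2 * (g p * (v₁ p * v₁ p) + v₂ p * v₂ p)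
    + ν p.2 * (d1 g p * (v₁ p * v₁ p) + g p * (d1 v₁ p * v₁ p + v₁ p * d1 v₁ p)
      + (d1 v₂ p * v₂ p + v₂ p * d1 v₂ p)) with hT₁
  set T₃ : P → ℝ := fun p => 2 * (1 / (3 * p.2)) * (d0 v₁ p * v₂ p + v₁ p * d0 v₂ p) with hT₃
  have cT₁ : ContinuousOn T₁ K := (cν'.mul ((cg.mul (c1.mul c1)).add (c2.mul c2))).add
    (cν.mul (((cgx.mul (c1.mul c1)).add (cg.mul (((e1 _).mul c1).add (c1.mul (e1 _))))).add
      (((e2 _).mul c2).add (c2.mul (e2 _)))))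
  have cT₃ : ContinuousOn T₃ K :=
    (continuousOn_const.mul cy).mul (((e1 _).mul c2).add (c1.mul (e2 _)))
  have cJ : ContinuousOn (Jc v₁ v₂) K := ((e1 _).mul (e2 _)).sub ((e1 _).mul (e2 _))
  have zT₁ : ∀ p, p ∉ K → T₁ p = 0 := fun p hp => by simp [hT₁, z1 p hp, z2 p hp]
  have zT₃ : ∀ p, p ∉ K → T₃ p = 0 := fun p hp => by simp [hT₃, z1 p hp, z2 p hp]
  have zJ : ∀ p, p ∉ K → Jc v₁ v₂ p = 0 := fun p hp => by simp [Jc, y1 _ p hp]
  have I1 : ∫ p, T₁ p = 0 := int_HD_on (e := ee 1)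
    (u := fun p => ν p.2 * (g p * (v₁ p * v₁ p) + v₂ p * v₂ p)) hK
    (cν.mul ((cg.mul (c1.mul c1)).add (c2.mul c2))) cT₁
    (fun p hp => (HD_x1 (h _ (Qp_x (hs hp))).1).mul (((hk.cg.hd _ p).mul
      ((h1.hd _ p).mul (h1.hd _ p))).add ((h2.hd _ p).mul (h2.hd _ p))))
    fun p hp => ⟨by simp [z1 p hp, z2 p hp], zT₁ p hp⟩
  have I3 : ∫ p, T₃ p = 0 := int_HD_on (e := ee 0)
    (u := fun p => 2 * (1 / (3 * p.2)) * (v₁ p * v₂ p)) hK
    ((continuousOn_const.mul cy).mul (c1.mul c2)) cT₃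
    (fun p _ => ((HD_x0 (fun x => 2 * (1 / (3 * x))) p).mul
      ((h1.hd _ p).mul (h2.hd _ p))).congr (by simp [hT₃]))
    fun p hp => ⟨by simp [z1 p hp], zT₃ p hp⟩
  have I2 := hJ v₁ v₂ h1 (cs_of_off hK z1) h2
  have iL := int_of_on (u := fun p : P => B p.2 * (g p * v₁ p ^ 2 + v₂ p ^ 2)) hK
    (cB'.mul ((cg.mul (c1.pow 2)).add (c2.pow 2))) fun p hp => by simp [z1 p hp, z2 p hp]
  have iR := int_of_on (u := fun p : P => g p * (d1 v₁ p + ν p.2 * v₁ p + d0 v₂ p / g p) ^ 2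
      + (d1 v₂ p + ν p.2 * v₂ p - d0 v₁ p) ^ 2) hK
    ((cg.mul ((((e1 _).add (cν.mul c1)).add cw).pow 2)).add
      ((((e2 _).add (cν.mul c2)).sub (e1 _)).pow 2))
    fun p hp => by simp [z1 p hp, z2 p hp, y1 _ p hp, y2 _ p hp]
  have i1 := int_of_on hK cT₁ zT₁
  have i2 := (int_of_on hK cJ zJ).const_mul (-2)
  have i3 := int_of_on hK cT₃ zT₃
  have key := integral_mono (iL.add ((i1.add i2).add i3)) iR fun p => by
    simp only [Pi.add_apply]
    by_cases hp : p ∈ K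
    · have g0 := hk.pos (hs hp)
      have x0 := (Qp_x (hs hp)).1
      obtain ⟨-, n0, hB⟩ := h _ (Qp_x (hs hp))
      have e : d0 v₂ p = g p * (d0 v₂ p / g p) := by field_simp
      have := k1_alg (v₁ := v₁ p) (v₂ := v₂ p) (a₁ := d1 v₁ p) (a₂ := d1 v₂ p) (b₁ := d0 v₁ p)
        (w := d0 v₂ p / g p) (gx := d1 g p) (ν' := ν' p.2) (B := B p.2) (y := 1 / (3 * p.2)) g0.le n0
        ((hk.bd p (hs hp)).2.2.trans_eq (by ring)) (by
          refine le_trans (le_of_eq ?_) (hB.trans_eq (by ring))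
          field_simp
          ring)
      rw [← e] at this
      exact this
    · simp [z1 p hp, z2 p hp, y1 _ p hp, y2 _ p hp, zT₁ p hp, zT₃ p hp, zJ p hp]
  rw [integral_add' iL ((i1.add i2).add i3), integral_add' (i1.add i2) i3, integral_add' i1 i2,
    integral_const_mul, I1, I2, I3] at key
  linarith

end Pool.Agent.MP_ed9623_an.U81
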