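import Pool.Agent.MP_ed9623_an.U81.Ll

/-! One vertical segment of zeros. -/

open MeasureTheory Filter Topology Set
open scoped ContDiff

namespace Pool.Agent.MP_ed9623_an.U81

open H64 H77

theorem ev_exp (K : ℝ) {κ : ℝ} (hκ : 0 < κ) :
    ∀ᶠ t in 𝓝[>] (0 : ℝ), K * Real.exp (-(κ / t)) ≤ t ^ 8 := by
  have h0 : 0 < κ ^ 9 / (|K| * 362880 + 1) := by positivity
  filter_upwards [Ioo_mem_nhdsGT h0] with t ht
  have t0 := ht.1
  have a := Real.pow_div_factorial_le_exp (κ / t) (by positivity) 9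
  have b := (lt_div_iff₀ (by positivity)).1 ht.2
  rw [Real.exp_neg, ← div_eq_mul_inv, div_le_iff₀ (Real.exp_pos _)]
  refine le_trans ?_ (mul_le_mul_of_nonneg_left a (by positivity))
  have e : t ^ 8 * ((κ / t) ^ 9 / (Nat.factorial 9 : ℝ)) = κ ^ 9 / (t * 362880) := by
    norm_num [Nat.factorial]
    field_simp
  rw [e, le_div_iff₀ (by positivity)]
  nlinarith [le_abs_self K, mul_le_mul_of_nonneg_right (le_abs_self K) t0.le]

theorem ss_le {x t : ℝ} (ht : 0 ≤ t) (h : x ≤ t ^ 4) : √√x ≤ t :=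
  Real.sqrt_le_iff.2 ⟨ht, Real.sqrt_le_iff.2 ⟨sq_nonneg t, h.trans_eq (by ring)⟩⟩

theorem int_box_inv {a b c d : ℝ} (k K : ℝ) (hab : a ≤ b) (hc : 0 < c) (hcd : c ≤ d) :
    Integrable ((Bx a b c d).indicator fun p => k * p.2⁻¹ + K) ∧
    ∫ p, (Bx a b c d).indicator (fun p => k * p.2⁻¹ + K) p
      = (b - a) * (k * Real.log (d / c) + K * (d - c)) := by
  have ct : ContinuousOn (fun x : ℝ => k * x⁻¹ + K) (Icc c d) :=
    (continuousOn_const.mul (continuousOn_id.inv₀ fun x hx => (hc.trans_le hx.1).ne')).add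
      continuousOn_const
  have i : IntegrableOn (fun p : P => k * p.2⁻¹ + K) (Ioo a b ×ˢ Ioo c d)
      ((volume : Measure ℝ).prod volume) :=
    ((ct.comp continuous_snd.continuousOn fun p hp => hp.2).integrableOn_compact
      (isCompact_Icc.prod isCompact_Icc : IsCompact (Icc a b ×ˢ Icc c d))).mono_set
      (prod_mono Ioo_subset_Icc_self Ioo_subset_Icc_self)
  refine ⟨(integrable_indicator_iff (isOpen_Bx a b c d).measurableSet).2 i, ?_⟩
  rw [integral_indicator (isOpen_Bx a b c d).measurableSet]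
  refine (setIntegral_prod _ i).trans ?_
  have ii : IntervalIntegrable (fun x : ℝ => k * x⁻¹) volume c d :=
    (continuousOn_const.mul (continuousOn_id.inv₀ fun x hx =>
      (hc.trans_le hx.1).ne')).intervalIntegrable_of_Icc hcd
  simp only
  rw [setIntegral_const, Real.volume_real_Ioo_of_le hab, smul_eq_mul, ← integral_Ioc_eq_integral_Ioo,
    ← intervalIntegral.integral_of_le hcd, intervalIntegral.integral_add ii (by simp),
    intervalIntegral.integral_const_mul, integral_inv_of_pos hc (hc.trans_le hcd),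
    intervalIntegral.integral_const, smul_eq_mul, mul_comm (d - c)]

theorem unif_pos {n : P → ℝ} {a b : ℝ} {T : Set ℝ} (hn : Continuous n)
    (h : ∀ s ∈ Icc a b, ∃ x ∈ T, 0 < n (s, x)) :
    ∃ η, 0 < η ∧ ∀ s ∈ Icc a b, ∃ x ∈ T, η < n (s, x) := by
  refine isCompact_Icc.induction_on (p := fun S => ∃ η, 0 < η ∧ ∀ s ∈ S, ∃ x ∈ T, η < n (s, x))
    ⟨1, one_pos, fun _ h => h.elim⟩ (fun S S' e ⟨η, a, b⟩ => ⟨η, a, fun s hs => b s (e hs)⟩)
    (fun S S' ⟨η, a, b⟩ ⟨η', a', b'⟩ => ⟨min η η', lt_min a a', fun s hs => ?_⟩) fun s hs => ?_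
  · rcases hs with e | e
    · exact (b s e).imp fun x hx => ⟨hx.1, (min_le_left _ _).trans_lt hx.2⟩
    · exact (b' s e).imp fun x hx => ⟨hx.1, (min_le_right _ _).trans_lt hx.2⟩
  · obtain ⟨x, hx, h0⟩ := h s hs
    refine ⟨{s' | n (s, x) / 2 < n (s', x)}, mem_nhdsWithin_of_mem_nhds ?_, _, half_pos h0,
      fun s' hs' => ⟨x, hx, hs'⟩⟩
    exact ContinuousAt.eventually_lt (f := fun _ => n (s, x) / 2) (g := fun s' => n (s', x))
      continuousAt_const (by fun_prop) (half_lt_self h0)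

theorem sq_mul_le {t M u : ℝ} (e : |t| ≤ M) (e' : 0 ≤ u ∧ u ≤ 1) : (t * u) ^ 2 ≤ M ^ 2 :=
  sq_le_sq' (by nlinarith [abs_le.1 e]) (by nlinarith [abs_le.1 e])

theorem rowK3 : OfK3 := by
  intro hL hS r c C A κ g α G r0 r1 c0 κ0 _ hy h
  have hm : ((0, r / 2) : P) ∈ Qp 0 r := mem_Qp.2 ⟨by simpa using r0, half_pos r0, half_lt_self r0⟩
  have C0 : 0 < C := by
    have := (h _ hm).1.trans (h _ hm).2.1
    nlinarith
  have A0 : 0 ≤ A := nonneg_of_mul_nonneg_left (le_trans (by positivity) (h _ hm).2.2)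
    (Real.exp_pos _)
  obtain ⟨χ, M₁, x1, x2, x3, x4, x5, -, -, x7⟩ :=
    exists_bump (a := -r) (a' := -(r / 2)) (b' := r / 2) (b := r) (by linarith) (by linarith)
  obtain ⟨M, -, hM⟩ := exists_scaled
  obtain ⟨x₀, x00, x0r, x0θ, x0c⟩ : ∃ x₀, 0 < x₀ ∧ x₀ ≤ r / 2 ∧ 2 * C * x₀ ≤ 1 ∧
      1024 * M₁ ^ 2 * (2 * C * x₀) ≤ c ^ 2 := by
    refine ⟨min (r / 2) (min (1 / (2 * C)) (c ^ 2 / ((1024 * M₁ ^ 2 + 1) * (2 * C)))),
      by positivity, min_le_left _ _, ?_, ?_⟩
    · exact (le_div_iff₀' (by positivity)).1 ((min_le_right _ _).trans (min_le_left _ _))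
    · have := (le_div_iff₀' (by positivity)).1 ((min_le_right (r / 2) _).trans (min_le_right
        (1 / (2 * C)) (c ^ 2 / ((1024 * M₁ ^ 2 + 1) * (2 * C)))))
      have p : 0 < min (r / 2) (min (1 / (2 * C)) (c ^ 2 / ((1024 * M₁ ^ 2 + 1) * (2 * C)))) := by
        positivity
      nlinarith [mul_pos C0 p]
  by_contra hne
  obtain ⟨θ, θ0, θ2⟩ : ∃ θ : ℝ, 0 < θ ∧ θ ^ 2 = 2 * C * x₀ :=
    ⟨√(2 * C * x₀), Real.sqrt_pos.2 (by positivity), Real.sq_sqrt (by positivity)⟩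
  have θ1 : θ ≤ 1 := by nlinarith
  have θi : θ⁻¹ * θ = 1 := inv_mul_cancel₀ θ0.ne'
  have θj : 1 ≤ θ⁻¹ := (one_le_inv₀ θ0).2 θ1
  set F : P → ℝ := fun p => θ⁻¹ * G p with hF
  have cF : C1 F := contDiff_const.mul hy.cg
  have dF : ∀ e p, pd e F p = θ⁻¹ * pd e G p := fun e p => pd_const_mul e _ (hy.cg.da p)
  have cα := hy.ca.continuous
  obtain ⟨η, η0, hη⟩ := unif_pos (n := fun p => α p ^ 2 + F p ^ 2) (a := -(r / 2)) (b := r / 2)
    (T := Ioo 0 x₀) ((cα.pow 2).add (cF.continuous.pow 2)) fun s hs => by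
      by_contra e
      refine hne ⟨x₀, s, x00, by linarith, hs, fun x hx => ?_⟩
      have e' := not_lt.1 fun a => e ⟨x, hx, a⟩
      have f0 : F (s, x) = 0 := by nlinarith [sq_nonneg (α (s, x)), sq_nonneg (F (s, x))]
      exact ⟨by nlinarith [sq_nonneg (α (s, x)), sq_nonneg (F (s, x))],
        (mul_eq_zero.1 f0).resolve_left (inv_pos.2 θ0).ne'⟩
  obtain ⟨βh, M₂, b1, b2, b3, b4, b5, b6, -, b7⟩ :=
    exists_bump (a := -1) (a' := 0) (b' := x₀) (b := 2 * x₀) (by linarith) (by linarith)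
  obtain ⟨B, B1, hB⟩ := exists_A (bdd_Qp 0 r) cα cF.continuous
  set Ks := 1 + M₂ ^ 2 with hKs
  set K₆ := Real.log (B - Real.log η) - Real.log (κ / 2) + Real.log 8 / 16 + 64 * Ks / c with hK₆
  have κ2 := half_pos κ0
  have evL : ∀ᶠ t in 𝓝[>] (0 : ℝ), 2 * K₆ < -Real.log t :=
    (tendsto_neg_atBot_atTop.comp Real.tendsto_log_nhdsGT_zero).eventually_gt_atTop _
  obtain ⟨t, ⟨⟨⟨e1, e2⟩, e3⟩, e4⟩, t0, t1⟩ := (((((ev_exp (4 * M ^ 2 * (θ⁻¹ ^ 2 * A)) κ2).and
    (ev_exp (θ⁻¹ ^ 2 * A) κ2)).and (ev_exp η⁻¹ κ2)).and evL).and (Ioo_mem_nhdsGT x00)).exists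
  have t2 : t ≤ 1 := by linarith
  have t4 : t ^ 4 ≤ x₀ := (pow_le_of_le_one t0.le t2 (by norm_num)).trans t1.le
  have t8 : t ^ 8 ≤ 1 := pow_le_one₀ t0.le t2
  have a0 : 0 < t ^ 4 / 2 := by positivity
  set ε := Real.exp (-(κ / 2 / t)) with hε
  have ε0 : 0 < ε := Real.exp_pos _
  have ε1 : ε ≤ 1 := Real.exp_le_one_iff.2 (neg_nonpos.2 (by positivity))
  have εη : ε ≤ η := by
    have := e3.trans t8
    rwa [inv_mul_le_iff₀ η0, mul_one] at this
  have dec : ∀ p ∈ Qp 0 r, p.2 ≤ t ^ 4 → α p ^ 2 + F p ^ 2 ≤ θ⁻¹ ^ 2 * A * ε * ε := fun p hp hx => by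
    have a : Real.exp (-(κ / √√p.2)) ≤ ε * ε := by
      rw [hε, ← Real.exp_add, Real.exp_le_exp, ← neg_add, ← add_div, add_halves, neg_le_neg_iff]
      exact div_le_div_of_nonneg_left κ0.le
        (Real.sqrt_pos.2 (Real.sqrt_pos.2 (Qp_x hp).1)) (ss_le t0.le hx)
    have b := (h p hp).2.2.trans (mul_le_mul_of_nonneg_left a A0)
    have c := mul_le_mul_of_nonneg_left b (sq_nonneg θ⁻¹)
    have d := mul_le_mul_of_nonneg_right (one_le_pow₀ θj (n := 2)) (sq_nonneg (α p))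
    simp only [hF, mul_pow]
    nlinarith
  have dec' : ∀ p ∈ Qp 0 r, p.2 ≤ t ^ 4 → α p ^ 2 + F p ^ 2 ≤ ε := fun p hp hx =>
    (dec p hp hx).trans (mul_le_of_le_one_left ε0.le (e2.trans t8))
  obtain ⟨lo, l1, l2, l3, l4, l5, l6⟩ := hM _ a0
  have sub : Bx (-r) r (t ^ 4 / 2 / 2) (2 * x₀) ⊆ Qp 0 r := fun p hp =>
    mem_Qp.2 ⟨abs_lt.2 hp.1, (half_pos a0).trans hp.2.1, hp.2.2.trans_le (by linarith)⟩
  have hχ := test_prod (β := fun x => lo x * βh x) (c := t ^ 4 / 2 / 2) (d := 2 * x₀) x1 x2 x3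
    (l1.mul b1) b2.mul_left fun x hx => ⟨(half_lt_self a0).trans_le
      (closure_minimal (s := Function.support fun x => lo x * βh x) (t := Ici (t ^ 4 / 2))
        (fun y hy => mem_Ici.2 (not_lt.1 fun e => hy (by simp [l3 y e.le]))) isClosed_Ici hx), (b3 (tsupport_mul_subset_right hx)).2⟩
  have eJ : ∀ p ∈ Qp 0 r, Jc α F p = θ⁻¹ * (d0 α p ^ 2 + g p * d1 α p ^ 2) := fun p hp => by
    rw [Jc, d1, d0, d1, d0, dF, dF]
    have := hy.eq p hp
    simp only [d0, d1] at this ⊢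
    rw [this.1, this.2]; ring
  have g0 : ∀ p ∈ Qp 0 r, 0 < g p := fun p hp => (mul_pos c0 (Qp_x hp).1).trans_le (h p hp).1
  have J0 : ∀ p ∈ Qp 0 r, 0 ≤ Jc α F p := fun p hp => by
    have := g0 p hp
    rw [eJ p hp]; positivity
  have gθ : ∀ p ∈ Qp 0 r, p.2 ≤ 2 * x₀ → θ⁻¹ ^ 2 * g p ≤ 1 := fun p hp hx => by
    rw [inv_pow, inv_mul_le_iff₀ (by positivity), mul_one, θ2]
    nlinarith [(h p hp).2.1]
  have ks : ∀ p ∈ Qp 0 r, p.2 ≤ 2 * x₀ → d0 α p ^ 2 + d0 F p ^ 2 ≤ Jc α F p := fun p hp hx => by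
    have a := mul_nonneg (g0 p hp).le (sq_nonneg (d1 α p))
    have b := mul_le_mul_of_nonneg_right (gθ p hp hx) a
    have c := mul_le_mul_of_nonneg_right θj (add_nonneg (sq_nonneg (d0 α p)) a)
    rw [eJ p hp, show d0 F p = _ from dF _ p, show pd (ee 0) G p = _ from (hy.eq p hp).1]
    nlinarith
  have kx : ∀ p ∈ Qp 0 r, p.2 ≤ 2 * x₀ →
      c * p.2 * (d1 α p ^ 2 + d1 F p ^ 2) ≤ θ * Jc α F p := fun p hp hx => by
    have b := mul_le_mul_of_nonneg_right (gθ p hp hx) (sq_nonneg (d0 α p))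
    refine (mul_le_mul_of_nonneg_right (h p hp).1 (by positivity)).trans ?_
    rw [eJ p hp, show d1 F p = _ from dF _ p, show pd (ee 1) G p = _ from (hy.eq p hp).2,
      ← mul_assoc, mul_comm θ, θi]
    nlinarith
  obtain ⟨iW, eW⟩ := int_box_inv (a := -r) (b := r) (2 * (M₁ ^ 2 * θ / c)) (2 * Ks) (by linarith)
    (half_pos a0) (show t ^ 4 / 2 / 2 ≤ 2 * x₀ by linarith)
  obtain ⟨iΦ, hI⟩ := hL _ α F _ _ B ε (isOpen_Bx _ _ _ _) hy.ca cF hχ ε0 iW
    (fun p => indicator_nonneg (fun p hp => by have := (Qp_x (sub hp)).1; positivity) p)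
    fun p hp => ⟨hB ε ε0 ε1 p (sub hp), J0 p (sub hp), by
      have dx := x1.differentiable (by simp) p.1
      have dl := l1.differentiable (by simp) p.2
      have db := b1.differentiable (by simp) p.2
      have p0 := (Qp_x (sub hp)).1
      have j0 := J0 p (sub hp)
      have m0 := mm_pos (α p) (F p) ε0
      rw [indicator_of_mem hp, d0_prod dx (dl.fun_mul db), d1_prod dx (dl.fun_mul db),
        show 2 * (M₁ ^ 2 * θ / c) * p.2⁻¹ + 2 * Ks = 2 * (M₁ ^ 2 * (θ / (c * p.2)) + Ks) by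
          field_simp]
      refine z_bd ε0.le j0 (by positivity) ?_ ?_
      · rw [mul_assoc]
        refine mul_le_mul (sq_mul_le (x7 _) ⟨mul_nonneg (l2 _).1 (b4 _).1,
          mul_le_one₀ (l2 _).2 (b4 _).1 (b4 _).2⟩) ?_ (by positivity) (sq_nonneg _)
        rw [div_mul_eq_mul_div, le_div_iff₀' (by positivity)]
        exact kx p (sub hp) hp.2.2.le
      · have k := ks p (sub hp) hp.2.2.le
        have mε : ε ≤ mm (α p) (F p) ε := le_add_of_nonneg_left (by positivity)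
        rw [deriv_fun_mul dl db, mul_comm (χ p.1), ← mul_assoc]
        refine mul_le_mul ?_ k (by positivity) (by positivity)
        rcases le_or_gt p.2 (t ^ 4) with e | e
        · rw [b6 _ ⟨p0.le, e.trans t4⟩, mul_zero, add_zero, mul_assoc]
          have u := sq_mul_le (l6 p.2) ⟨mul_nonneg (b4 p.2).1 (x4 p.1).1,
            mul_le_one₀ (b4 _).2 (x4 _).1 (x4 _).2⟩
          refine (mul_le_mul u (dec p (sub hp) e) (by positivity) (sq_nonneg _)).trans ?_
          have v : (M / (t ^ 4 / 2)) ^ 2 * (θ⁻¹ ^ 2 * A * ε * ε)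
              = 4 * M ^ 2 * (θ⁻¹ ^ 2 * A) * ε / t ^ 8 * ε := by field_simp; ring
          rw [v]
          exact mul_le_mul (((div_le_one (by positivity)).2 e1).trans
            (le_add_of_nonneg_right (sq_nonneg _))) mε ε0.le (by positivity)
        · rw [l5 _ (by linarith), zero_mul, zero_add, mul_comm (lo p.2), mul_assoc]
          exact mul_le_mul ((sq_mul_le (b7 _) ⟨mul_nonneg (l2 _).1 (x4 _).1,
            mul_le_one₀ (l2 _).2 (x4 _).1 (x4 _).2⟩).trans (le_add_of_nonneg_left zero_le_one))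
            (le_add_of_nonneg_right ε0.le) (by positivity) (by positivity)⟩
  have Φ0 : ∀ p : P, 0 ≤ (χ p.1 * (lo p.2 * βh p.2)) ^ 2
      * (Jc α F p * dens B (mm (α p) (F p) ε)) := fun p => by
    by_cases hp : p ∈ Bx (-r) r (t ^ 4 / 2 / 2) (2 * x₀)
    · exact mul_nonneg (sq_nonneg _) (mul_nonneg (J0 p (sub hp))
        (dens_pos (mm_pos _ _ ε0) (hB ε ε0 ε1 p (sub hp))).le)
    · rw [show χ p.1 * (lo p.2 * βh p.2) = 0 from hχ.off hp]; simp
  have t40 : 0 < t ^ 4 := by positivity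
  have lx : Real.log x₀ ≤ 0 := Real.log_nonpos x00.le (by linarith)
  have key := slice_v (D := (-(3 / 4) * Real.log t + Real.log (κ / 2)
      - Real.log (B - Real.log η)) / (16 * θ / c)) iΦ Φ0 (show -(r / 2) ≤ r / 2 by linarith) t4
    fun s hs => by
      obtain ⟨z, hz, hz'⟩ := hη s (Ioo_subset_Icc_self hs)
      have ms : ∀ x ∈ Ioc 0 x₀, ((s, x) : P) ∈ Qp 0 r := fun x hx =>
        mem_Qp.2 ⟨abs_lt.2 ⟨by linarith [hs.1], by linarith [hs.2]⟩, hx.1,
          hx.2.trans_lt (by linarith)⟩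
      have mem : ∀ x ∈ Icc (t ^ 4) x₀, ((s, x) : P) ∈ Qp 0 r := fun x hx =>
        ms x ⟨t40.trans_le hx.1, hx.2⟩
      have zt : t ^ 4 ≤ z := not_lt.1 fun e => by
        linarith [dec' _ (ms z ⟨hz.1, hz.2.le⟩) e.le]
      have cs : Continuous fun x : ℝ => ((s, x) : P) := by fun_prop
      have sg := hS (t ^ 4) x₀ B ε (fun x => α (s, x)) (fun x => F (s, x)) (fun x => d1 α (s, x))
        (fun x => d1 F (s, x)) (fun x => 16 * x) t4 ε0 (fun x => ⟨hy.ca.s1 s x, cF.s1 s x⟩)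
        ((hy.ca.cp _).comp cs) ((cF.cp _).comp cs) (by fun_prop)
        (fun x hx => ⟨by linarith [hx.1], hB ε ε0 ε1 _ (mem x hx)⟩) _ (left_mem_Icc.2 t4) z
        ⟨zt, hz.2.le⟩
      have cd := (ct_dens hy.ca cF ε0 (hB ε ε0 ε1)).comp cs.continuousOn mem
      have u1 : Real.log (κ / 2) - Real.log t
          ≤ Real.log (B - Real.log (mm (α (s, t ^ 4)) (F (s, t ^ 4)) ε)) := by
        rw [← Real.log_div κ2.ne' t0.ne']
        refine Real.log_le_log (by positivity) ?_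
        have a := Real.log_le_log (mm_pos (α (s, t ^ 4)) (F (s, t ^ 4)) ε0) (y := 2 * ε) (by
          have := dec' _ (mem _ (left_mem_Icc.2 t4)) le_rfl
          unfold mm; linarith)
        rw [Real.log_mul two_ne_zero ε0.ne', show Real.log ε = _ from Real.log_exp _] at a
        linarith [Real.log_le_sub_one_of_pos two_pos]
      have u2 : Real.log (B - Real.log (mm (α (s, z)) (F (s, z)) ε)) ≤ Real.log (B - Real.log η) :=
        Real.log_le_log (by linarith [hB ε ε0 ε1 _ (mem _ ⟨zt, hz.2.le⟩)]) (sub_le_sub_left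
          (Real.log_le_log η0 (hz'.le.trans (le_add_of_nonneg_right ε0.le))) B)
      have u3 := intervalIntegral.integral_mono_on (μ := volume) t4
        (f := fun x => 16 * x * (d1 α (s, x) ^ 2 + d1 F (s, x) ^ 2)
          * dens B (mm (α (s, x)) (F (s, x)) ε))
        (g := fun x => 16 * θ / c * ((χ s * (lo x * βh x)) ^ 2
          * (Jc α F (s, x) * dens B (mm (α (s, x)) (F (s, x)) ε))))
        ((((continuous_const.mul continuous_id).mul ((((hy.ca.cp _).comp cs).pow 2).add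
          (((cF.cp _).comp cs).pow 2))).continuousOn.mul cd).intervalIntegrable_of_Icc t4)
        ((continuousOn_const.mul (((continuous_const.mul (l1.continuous.mul b1.continuous)).pow
          2).continuousOn.mul (((ct_Jc hy.ca cF).comp cs).continuousOn.mul
            cd))).intervalIntegrable_of_Icc t4)
        fun x hx => by
          rw [x5 s (Ioo_subset_Icc_self hs), l4 x (by linarith [hx.1]),
            b5 x ⟨t40.le.trans hx.1, hx.2⟩, one_mul, one_mul, one_pow, one_mul, ← mul_assoc]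
          refine mul_le_mul_of_nonneg_right ?_
            (dens_pos (mm_pos _ _ ε0) (hB ε ε0 ε1 _ (mem x hx))).le
          have := kx _ (mem x hx) (by linarith [hx.2])
          rw [div_mul_eq_mul_div, le_div_iff₀' c0]
          linarith
      have u4 : ∫ x in t ^ 4..x₀, (16 * x)⁻¹ = 16⁻¹ * (Real.log x₀ - 4 * Real.log t) := by
        simp only [mul_inv]
        rw [intervalIntegral.integral_const_mul, integral_inv_of_pos t40 x00,
          Real.log_div x00.ne' t40.ne', Real.log_pow]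
        norm_num
      rw [intervalIntegral.integral_const_mul] at u3
      rw [div_le_iff₀' (by positivity)]
      linarith
  have fin := (key.trans hI).trans_eq eW
  have el : Real.log (2 * x₀ / (t ^ 4 / 2 / 2)) = Real.log 8 + Real.log x₀ - 4 * Real.log t := by
    rw [show 2 * x₀ / (t ^ 4 / 2 / 2) = 8 * x₀ / t ^ 4 by field_simp; norm_num,
      Real.log_div (by positivity) t40.ne', Real.log_mul (by norm_num) x00.ne', Real.log_pow]
    norm_num
  rw [el, show r / 2 - -(r / 2) = r by ring, show r - -r = r * 2 by ring, mul_assoc,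
    mul_le_mul_iff_right₀ r0, div_le_iff₀' (by positivity)] at fin
  have l8 : 0 ≤ Real.log 8 := Real.log_nonneg (by norm_num)
  have lt : Real.log t ≤ 0 := Real.log_nonpos t0.le t2
  have q1 : 64 * M₁ ^ 2 * θ ^ 2 / c ^ 2 ≤ 1 / 16 := by
    rw [div_le_iff₀ (by positivity), θ2]; linarith
  have q2 : θ * (2 * x₀ - t ^ 4 / 2 / 2) ≤ 1 := mul_le_one₀ θ1 (by linarith) (by linarith)
  have q3 : 16 * θ / c * (2 * (2 * (M₁ ^ 2 * θ / c) * (Real.log 8 + Real.log x₀ - 4 * Real.log t)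
      + 2 * Ks * (2 * x₀ - t ^ 4 / 2 / 2))) = 64 * M₁ ^ 2 * θ ^ 2 / c ^ 2
        * (Real.log 8 + Real.log x₀ - 4 * Real.log t)
        + 64 * Ks / c * (θ * (2 * x₀ - t ^ 4 / 2 / 2)) := by field_simp; ring
  have q4 := mul_le_mul_of_nonneg_left q2 (show 0 ≤ 64 * Ks / c by positivity)
  have q5 := mul_le_mul_of_nonneg_left (show Real.log 8 + Real.log x₀ - 4 * Real.log t
    ≤ Real.log 8 - 4 * Real.log t by linarith) (show 0 ≤ 64 * M₁ ^ 2 * θ ^ 2 / c ^ 2 by positivity)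
  have q6 := mul_le_mul_of_nonneg_right q1 (show 0 ≤ Real.log 8 - 4 * Real.log t by linarith)
  rw [q3] at fin
  linarith

end Pool.Agent.MP_ed9623_an.U81
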