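import Pool.Agent.MP_ed9623_an.U81.K2a
import Pool.Agent.MP_ed9623_an.U81.K3

/-! Decay in the mean. -/

open MeasureTheory Filter Topology Set
open scoped ContDiff

namespace Pool.Agent.MP_ed9623_an.U81

open H64 H77

theorem int_box_val {a b c d : ℝ} (K : ℝ) (hab : a ≤ b) (hcd : c ≤ d) :
    ∫ p, (Bx a b c d).indicator (fun _ => K) p = (b - a) * (d - c) * K := by
  rw [integral_indicator (isOpen_Bx a b c d).measurableSet, setIntegral_const, smul_eq_mul, Bx,
    Measure.volume_eq_prod, measureReal_prod_prod, Real.volume_real_Ioo_of_le hab,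
    Real.volume_real_Ioo_of_le hcd]

theorem le_of_small {a b Y δ : ℝ} (hδ : 0 < δ) (h : ∀ ε, 0 < ε → ε < δ → a ≤ b + ε * Y) : a ≤ b := by
  have t : Tendsto (fun ε : ℝ => b + ε * Y) (𝓝 0) (𝓝 (b + 0 * Y)) :=
    (continuous_const.add (continuous_id.mul continuous_const)).tendsto 0
  rw [zero_mul, add_zero] at t
  refine ge_of_tendsto (t.mono_left (nhdsWithin_le_nhds (s := Ioi 0))) ?_
  filter_upwards [Ioo_mem_nhdsGT hδ] with ε hε using h ε hε.1 hε.2

theorem KB.C0 {r c C : ℝ} {g : P → ℝ} (h : KB r c C g) : 0 < C := by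
  have r0 := h.r0
  have hm : ((0, r / 2) : P) ∈ Qp 0 r := mem_Qp.2 ⟨by simpa using r0, half_pos r0, half_lt_self r0⟩
  have := (h.pos hm).trans_le (h.bd _ hm).2.1
  nlinarith

theorem sq_dec {u C x : ℝ} (hx : 0 ≤ x) (h : |u| ≤ C * (x * √x)) : u ^ 2 ≤ C ^ 2 * x ^ 3 := by
  have := pow_le_pow_left₀ (abs_nonneg u) h 2
  rwa [sq_abs, mul_pow, mul_pow, Real.sq_sqrt hx, ← pow_succ] at this

theorem rowK2 : OfK2 := by
  intro h2a r c C C' g α G hk hy hd
  have r0 := hk.r0
  have r1 := hk.r1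
  have c0 := hk.c0
  have C0 := hk.C0
  set N₀ := (C + 1) * C' ^ 2 with hN₀
  have N0 : 0 ≤ N₀ := by positivity
  have n0 : ∀ p ∈ Qp 0 r, 0 ≤ g p * α p ^ 2 + G p ^ 2 := fun p hp => by
    have := hk.pos hp
    positivity
  have hN : ∀ p ∈ Qp 0 r, g p * α p ^ 2 + G p ^ 2 ≤ N₀ * p.2 ^ 3 := fun p hp => by
    have x := Qp_x hp
    have a := mul_le_mul ((hk.bd p hp).2.1.trans (mul_le_of_le_one_right C0.le (x.2.le.trans r1)))
      (sq_dec x.1.le (hd p hp).1) (sq_nonneg _) C0.le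
    have b := sq_dec x.1.le (hd p hp).2
    rw [hN₀]; linarith
  have hN2 : ∀ p ∈ Qp 0 r, (g p * α p ^ 2 + G p ^ 2) / p.2 ≤ N₀ * p.2 ^ 2 := fun p hp => by
    rw [div_le_iff₀ (Qp_x hp).1]; exact (hN p hp).trans_eq (by ring)
  have cN : Continuous fun p => g p * α p ^ 2 + G p ^ 2 :=
    (hk.cg.continuous.mul (hy.ca.continuous.pow 2)).add (hy.cg.continuous.pow 2)
  obtain ⟨χ, M₁, x1, x2, x3, x4, x5, x6, -, x7⟩ :=
    exists_bump (a := -r) (a' := -(r / 2)) (b' := r / 2) (b := r) (by linarith) (by linarith)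
  obtain ⟨βh, M₂, b1, b2, b3, b4, b5, b6, -, b7⟩ :=
    exists_bump (a := -1) (a' := 0) (b' := r / 2) (b := r) (by linarith) (by linarith)
  obtain ⟨M, -, hM⟩ := exists_scaled
  refine ⟨4 * (4 * N₀ * M₁ ^ 2 / c * Real.exp 96 + 2 * M₂ ^ 2 * N₀ * Real.exp c),
    c * r / 12288 * r / 8, by positivity, fun x₀ x00 x0r => ?_⟩
  obtain ⟨t, ht⟩ : ∃ t, t = √√x₀ := ⟨_, rfl⟩
  have t0 : 0 < t := ht ▸ ss_pos x00
  have t1 : t ≤ 1 := ht ▸ Real.sqrt_le_one.2 (Real.sqrt_le_one.2 (by linarith))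
  have t4 : t ^ 4 = x₀ := ht ▸ ss_pow x00.le
  obtain ⟨T, hT⟩ : ∃ T, T = c * r / 12288 / t := ⟨_, rfl⟩
  have T0 : 0 < T := by rw [hT]; positivity
  obtain ⟨l, hl⟩ : ∃ l, l = 8 * T ^ 2 / c + 1 := ⟨_, rfl⟩
  have l1 : 1 ≤ l := by rw [hl]; exact le_add_of_nonneg_left (by positivity)
  have l0 : 0 < l := by linarith
  set E := Real.exp (l * (96 * t)) with hE
  have E0 : 0 < E := Real.exp_pos _
  set Wa := 4 * N₀ * M₁ ^ 2 / c * (E * Real.exp (-(T * r / 4))) with hWa
  set Wb := 2 * M₂ ^ 2 * N₀ * Real.exp (-(24 * l * r)) with hWb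
  set Wc := 8 * M ^ 2 * N₀ * E with hWc
  set m := Real.exp (-(T * r / 16)) with hm
  have m0 : 0 < m := Real.exp_pos _
  have a0 : 0 ≤ Wa := by positivity
  have b0 : 0 ≤ Wb := by positivity
  have w0 : 0 ≤ Wc := by positivity
  have cγ : ContDiff ℝ ∞ fun s : ℝ => Real.exp (-(T * s ^ 2 / (2 * r))) := by fun_prop
  have dγ : ∀ s, deriv (fun s => χ s * Real.exp (-(T * s ^ 2 / (2 * r)))) s
      = (deriv χ s - T * (s / r) * χ s) * Real.exp (-(T * s ^ 2 / (2 * r))) := fun s => by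
    refine ((x1.differentiable (by simp) s).hasDerivAt.fun_mul
      ((((hasDerivAt_pow 2 s).const_mul T).div_const (2 * r)).fun_neg.exp)).deriv.trans ?_
    field_simp
    ring
  have γ2 : ∀ s : ℝ, Real.exp (-(T * s ^ 2 / (2 * r))) ^ 2 = Real.exp (-(T * s ^ 2 / r)) :=
    fun s => by rw [sq, ← Real.exp_add]; congr 1; field_simp; ring
  have γ1 : ∀ s : ℝ, 0 ≤ Real.exp (-(T * s ^ 2 / (2 * r))) ∧ Real.exp (-(T * s ^ 2 / (2 * r))) ≤ 1 :=
    fun s => ⟨(Real.exp_pos _).le, Real.exp_le_one_iff.2 (neg_nonpos.2 (by positivity))⟩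
  have main : ∫ p in Bx (-(r / 4)) (r / 4) 0 x₀, (g p * α p ^ 2 + G p ^ 2) ≤ 4 * (Wa + Wb) / m := by
    refine le_of_small (Y := 12 * Wc / m + 3 * N₀) (half_pos x00) fun ε ε0 ε1 => ?_
    obtain ⟨lo, k1, k2, k3, k4, k5, k6⟩ := hM ε ε0
    have sS : Bx (-(r / 4)) (r / 4) (2 * ε) x₀ ⊆ Qp 0 r := fun p hp =>
      mem_Qp.2 ⟨abs_lt.2 ⟨by linarith [hp.1.1], by linarith [hp.1.2]⟩, by linarith [hp.2.1],
        by linarith [hp.2.2]⟩
    have key := h2a r c C l (96 * t) (fun x => lo x * βh x)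
      (fun s => χ s * Real.exp (-(T * s ^ 2 / (2 * r)))) g α G hk hy l0.le
      (contDiff_infty.1 (k1.mul b1) 1) b2.mul_left (fun x hx => ⟨ε0.trans_le
        (closure_minimal (s := Function.support fun x => lo x * βh x) (t := Ici ε)
          (fun y hy => mem_Ici.2 (not_lt.1 fun e => hy (by simp [k3 y e.le]))) isClosed_Ici hx),
        (b3 (tsupport_mul_subset_right hx)).2⟩) (contDiff_infty.1 (x1.mul cγ) 1) x2.mul_right
      (tsupport_mul_subset_left.trans x3) _
      ((int_box (-r) r 0 r (Wa + Wb)).add (int_box (-r) r 0 (3 * ε) Wc))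
      (fun p => add_nonneg (indicator_nonneg (fun _ _ => add_nonneg a0 b0) p)
        (indicator_nonneg (fun _ _ => w0) p)) (fun p hp => ?_) _ m
      (isOpen_Bx _ _ _ _).measurableSet sS m0.le fun p hp => ?_
    · rw [integral_add' (int_box _ _ _ _ _) (int_box _ _ _ _ _), int_box_val _ (by linarith) r0.le,
        int_box_val _ (by linarith) (by linarith)] at key
      have split : ∫ p in Bx (-(r / 4)) (r / 4) 0 x₀, (g p * α p ^ 2 + G p ^ 2)
          ≤ (∫ p in Bx (-(r / 4)) (r / 4) (2 * ε) x₀, (g p * α p ^ 2 + G p ^ 2))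
            + (r / 4 - -(r / 4)) * (3 * ε - 0) * N₀ := by
        have i1 := (integrable_indicator_iff (isOpen_Bx _ _ _ _).measurableSet).2
          (int_bdd (bdd_Bx (-(r / 4)) (r / 4) 0 x₀) cN)
        have i2 := (integrable_indicator_iff (isOpen_Bx _ _ _ _).measurableSet).2
          (int_bdd (bdd_Bx (-(r / 4)) (r / 4) (2 * ε) x₀) cN)
        rw [← int_box_val _ (by linarith) (by linarith),
          ← integral_indicator (isOpen_Bx _ _ _ _).measurableSet,
          ← integral_indicator (isOpen_Bx _ _ _ _).measurableSet,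
          ← integral_add i2 (int_box _ _ _ _ _)]
        refine integral_mono i1 (i2.add (int_box _ _ _ _ _)) fun p => ?_
        have z1 : 0 ≤ (Bx (-(r / 4)) (r / 4) (2 * ε) x₀).indicator
          (fun p => g p * α p ^ 2 + G p ^ 2) p := indicator_nonneg (fun p hp => n0 p (sS hp)) p
        have z2 : 0 ≤ (Bx (-(r / 4)) (r / 4) 0 (3 * ε)).indicator (fun _ => N₀) p :=
          indicator_nonneg (fun _ _ => N0) p
        by_cases hp : p ∈ Bx (-(r / 4)) (r / 4) 0 x₀
        · rw [indicator_of_mem hp]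
          rcases lt_or_ge (2 * ε) p.2 with e | e
          · rw [indicator_of_mem (show p ∈ Bx _ _ _ _ from ⟨hp.1, e, hp.2.2⟩)]
            exact le_add_of_nonneg_right z2
          · have q : p ∈ Qp 0 r := mem_Qp.2 ⟨abs_lt.2 ⟨by linarith [hp.1.1], by linarith [hp.1.2]⟩,
              hp.2.1, by linarith [hp.2.2]⟩
            refine le_add_of_nonneg_of_le z1 ?_
            rw [indicator_of_mem (show p ∈ Bx _ _ _ _ from ⟨hp.1, hp.2.1, by linarith⟩)]
            exact (hN p q).trans (mul_le_of_le_one_right N0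
              (pow_le_one₀ hp.2.1.le ((Qp_x q).2.le.trans r1)))
        · rw [indicator_of_notMem hp]
          exact add_nonneg z1 z2
      rw [← le_div_iff₀' m0] at key
      have u1 : 2 * ((r - -r) * (r - 0) * (Wa + Wb) + (r - -r) * (3 * ε - 0) * Wc) / m
          ≤ (4 * (Wa + Wb) + ε * (12 * Wc)) / m := by
        refine div_le_div_of_nonneg_right ?_ m0.le
        have := mul_le_mul_of_nonneg_right (mul_le_one₀ r1 r0.le r1) (add_nonneg a0 b0)
        have := mul_le_mul_of_nonneg_right r1 (mul_nonneg ε0.le w0)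
        linarith
      have u2 := mul_le_mul_of_nonneg_right r1 (mul_nonneg ε0.le N0)
      rw [add_div, mul_div_assoc ε] at u1
      linarith [mul_nonneg ε0.le N0]
    · obtain ⟨s1, p0, p1⟩ := mem_Qp.1 hp
      have dl := k1.differentiable (by simp) p.2
      have db := b1.differentiable (by simp) p.2
      have n := n0 p hp
      have n2 := hN2 p hp
      have x1' : p.2 ^ 2 ≤ 1 := pow_le_one₀ p0.le (p1.le.trans r1)
      have hβ : 0 ≤ lo p.2 * βh p.2 ∧ lo p.2 * βh p.2 ≤ 1 :=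
        ⟨mul_nonneg (k2 _).1 (b4 _).1, mul_le_one₀ (k2 _).2 (b4 _).1 (b4 _).2⟩
      have hχ : 0 ≤ χ p.1 * Real.exp (-(T * p.1 ^ 2 / (2 * r))) ∧
          χ p.1 * Real.exp (-(T * p.1 ^ 2 / (2 * r))) ≤ 1 :=
        ⟨mul_nonneg (x4 _).1 (γ1 _).1, mul_le_one₀ (x4 _).2 (γ1 _).1 (γ1 _).2⟩
      have eE : Real.exp (l * (96 * t - 96 * √√p.2)) ≤ E := Real.exp_le_exp.2
        (mul_le_mul_of_nonneg_left (by linarith [Real.sqrt_nonneg √p.2]) l0.le)
      have e0 := Real.exp_pos (l * (96 * t - 96 * √√p.2))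
      have t1 : 2 * (Real.exp (l * (96 * t - 96 * √√p.2)) * ((g p * α p ^ 2 + G p ^ 2) / p.2)
          * (deriv (fun x => lo x * βh x) p.2 * (χ p.1 * Real.exp (-(T * p.1 ^ 2 / (2 * r))))) ^ 2)
          ≤ Wb + (Bx (-r) r 0 (3 * ε)).indicator (fun _ => Wc) p := by
        have z2 : 0 ≤ (Bx (-r) r 0 (3 * ε)).indicator (fun _ => Wc) p :=
          indicator_nonneg (fun _ _ => w0) p
        rw [deriv_fun_mul dl db]
        rcases le_or_gt p.2 (2 * ε) with e | e
        · rw [b6 _ ⟨p0.le, by linarith⟩, mul_zero, add_zero, mul_assoc (deriv lo p.2),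
            indicator_of_mem (show p ∈ Bx _ _ _ _ from ⟨abs_lt.1 s1, p0, by linarith⟩)]
          have u := sq_mul_le (k6 p.2) ⟨mul_nonneg (b4 p.2).1 hχ.1, mul_le_one₀ (b4 _).2 hχ.1 hχ.2⟩
          have v := mul_le_mul (mul_le_mul eE (n2.trans (mul_le_mul_of_nonneg_left
            (pow_le_pow_left₀ p0.le e 2) N0)) (by positivity) E0.le) u (sq_nonneg _) (by positivity)
          have w : E * (N₀ * (2 * ε) ^ 2) * (M / ε) ^ 2 = Wc / 2 := by rw [hWc]; field_simp; ring
          linarith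
        · rw [k5 _ e, zero_mul, zero_add]
          rcases le_or_gt p.2 (r / 2) with e' | e'
          · rw [b6 _ ⟨p0.le, e'⟩]
            simpa using add_nonneg b0 z2
          · have a1 : 2 * t ≤ √√p.2 := by
              refine Real.le_sqrt_of_sq_le (Real.le_sqrt_of_sq_le ?_)
              nlinarith
            have a2 := le_ss p0.le (p1.le.trans r1)
            have a3 : Real.exp (l * (96 * t - 96 * √√p.2)) ≤ Real.exp (-(24 * l * r)) :=
              Real.exp_le_exp.2 (by nlinarith)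
            have u := sq_mul_le (b7 p.2) ⟨mul_nonneg (k2 p.2).1 hχ.1, mul_le_one₀ (k2 _).2 hχ.1 hχ.2⟩
            have v := mul_le_mul (mul_le_mul a3 (n2.trans (mul_le_of_le_one_right N0 x1'))
              (by positivity) (Real.exp_pos _).le) u (sq_nonneg _) (by positivity)
            rw [mul_comm (lo p.2), mul_assoc (deriv βh p.2), hWb]
            linarith
      have t2 : 4 * (Real.exp (l * (96 * t - 96 * √√p.2)) * ((g p * α p ^ 2 + G p ^ 2) / p.2 / p.2)
          * (deriv χ p.1 * (lo p.2 * βh p.2)) ^ 2 * Real.exp (-(T * p.1 ^ 2 / (2 * r))) ^ 2) / c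
          ≤ Wa := by
        by_cases e : p.1 ∈ Icc (-(r / 2)) (r / 2)
        · rw [x6 _ e]
          simpa using a0
        · have a1 : (r / 2) ^ 2 ≤ p.1 ^ 2 := sq_le_sq.2 (by
            rw [abs_of_pos (half_pos r0)]; exact (not_le.1 fun a => e (abs_le.1 a)).le)
          have a2 : Real.exp (-(T * p.1 ^ 2 / r)) ≤ Real.exp (-(T * r / 4)) := by
            rw [Real.exp_le_exp, neg_le_neg_iff, le_div_iff₀ r0]; nlinarith
          have a3 : (g p * α p ^ 2 + G p ^ 2) / p.2 / p.2 ≤ N₀ := by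
            rw [div_le_iff₀ p0]
            exact n2.trans (mul_le_mul_of_nonneg_left (by nlinarith) N0)
          have v := mul_le_mul (mul_le_mul (mul_le_mul eE a3 (by positivity) E0.le)
            (sq_mul_le (x7 p.1) hβ) (sq_nonneg _) (by positivity)) a2 (Real.exp_pos _).le
            (by positivity)
          rw [γ2, hWa, div_mul_eq_mul_div]
          exact div_le_div_of_nonneg_right (by linarith) c0.le
      have s2 : (p.1 / r) ^ 2 ≤ 1 := by
        rw [div_pow, div_le_one (by positivity)]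
        exact sq_le_sq.2 (s1.le.trans (le_abs_self r))
      have t3 : (deriv χ p.1 - T * (p.1 / r) * χ p.1) ^ 2
          ≤ 2 * deriv χ p.1 ^ 2 + 2 * (T * χ p.1) ^ 2 := by
        nlinarith [sq_nonneg (deriv χ p.1 + T * (p.1 / r) * χ p.1),
          mul_le_mul_of_nonneg_left s2 (sq_nonneg (T * χ p.1))]
      have t4' := mul_le_mul_of_nonneg_left t3 (show 0 ≤ 2 * Real.exp (l * (96 * t - 96 * √√p.2))
        * ((g p * α p ^ 2 + G p ^ 2) / p.2 / p.2) * ((lo p.2 * βh p.2)
          * Real.exp (-(T * p.1 ^ 2 / (2 * r)))) ^ 2 / c by positivity)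
      have t5 : 0 ≤ Real.exp (l * (96 * t - 96 * √√p.2)) * ((g p * α p ^ 2 + G p ^ 2) / p.2 / p.2)
          * ((lo p.2 * βh p.2) * (χ p.1 * Real.exp (-(T * p.1 ^ 2 / (2 * r))))) ^ 2 := by positivity
      simp only [Pi.add_apply]
      rw [indicator_of_mem (show p ∈ Bx (-r) r 0 r from ⟨abs_lt.1 s1, p0, p1⟩), dγ]
      generalize Real.exp (l * (96 * t - 96 * √√p.2)) = u at *
      generalize Real.exp (-(T * p.1 ^ 2 / (2 * r))) = v at *
      generalize g p * α p ^ 2 + G p ^ 2 = w at *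
      generalize deriv (fun x => lo x * βh x) p.2 = y at *
      rw [hl]
      simp only [div_eq_mul_inv, mul_inv] at t1 t2 t4' t5 ⊢
      linarith
    · obtain ⟨s1, p0, p1⟩ := mem_Qp.1 (sS hp)
      have a1 : 1 ≤ Real.exp (l * (96 * t - 96 * √√p.2)) := Real.one_le_exp (mul_nonneg l0.le
        (by linarith [ss_le t0.le (hp.2.2.le.trans t4.ge)]))
      have a2 : p.1 ^ 2 ≤ (r / 4) ^ 2 := sq_le_sq' hp.1.1.le hp.1.2.le
      have a3 : m ≤ Real.exp (-(T * p.1 ^ 2 / r)) := by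
        rw [hm, Real.exp_le_exp, neg_le_neg_iff, div_le_iff₀ r0]; nlinarith
      rw [k4 _ hp.2.1.le, b5 _ ⟨p0.le, by linarith [hp.2.2]⟩,
        x5 _ ⟨by linarith [hp.1.1], by linarith [hp.1.2]⟩, one_mul, one_mul, one_mul, γ2]
      refine le_trans ?_ (le_mul_of_one_le_left (by positivity)
        ((one_le_div p0).2 (by linarith)))
      exact a3.trans (le_mul_of_one_le_left (by positivity) ((one_le_div p0).2 (by linarith)))
  refine main.trans ?_
  have eκ : c * r / 12288 * r / 8 / √√x₀ = T * r / 8 := by rw [hT, ← ht]; ring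
  have f1 : E * Real.exp (-(T * r / 4)) ≤ Real.exp 96 * Real.exp (-(T * r / 8)) * m := by
    rw [hE, hm, ← Real.exp_add, ← Real.exp_add, ← Real.exp_add, Real.exp_le_exp]
    have : l * (96 * t) = 96 * t + T * r / 16 := by
      rw [hl, sq]
      nth_rewrite 2 [hT]
      field_simp
      ring
    linarith
  have f2 : Real.exp (-(24 * l * r)) ≤ Real.exp c * Real.exp (-(T * r / 8)) * m := by
    rw [hm, ← Real.exp_add, ← Real.exp_add, Real.exp_le_exp]
    have a : 3 * T / 16 ≤ c + 24 * l := by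
      have : 3 * T / 16 - c ≤ 192 * T ^ 2 / c := by
        rw [le_div_iff₀ c0]; nlinarith [sq_nonneg (c - T), sq_nonneg T]
      rw [hl]
      simp only [div_eq_mul_inv] at this ⊢
      linarith
    nlinarith [mul_le_mul_of_nonneg_right a r0.le, mul_le_mul_of_nonneg_left r1 c0.le]
  rw [eκ, div_le_iff₀ m0]
  have g1 := mul_le_mul_of_nonneg_left f1 (show 0 ≤ 4 * N₀ * M₁ ^ 2 / c by positivity)
  have g2 := mul_le_mul_of_nonneg_left f2 (show 0 ≤ 2 * M₂ ^ 2 * N₀ by positivity)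
  rw [hWa, hWb]
  linarith

end Pool.Agent.MP_ed9623_an.U81
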