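import Pool.Agent.MP_ed9623_an.U81.K1

/-! The Carleman inequality for a cut-off solution. -/

open MeasureTheory Filter Topology Set
open scoped ContDiff

namespace Pool.Agent.MP_ed9623_an.U81

open H64 H77

theorem int_bdd {S : Set P} {m : P → ℝ} (hb : Bornology.IsBounded S) (hm : Continuous m) :
    IntegrableOn m S :=
  (hm.continuousOn.integrableOn_compact hb.isCompact_closure).mono_set subset_closure

theorem ss_pos {x : ℝ} (hx : 0 < x) : 0 < √√x := Real.sqrt_pos.2 (Real.sqrt_pos.2 hx)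

theorem ss_pow {x : ℝ} (hx : 0 ≤ x) : √√x ^ 4 = x := by
  rw [show √√x ^ 4 = (√√x ^ 2) ^ 2 by ring, Real.sq_sqrt (Real.sqrt_nonneg x), Real.sq_sqrt hx]

theorem le_ss {x : ℝ} (hx : 0 ≤ x) (h1 : x ≤ 1) : x ≤ √√x := by
  have a : √√x ≤ 1 := Real.sqrt_le_one.2 (Real.sqrt_le_one.2 h1)
  exact (ss_pow hx).symm.trans_le (pow_le_of_le_one (Real.sqrt_nonneg _) a (by norm_num))

theorem hasDeriv_ss {x : ℝ} (hx : 0 < x) : HasDerivAt (fun x => √√x) (√√x / (4 * x)) x := by
  have s := Real.sqrt_pos.2 hx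
  have t := ss_pos hx
  refine ((Real.hasDerivAt_sqrt hx.ne').sqrt s.ne').congr_deriv ?_
  have e : √x = √√x ^ 2 := (Real.sq_sqrt s.le).symm
  have e' := ss_pow hx.le
  generalize √√x = u at *
  rw [e, ← e']
  field_simp
  norm_num

/-- The weight. -/
noncomputable def wt (l a x : ℝ) : ℝ := Real.exp (l * (a - 96 * √√x) / 2) / √x

theorem wt_sq (l a : ℝ) {x : ℝ} (hx : 0 ≤ x) : wt l a x ^ 2 = Real.exp (l * (a - 96 * √√x)) / x := by
  rw [wt, div_pow, Real.sq_sqrt hx, sq, ← Real.exp_add, add_halves]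

theorem wt_cd (l a : ℝ) {x : ℝ} (hx : 0 < x) : ContDiffAt ℝ (1 : ℕ) (wt l a) x := by
  have s := Real.sqrt_pos.2 hx
  have c : ContDiffAt ℝ (1 : ℕ) (fun x : ℝ => √x) x := Real.contDiffAt_sqrt hx.ne'
  exact (((contDiffAt_const.mul (contDiffAt_const.sub (contDiffAt_const.mul
    (c.sqrt s.ne')))).div_const 2).exp).div c s.ne'

theorem wt_deriv (l a : ℝ) {x : ℝ} (hx : 0 < x) :
    HasDerivAt (wt l a) (-((1 / (2 * x) + l * (12 * (√√x / x))) * wt l a x)) x := by
  have s := Real.sqrt_pos.2 hx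
  refine (((((((hasDeriv_ss hx).const_mul 96).const_sub a).const_mul l).div_const 2).exp).fun_div
    (Real.hasDerivAt_sqrt hx.ne') s.ne').congr_deriv ?_
  have e : √x ^ 2 = x := Real.sq_sqrt hx.le
  unfold wt
  generalize Real.exp _ = E
  generalize √√x = u
  generalize √x = v at *
  rw [← e]
  field_simp
  ring

theorem rowK2a : OfK2a := by
  intro hK1 r c C l a β χ g α G hk hy l0 b1 b2 b3 x1 x2 x3 W iW W0 hW S m mS sS m0 hm
  have hK : IsCompact (tsupport χ ×ˢ tsupport β) := IsCompact.prod x2 b2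
  have hs : tsupport χ ×ˢ tsupport β ⊆ Qp 0 r := fun p hp =>
    mem_Qp.2 ⟨abs_lt.2 (x3 hp.1), b3 hp.2⟩
  have z : ∀ u : P → ℝ, ∀ p : P, p ∉ tsupport χ ×ˢ tsupport β →
      wt l a p.2 * β p.2 * χ p.1 * u p = 0 := fun u p hp => by
    rcases not_and_or.1 hp with e | e <;> simp [image_eq_zero_of_notMem_tsupport e]
  have cv : ∀ {u : P → ℝ}, C1 u → C1 fun p => wt l a p.2 * β p.2 * χ p.1 * u p := fun hu =>
    c1_of_on hK.isClosed (fun p hp => ((((wt_cd l a (b3 hp.2).1).comp p contDiffAt_snd).mul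
      (b1.comp contDiff_snd).contDiffAt).mul (x1.comp contDiff_fst).contDiffAt).mul hu.contDiffAt)
      (z _)
  have db := fun x => (b1.differentiable (by simp) x).hasDerivAt
  have dx := fun x => (x1.differentiable (by simp) x).hasDerivAt
  have v0 : ∀ {u : P → ℝ}, C1 u → ∀ p, d0 (fun p => wt l a p.2 * β p.2 * χ p.1 * u p) p
      = wt l a p.2 * β p.2 * (deriv χ p.1 * u p + χ p.1 * d0 u p) := fun hu p =>
    (((((HD_x0 (wt l a) p).mul (HD_x0 β p)).mul (HD_s0 (dx _))).mul (hu.hd _ p)).congr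
      (by ring)).pd_eq ((cv hu).da p)
  have v1 : ∀ {u : P → ℝ}, C1 u → ∀ p ∈ Qp 0 r, d1 (fun p => wt l a p.2 * β p.2 * χ p.1 * u p) p
      = wt l a p.2 * χ p.1 * ((deriv β p.2 - (1 / (2 * p.2) + l * (12 * (√√p.2 / p.2))) * β p.2)
        * u p + β p.2 * d1 u p) := fun hu p hp =>
    (((((HD_x1 (wt_deriv l a (Qp_x hp).1)).mul (HD_x1 (db _))).mul (HD_s1 χ p)).mul
      (hu.hd _ p)).congr (by ring)).pd_eq ((cv hu).da p)
  have css : ContinuousOn (fun x : ℝ => √√x) (Ioo 0 r) := by fun_prop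
  have k1 := hK1 r c C (fun x => 1 / (2 * x) + l * (12 * (√√x / x)))
    (fun x => -(1 / (2 * x ^ 2)) - l * (9 * (√√x / x ^ 2))) (fun x => l / x) g _ _ _ hk (cv hy.ca)
    (cv hy.cg) hK hs (fun p hp => ⟨z _ p hp, z _ p hp⟩)
    ((continuousOn_const.div (by fun_prop) fun x hx => by have := hx.1; positivity).neg.sub
      (continuousOn_const.mul (continuousOn_const.mul
        (css.div (by fun_prop) fun x hx => by have := hx.1; positivity))))
    (continuousOn_const.div continuousOn_id fun x hx => hx.1.ne') fun x hx => by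
      have x0 := hx.1
      refine ⟨(((hasDerivAt_const x (1 : ℝ)).fun_div ((hasDerivAt_id' x).const_mul 2)
        (by positivity)).fun_add ((((hasDeriv_ss x0).fun_div (hasDerivAt_id' x)
          x0.ne').const_mul 12).const_mul l)).congr_deriv (by field_simp; ring), by positivity, ?_⟩
      have u := mul_le_mul_of_nonneg_left (le_ss x0.le (hx.2.le.trans hk.r1)) l0
      rw [← sub_nonneg]
      have e : -(-(1 / (2 * x ^ 2)) - l * (9 * (√√x / x ^ 2)))
          - 2 / (3 * x) * (1 / (2 * x) + l * (12 * (√√x / x))) - (1 / (9 * x ^ 2) + l / x)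
          = (1 / 18 + (l * √√x - l * x)) / x ^ 2 := by field_simp; ring
      rw [e]
      exact div_nonneg (by linarith) (sq_nonneg x)
  set Φ : P → ℝ := fun p => l / p.2 * (g p * (wt l a p.2 * β p.2 * χ p.1 * α p) ^ 2
    + (wt l a p.2 * β p.2 * χ p.1 * G p) ^ 2) with hΦ
  have zΦ : ∀ p, p ∉ tsupport χ ×ˢ tsupport β → Φ p = 0 := fun p hp => by
    simp only [hΦ, z _ p hp]; ring
  have eΦ : ∀ p ∈ Qp 0 r, Φ p = l / p.2 * (Real.exp (l * (a - 96 * √√p.2)) / p.2
      * (β p.2 * χ p.1) ^ 2) * (g p * α p ^ 2 + G p ^ 2) := fun p hp => by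
    rw [← wt_sq l a (Qp_x hp).1.le]; simp only [hΦ]; ring
  have iΦ : Integrable Φ := int_of_on hK ((continuousOn_const.div continuous_snd.continuousOn
    fun p hp => (b3 hp.2).1.ne').mul ((hk.cg.continuous.mul ((cv hy.ca).continuous.pow 2)).add
      ((cv hy.cg).continuous.pow 2)).continuousOn) zΦ
  have Φ0 : ∀ p, 0 ≤ Φ p := fun p => by
    by_cases hp : p ∈ tsupport χ ×ˢ tsupport β
    · have := (b3 hp.2).1
      have := hk.pos (hs hp)
      simp only [hΦ]; positivity
    · exact (zΦ p hp).ge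
  have zd := fun (u : P → ℝ) e p hp => pd_off hK.isClosed (z u) e (p := p) hp
  have k2 := k1.trans (integral_mono_of_nonneg (Eventually.of_forall fun p => by
      by_cases hp : p ∈ tsupport χ ×ˢ tsupport β
      · have := hk.pos (hs hp)
        simp only [Pi.zero_apply]; positivity
      · simp [z _ p hp, zd _ _ p hp]) ((iΦ.div_const 2).add iW) (Eventually.of_forall fun p => by
      simp only [Pi.add_apply]
      by_cases hp : p ∈ tsupport χ ×ˢ tsupport β
      · have q := hs hp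
        have g0 := hk.pos q
        have x0 := (Qp_x q).1
        have c0 := hk.c0
        refine le_trans ?_ ((hW p q).trans_eq (by rw [eΦ p q]; ring))
        rw [v0 hy.ca, v0 hy.cg, v1 hy.ca p q, v1 hy.cg p q, (hy.eq p q).1, (hy.eq p q).2,
          ← wt_sq l a x0.le]
        obtain ⟨H, hH⟩ : ∃ H, G p = g p * H := ⟨G p / g p, by field_simp⟩
        have i : 1 ≤ g p / (c * p.2) := (one_le_div (by positivity)).2 (hk.bd p q).1
        have j := mul_le_mul_of_nonneg_left i (show 0 ≤ 2 * (wt l a p.2 * (β p.2 * deriv χ p.1)) ^ 2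
          * (α p ^ 2 + g p * H ^ 2) by positivity)
        have e1 : wt l a p.2 * β p.2 * (deriv χ p.1 * G p + χ p.1 * -(g p * d1 α p)) / g p
            = wt l a p.2 * β p.2 * (deriv χ p.1 * H - χ p.1 * d1 α p) := by
          rw [hH]; field_simp; ring
        rw [e1, hH]
        have j1 := mul_nonneg g0.le (sq_nonneg (wt l a p.2
          * (deriv β p.2 * χ p.1 * α p - β p.2 * deriv χ p.1 * H)))
        have j2 := sq_nonneg (wt l a p.2
          * (deriv β p.2 * χ p.1 * (g p * H) + β p.2 * deriv χ p.1 * α p))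
        simp only [div_eq_mul_inv] at j ⊢
        nlinarith
      · simp [z _ p hp, zd _ _ p hp, zΦ p hp, W0 p]))
  rw [integral_add' (iΦ.div_const 2) iW, integral_div] at k2
  have cN : Continuous fun p => g p * α p ^ 2 + G p ^ 2 :=
    (hk.cg.continuous.mul (hy.ca.continuous.pow 2)).add (hy.cg.continuous.pow 2)
  have k3 := setIntegral_mono_on ((int_bdd ((bdd_Qp 0 r).subset sS) cN).const_mul m)
    iΦ.integrableOn mS fun p hp => by
      have := hk.pos (sS hp)
      rw [eΦ p (sS hp)]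
      exact mul_le_mul_of_nonneg_right (hm p hp) (by positivity)
  have k4 : ∫ p in S, Φ p ≤ ∫ p, Φ p := setIntegral_le_integral iΦ (Eventually.of_forall Φ0)
  rw [integral_const_mul] at k3
  linarith

end Pool.Agent.MP_ed9623_an.U81
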