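import Pool.Agent.MP_ed9623_an.U81.Jac

/-! The logarithmic area inequality. -/

open MeasureTheory Filter Topology Set
open scoped ContDiff

namespace Pool.Agent.MP_ed9623_an.U81

open H64 H77

theorem amgm {a b t : ℝ} (ha : 0 ≤ a) (hb : 0 ≤ b) (h : t ^ 2 ≤ a * b) : -(2 * t) ≤ a + b :=
  (neg_le_abs _).trans (abs_le_of_sq_le_sq (by nlinarith [sq_nonneg (a - b)]) (add_nonneg ha hb))

theorem lid_alg {χ J Z W n ε l : ℝ} (hn : 0 ≤ n) (hε : 0 < ε) (hl : 1 ≤ l) (hJ : 0 ≤ J)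
    (hW : 0 ≤ W) (hZ : Z ^ 2 ≤ W * (n + ε) * J) :
    χ ^ 2 * (J * (1 / ((n + ε) * l ^ 2))) ≤ 2 * (χ * ((n + ε) * l)⁻¹ * Z) + χ ^ 2 * J *
      (2 * ((n + ε) * l)⁻¹ - 2 * n * ((l - 1) / ((n + ε) * l) ^ 2)) + W := by
  have m0 : 0 < n + ε := by linarith
  have l0 : 0 < l := by linarith
  have a0 : 0 ≤ χ ^ 2 * (J * (1 / ((n + ε) * l ^ 2))) := by positivity
  have h1 := amgm (t := χ * ((n + ε) * l)⁻¹ * Z) a0 hW (by
    have e : χ ^ 2 * (J * (1 / ((n + ε) * l ^ 2))) * W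
        = (χ * ((n + ε) * l)⁻¹) ^ 2 * (W * (n + ε) * J) := by field_simp
    rw [e, mul_pow]
    exact mul_le_mul_of_nonneg_left hZ (sq_nonneg _))
  have e2 : 2 * ((n + ε) * l)⁻¹ - 2 * n * ((l - 1) / ((n + ε) * l) ^ 2)
      = 2 * (1 / ((n + ε) * l ^ 2)) + 2 * ε * ((l - 1) / ((n + ε) * l) ^ 2) := by
    field_simp
    ring
  have h2 : 0 ≤ χ ^ 2 * J * (2 * ε * ((l - 1) / ((n + ε) * l) ^ 2)) := by
    have : 0 ≤ l - 1 := by linarith
    positivity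
  rw [e2]
  nlinarith

theorem c1_mm {F₁ F₂ : P → ℝ} (h1 : C1 F₁) (h2 : C1 F₂) (ε : ℝ) :
    C1 fun p => mm (F₁ p) (F₂ p) ε := ((h1.pow 2).add (h2.pow 2)).add contDiff_const

theorem ct_dens {F₁ F₂ : P → ℝ} {K : Set P} {A ε : ℝ} (h1 : C1 F₁) (h2 : C1 F₂) (hε : 0 < ε)
    (h : ∀ p ∈ K, 1 + Real.log (mm (F₁ p) (F₂ p) ε) ≤ A) :
    ContinuousOn (fun p => dens A (mm (F₁ p) (F₂ p) ε)) K := by
  have cm := (c1_mm h1 h2 ε).continuous
  exact continuousOn_const.div (cm.mul ((continuous_const.sub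
    (cm.log fun p => (mm_pos _ _ hε).ne')).pow 2)).continuousOn fun p hp =>
      (mul_pos (mm_pos _ _ hε) (pow_pos (by linarith [h p hp]) 2)).ne'

theorem ct_Jc {u w : P → ℝ} (h1 : C1 u) (h2 : C1 w) : Continuous (Jc u w) :=
  ((h1.cp _).mul (h2.cp _)).sub ((h1.cp _).mul (h2.cp _))

theorem rowLid : OfLid := by
  intro hJ O F₁ F₂ χ W A ε hO h1 h2 hχ hε iW W0 h
  have hK : IsCompact (tsupport χ) := hχ.2.1
  have z : ∀ p, p ∉ tsupport χ → χ p = 0 := fun p hp => image_eq_zero_of_notMem_tsupport hp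
  have cχ := Test.c1 hχ
  have cm := c1_mm h1 h2 ε
  have m0 : ∀ p, 0 < mm (F₁ p) (F₂ p) ε := fun p => mm_pos _ _ hε
  have cl : C1 fun p => A - Real.log (mm (F₁ p) (F₂ p) ε) :=
    contDiff_const.sub (cm.log fun p => (m0 p).ne')
  set H : P → ℝ := fun p => (mm (F₁ p) (F₂ p) ε * (A - Real.log (mm (F₁ p) (F₂ p) ε)))⁻¹ with hH
  have ne : ∀ p ∈ tsupport χ, mm (F₁ p) (F₂ p) ε * (A - Real.log (mm (F₁ p) (F₂ p) ε)) ≠ 0 :=
    fun p hp => (mul_pos (m0 p) (by linarith [(h p (hχ.2.2 hp)).1])).ne'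
  have zu : ∀ F : P → ℝ, ∀ p, p ∉ tsupport χ → χ p * χ p * H p * F p = 0 := fun F p hp => by
    simp [z p hp]
  have cu : ∀ {F : P → ℝ}, C1 F → C1 fun p => χ p * χ p * H p * F p := fun hF =>
    c1_of_on hK.isClosed (fun p hp => ((cχ.mul cχ).contDiffAt.mul
      ((cm.mul cl).contDiffAt.inv (ne p hp))).mul hF.contDiffAt) (zu _)
  have du : ∀ {F : P → ℝ}, C1 F → ∀ e, ∀ p ∈ tsupport χ, pd e (fun p => χ p * χ p * H p * F p) p
      = 2 * χ p * pd e χ p * H p * F p - χ p ^ 2 * ((A - Real.log (mm (F₁ p) (F₂ p) ε) - 1)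
        / (mm (F₁ p) (F₂ p) ε * (A - Real.log (mm (F₁ p) (F₂ p) ε))) ^ 2)
          * (2 * F₁ p * pd e F₁ p + 2 * F₂ p * pd e F₂ p) * F p + χ p ^ 2 * H p * pd e F p :=
    fun {F} hF e p hp => by
      have a : HD e p (fun p => mm (F₁ p) (F₂ p) ε) (2 * F₁ p * pd e F₁ p + 2 * F₂ p * pd e F₂ p) := by
        have := (((h1.hd e p).mul (h1.hd e p)).add ((h2.hd e p).mul (h2.hd e p))).add
          (HD.const e p ε)
        simp only [mm, sq]
        exact this.congr (by ring)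
      have b : HasDerivAt (fun t => (t * (A - Real.log t))⁻¹) _ (mm (F₁ p) (F₂ p) ε) :=
        ((hasDerivAt_id _).fun_mul ((Real.hasDerivAt_log (m0 p).ne').const_sub A)).fun_inv (ne p hp)
      refine (((((cχ.hd e p).mul (cχ.hd e p)).mul (HD.comp b a)).mul (hF.hd e p)).congr ?_).pd_eq
        ((cu hF).da p)
      have := (m0 p).ne'
      simp only [hH]
      field_simp
      ring
  have J1 := hJ _ F₂ (cu h1) (cs_of_off hK (zu _)) h2
  have J2 := hJ _ F₁ (cu h2) (cs_of_off hK (zu _)) h1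
  have zJ : ∀ {F F' : P → ℝ}, ∀ p, p ∉ tsupport χ → Jc (fun p => χ p * χ p * H p * F p) F' p = 0 :=
    fun p hp => by simp only [Jc, pd_off hK.isClosed (zu _) _ hp, zero_mul, sub_zero]
  have i1 := int_of_on hK (ct_Jc (cu h1) h2).continuousOn zJ
  have i2 := int_of_on hK (ct_Jc (cu h2) h1).continuousOn zJ
  have iL := int_of_on (u := fun p => χ p ^ 2 * (Jc F₁ F₂ p * dens A (mm (F₁ p) (F₂ p) ε))) hK
    ((hχ.ct.pow 2).continuousOn.mul ((ct_Jc h1 h2).continuousOn.mul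
      (ct_dens h1 h2 hε fun p hp => (h p (hχ.2.2 hp)).1))) fun p hp => by simp [z p hp]
  refine ⟨iL, ?_⟩
  have key := integral_mono iL ((i1.sub i2).add iW) fun p => by
    simp only [Pi.add_apply, Pi.sub_apply]
    by_cases hp : p ∈ tsupport χ
    · obtain ⟨a, b, c⟩ := h p (hχ.2.2 hp)
      refine (lid_alg (χ := χ p) (n := F₁ p ^ 2 + F₂ p ^ 2)
        (l := A - Real.log (mm (F₁ p) (F₂ p) ε)) (by positivity) hε (by linarith) b (W0 p) c).trans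
        (le_of_eq ?_)
      simp only [Jc, d0, d1]
      rw [du h1 _ p hp, du h1 _ p hp, du h2 _ p hp, du h2 _ p hp]
      simp only [hH, mm]
      ring
    · simp [z p hp, zJ p hp, W0 p]
  rwa [integral_add' (i1.sub i2) iW, integral_sub' i1 i2, J1, J2, sub_zero, zero_add] at key

end Pool.Agent.MP_ed9623_an.U81
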