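import Pool.Agent.MP_ed9623_an.U81.Lid

/-! Continuation along horizontal segments. -/

open MeasureTheory Filter Topology Set
open scoped ContDiff

namespace Pool.Agent.MP_ed9623_an.U81

open H64 H77

theorem slice_v {Φ : P → ℝ} {a b c d D : ℝ} (hi : Integrable Φ) (h0 : ∀ p, 0 ≤ Φ p) (hab : a ≤ b)
    (hcd : c ≤ d) (h : ∀ s ∈ Ioo a b, D ≤ ∫ t in c..d, Φ (s, t)) : (b - a) * D ≤ ∫ p, Φ p := by
  have i : IntegrableOn Φ (Ioo a b ×ˢ Ioc c d) ((volume : Measure ℝ).prod volume) := hi.integrableOn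
  have i' : Integrable Φ ((volume.restrict (Ioo a b)).prod (volume.restrict (Ioc c d))) := by
    rwa [Measure.prod_restrict]
  have e := setIntegral_prod Φ i
  have l : ∫ p in Ioo a b ×ˢ Ioc c d, Φ p ∂(volume : Measure ℝ).prod volume ≤ ∫ p, Φ p :=
    setIntegral_le_integral hi (Eventually.of_forall h0)
  refine le_trans ?_ (e ▸ l)
  have m := setIntegral_mono_on (μ := volume) (f := fun _ => D) (integrableOn_const (by simp))
    i'.integral_prod_left measurableSet_Ioo fun s hs => by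
      rw [← intervalIntegral.integral_of_le hcd]; exact h s hs
  rwa [setIntegral_const, Real.volume_real_Ioo_of_le hab, smul_eq_mul] at m

theorem slice_h {Φ : P → ℝ} {a b c d D : ℝ} (hi : Integrable Φ) (h0 : ∀ p, 0 ≤ Φ p) (hab : a ≤ b)
    (hcd : c ≤ d) (h : ∀ x ∈ Ioo c d, D ≤ ∫ t in a..b, Φ (t, x)) : (d - c) * D ≤ ∫ p, Φ p := by
  have := slice_v (Φ := Φ ∘ Prod.swap) (Integrable.swap hi) (fun p => h0 _) hcd hab h
  exact this.trans_eq (integral_prod_swap Φ)

theorem lag (u v a b : ℝ) : (u * b - v * a) ^ 2 ≤ (u ^ 2 + v ^ 2) * (a ^ 2 + b ^ 2) := by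
  nlinarith [sq_nonneg (u * a + v * b)]

/-- The pointwise bound needed in the area inequality. -/
theorem z_bd {u v cs cx us ux vs vx J ε Ks Kx : ℝ} (hε : 0 ≤ ε) (hJ : 0 ≤ J)
    (h2 : 0 ≤ Kx) (hx : cs ^ 2 * (ux ^ 2 + vx ^ 2) ≤ Kx * J)
    (hs : cx ^ 2 * ((u ^ 2 + v ^ 2) * (us ^ 2 + vs ^ 2)) ≤ Ks * mm u v ε * J) :
    (cs * (u * vx - v * ux) - cx * (u * vs - v * us)) ^ 2 ≤ 2 * (Kx + Ks) * mm u v ε * J := by
  have a := mul_le_mul_of_nonneg_left (lag u v ux vx) (sq_nonneg cs)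
  have b := mul_le_mul_of_nonneg_left (lag u v us vs) (sq_nonneg cx)
  have c := mul_le_mul_of_nonneg_left hx (add_nonneg (sq_nonneg u) (sq_nonneg v))
  have d := mul_nonneg hε (mul_nonneg h2 hJ)
  unfold mm at hs ⊢
  nlinarith [sq_nonneg (cs * (u * vx - v * ux) + cx * (u * vs - v * us))]

theorem exists_A {O : Set P} {F₁ F₂ : P → ℝ} (hb : Bornology.IsBounded O) (h1 : Continuous F₁)
    (h2 : Continuous F₂) : ∃ A, 1 ≤ A ∧ ∀ ε, 0 < ε → ε ≤ 1 → ∀ p ∈ O,
      1 + Real.log (mm (F₁ p) (F₂ p) ε) ≤ A := by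
  obtain ⟨N, N0, hN⟩ := bd_on hb ((h1.pow 2).add (h2.pow 2))
  refine ⟨1 + Real.log (N + 1), le_add_of_nonneg_right (Real.log_nonneg (by linarith)),
    fun ε h0 h1 p hp => add_le_add le_rfl (Real.log_le_log (mm_pos _ _ h0) ?_)⟩
  exact add_le_add ((le_abs_self _).trans (hN p hp)) h1

theorem int_box (a b c d K : ℝ) : Integrable ((Bx a b c d).indicator fun _ => K) :=
  (integrable_indicator_iff (isOpen_Bx a b c d).measurableSet).2
    (integrableOn_const (bdd_Bx a b c d).measure_lt_top.ne)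

theorem rowLl : OfLl := by
  intro hL hS a a' b' b c d c₀ C s₁ f α G ha hb hc hs hy h h0 p₀ hp1 hp2
  by_contra hne
  have hab : a' ≤ b' := hs.1.trans hs.2
  have η0 : 0 < α p₀ ^ 2 + G p₀ ^ 2 := by
    rcases not_and_or.1 hne with e | e <;> positivity
  set η := (α p₀ ^ 2 + G p₀ ^ 2) / 2 with hη
  have cα := hy.ca.continuous
  have cG := hy.cg.continuous
  have ev : ∀ᶠ x in 𝓝 p₀.2, η < α (p₀.1, x) ^ 2 + G (p₀.1, x) ^ 2 ∧ x ∈ Ioo c d :=
    (ContinuousAt.eventually_lt (f := fun _ => η) (g := fun x => α (p₀.1, x) ^ 2 + G (p₀.1, x) ^ 2)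
      continuousAt_const (by fun_prop) (by simp only [Prod.mk.eta]; linarith)).and (Ioo_mem_nhds hp2.1 hp2.2)
  obtain ⟨c₁, d₁, -, h1, h2⟩ := exists_Icc_mem_subset_of_mem_nhds ev
  have hcd : c₁ < d₁ := by
    have := Icc_mem_nhds_iff.1 h1
    exact this.1.trans this.2
  obtain ⟨χ, M₁, x1, x2, x3, x4, x5, x6, -, x7⟩ := exists_bump ha hb
  obtain ⟨β, M₂, b1, b2, b3, b4, b5, -, -, b7⟩ := exists_bump (h2 (left_mem_Icc.2 hcd.le)).2.1
    (h2 (right_mem_Icc.2 hcd.le)).2.2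
  have hχ := test_prod x1 x2 x3 b1 b2 b3
  obtain ⟨A, A1, hA⟩ := exists_A (bdd_Bx a b c d) cα cG
  have eJ : ∀ p ∈ Bx a b c d, Jc α G p = d0 α p ^ 2 + f p * d1 α p ^ 2 := fun p hp => by
    rw [Jc, (hy.eq p hp).1, (hy.eq p hp).2]; ring
  have J0 : ∀ p ∈ Bx a b c d, 0 ≤ Jc α G p := fun p hp => by
    rw [eJ p hp]
    rcases (h p hp).1 with e | e
    · have := e.1
      positivity
    · simp [e.1, e.2]
  have ks : ∀ p ∈ Bx a b c d, d0 α p ^ 2 + d0 G p ^ 2 ≤ (1 + |C|) * Jc α G p := fun p hp => by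
    rw [eJ p hp, (hy.eq p hp).1]
    rcases (h p hp).1 with e | e
    · have := mul_le_mul_of_nonneg_right (e.2.trans (le_abs_self C))
        (mul_nonneg e.1 (sq_nonneg (d1 α p)))
      nlinarith [mul_nonneg e.1 (sq_nonneg (d1 α p)), mul_nonneg (abs_nonneg C) (sq_nonneg (d0 α p))]
    · simp [e.1, e.2]
  have kx : ∀ p ∈ Bx a b c d, p.1 ∉ Icc a' b' →
      d1 α p ^ 2 + d1 G p ^ 2 ≤ (1 + c₀⁻¹) * Jc α G p := fun p hp hn => by
    rw [eJ p hp, (hy.eq p hp).2]
    rcases (h p hp).2 ((not_and_or.1 hn).imp (fun e => (not_le.1 e).le) fun e => (not_le.1 e).le)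
      with e | e
    · have i : c₀⁻¹ * c₀ = 1 := inv_mul_cancel₀ hc.ne'
      have j := inv_pos.2 hc
      have := mul_le_mul_of_nonneg_right (mul_le_mul_of_nonneg_left e j.le) (sq_nonneg (d1 α p))
      rw [i] at this
      nlinarith [mul_nonneg (hc.le.trans e) (sq_nonneg (d1 α p)), mul_nonneg j.le (sq_nonneg (d0 α p))]
    · simp [e.1, e.2]
  set K := 2 * (M₁ ^ 2 * (1 + c₀⁻¹) + M₂ ^ 2 * (1 + |C|)) with hK
  set V := ∫ p, (Bx a b c d).indicator (fun _ => K) p
  set T := Real.log (A - Real.log η) + (b' - a') + (1 + |C|) * V / (d₁ - c₁) + 1 with hT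
  set ε := Real.exp (-Real.exp T) with hε
  have ε0 : 0 < ε := Real.exp_pos _
  have ε1 : ε ≤ 1 := Real.exp_le_one_iff.2 (neg_nonpos.2 (Real.exp_pos _).le)
  have sq1 : ∀ {t M : ℝ}, |t| ≤ M → ∀ {u : ℝ}, 0 ≤ u ∧ u ≤ 1 → (t * u) ^ 2 ≤ M ^ 2 :=
    fun {t M} e {u} e' => sq_le_sq' (by nlinarith [abs_le.1 e]) (by nlinarith [abs_le.1 e])
  obtain ⟨iΦ, hI⟩ := hL _ α G _ ((Bx a b c d).indicator fun _ => K) A ε (isOpen_Bx a b c d) hy.ca
    hy.cg hχ ε0 (int_box a b c d K) (fun p => indicator_nonneg (fun _ _ => by positivity) p)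
    fun p hp => ⟨hA ε ε0 ε1 p hp, J0 p hp, by
      have dx := x1.differentiable (by simp) p.1
      have db := b1.differentiable (by simp) p.2
      rw [indicator_of_mem hp, d0_prod dx db, d1_prod dx db]
      refine z_bd ε0.le (J0 p hp) (by positivity) ?_ ?_
      · by_cases e : p.1 ∈ Icc a' b'
        · rw [x6 _ e]
          have := J0 p hp
          simp only [zero_mul, ne_eq, OfNat.ofNat_ne_zero, not_false_eq_true, zero_pow]
          positivity
        · rw [mul_assoc]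
          exact mul_le_mul (sq1 (x7 _) (b4 _)) (kx p hp e) (by positivity) (sq_nonneg _)
      · rw [mul_comm (χ p.1), mul_assoc, mul_assoc, mul_left_comm (1 + |C|)]
        refine mul_le_mul (sq1 (b7 _) (x4 _)) (mul_le_mul ?_ (ks p hp) (by positivity)
          (mm_pos _ _ ε0).le) (by positivity) (sq_nonneg _)
        exact le_add_of_nonneg_right ε0.le⟩
  have Φ0 : ∀ p : P, 0 ≤ (χ p.1 * β p.2) ^ 2 * (Jc α G p * dens A (mm (α p) (G p) ε)) := fun p => by
    by_cases hp : p ∈ Bx a b c d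
    · exact mul_nonneg (sq_nonneg _) (mul_nonneg (J0 p hp)
        (dens_pos (mm_pos _ _ ε0) (hA ε ε0 ε1 p hp)).le)
    · rw [show χ p.1 * β p.2 = 0 from hχ.off hp]; simp
  have key := slice_h (D := (T - Real.log (A - Real.log η) - (b' - a')) / (1 + |C|)) iΦ Φ0 hab
    hcd.le fun x hx => by
      have hx' := h2 (Ioo_subset_Icc_self hx)
      have mem : ∀ t ∈ Icc a' b', ((t, x) : P) ∈ Bx a b c d := fun t ht =>
        ⟨⟨ha.trans_le ht.1, ht.2.trans_lt hb⟩, hx'.2⟩
      have cs : Continuous fun t : ℝ => ((t, x) : P) := by fun_prop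
      have s := hS a' b' A ε (fun t => α (t, x)) (fun t => G (t, x)) (fun t => d0 α (t, x))
        (fun t => d0 G (t, x)) (fun _ => 1) hab ε0 (fun t => ⟨hy.ca.s0 t x, hy.cg.s0 t x⟩)
        ((hy.ca.cp _).comp cs) ((hy.cg.cp _).comp cs) continuousOn_const
        (fun t ht => ⟨one_pos, hA ε ε0 ε1 _ (mem t ht)⟩) s₁ hs p₀.1 hp1
      have cd := (ct_dens hy.ca hy.cg ε0 (hA ε ε0 ε1)).comp cs.continuousOn mem
      have l1 : T ≤ Real.log (A - Real.log (mm (α (s₁, x)) (G (s₁, x)) ε)) := by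
        rw [(h0 x hx'.2).1, (h0 x hx'.2).2, show mm 0 0 ε = ε by simp [mm], hε, Real.log_exp,
          Real.le_log_iff_exp_le (by linarith [Real.exp_pos T])]
        linarith
      have l2 : Real.log (A - Real.log (mm (α (p₀.1, x)) (G (p₀.1, x)) ε))
          ≤ Real.log (A - Real.log η) :=
        Real.log_le_log (by linarith [hA ε ε0 ε1 _ (mem _ hp1)]) (sub_le_sub_left
          (Real.log_le_log (half_pos η0) (hx'.1.le.trans (le_add_of_nonneg_right ε0.le))) A)
      have l3 := intervalIntegral.integral_mono_on (μ := volume) hab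
        (f := fun t => 1 * (d0 α (t, x) ^ 2 + d0 G (t, x) ^ 2) * dens A (mm (α (t, x)) (G (t, x)) ε))
        (g := fun t => (1 + |C|) * ((χ t * β x) ^ 2
          * (Jc α G (t, x) * dens A (mm (α (t, x)) (G (t, x)) ε))))
        (((continuous_const.mul ((((hy.ca.cp _).comp cs).pow 2).add
          (((hy.cg.cp _).comp cs).pow 2))).continuousOn.mul cd).intervalIntegrable_of_Icc hab)
        ((continuousOn_const.mul (((x1.continuous.mul continuous_const).pow 2).continuousOn.mul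
          (((ct_Jc hy.ca hy.cg).comp cs).continuousOn.mul cd))).intervalIntegrable_of_Icc hab)
        fun t ht => by
          rw [x5 t ht, b5 x (Ioo_subset_Icc_self hx), one_mul, one_mul, one_pow, one_mul, ← mul_assoc]
          exact mul_le_mul_of_nonneg_right (ks _ (mem t ht))
            (dens_pos (mm_pos _ _ ε0) (hA ε ε0 ε1 _ (mem t ht))).le
      rw [intervalIntegral.integral_const_mul] at l3
      simp only [inv_one, intervalIntegral.integral_const, smul_eq_mul, mul_one] at s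
      rw [div_le_iff₀' (by positivity)]
      linarith
  have fin := key.trans hI
  have p1 : 0 < d₁ - c₁ := sub_pos.2 hcd
  have p2 : 0 < 1 + |C| := by positivity
  have e : (d₁ - c₁) * ((T - Real.log (A - Real.log η) - (b' - a')) / (1 + |C|))
      = V + (d₁ - c₁) / (1 + |C|) := by
    rw [hT]
    field_simp
    ring
  rw [e] at fin
  linarith [div_pos p1 p2]

end Pool.Agent.MP_ed9623_an.U81
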